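import Pool.Agent.V11260.CP.Q10

/-!
# Counting eigenvalues as `h → 0`
-/

namespace Pool.Agent.V11260.CP

open MeasureTheory FourierTransform Filter Topology
open scoped InnerProductSpace ENNReal NNReal
open Pool.Agent.Helper209.CX (Ed L2d InH1 dirichlet IsHu)

noncomputable section

lemma tail_small (d : ℕ) (A β C μ : ℝ) (hA : 0 ≤ A) (hβ : 0 < β) (hC : 0 < C) (hμ : 0 < μ) :
    ∀ᶠ x : ℝ in atTop, C * (A * x ^ d + 1) ^ 2 * (1 / 2) ^ ⌊β * x⌋₊ ≤ μ := by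
  have hb : 0 < β * Real.log 2 := mul_pos hβ (Real.log_pos (by norm_num))
  set b := β * Real.log 2 with hbdef
  have h1 : Tendsto (fun x : ℝ => b * x) atTop atTop := tendsto_id.const_mul_atTop hb
  have h2 := (Real.tendsto_pow_mul_exp_neg_atTop_nhds_zero (2 * d)).comp h1
  have h3 := h2.const_mul (C * (A + 1) ^ 2 * 2 * (b⁻¹) ^ (2 * d))
  rw [mul_zero] at h3
  filter_upwards [h3.eventually (gt_mem_nhds hμ), eventually_ge_atTop 1] with x hx hx1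
  refine le_trans ?_ hx.le
  simp only [Function.comp_apply]
  have hx0 : 0 < x := by linarith
  have e1 : (A * x ^ d + 1) ^ 2 ≤ (A + 1) ^ 2 * x ^ (2 * d) := by
    have : A * x ^ d + 1 ≤ (A + 1) * x ^ d := by
      have := one_le_pow₀ hx1 (n := d)
      linarith
    calc (A * x ^ d + 1) ^ 2 ≤ ((A + 1) * x ^ d) ^ 2 :=
          pow_le_pow_left₀ (by positivity) this 2
      _ = _ := by rw [mul_pow, ← pow_mul, mul_comm d 2]
  have e2 : (1 / 2 : ℝ) ^ ⌊β * x⌋₊ ≤ 2 * Real.exp (-(b * x)) := by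
    have h4 : β * x < ⌊β * x⌋₊ + 1 := Nat.lt_floor_add_one _
    have h5 : (1 / 2 : ℝ) ^ ⌊β * x⌋₊ = 2 * (1 / 2 : ℝ) ^ ((⌊β * x⌋₊ : ℝ) + 1) := by
      rw [Real.rpow_add (by norm_num), Real.rpow_one, Real.rpow_natCast]
      ring
    have h6 : (1 / 2 : ℝ) ^ ((⌊β * x⌋₊ : ℝ) + 1) ≤ (1 / 2 : ℝ) ^ (β * x) :=
      Real.rpow_le_rpow_of_exponent_ge (by norm_num) (by norm_num) h4.le
    have h7 : (1 / 2 : ℝ) ^ (β * x) = Real.exp (-(b * x)) := by
      rw [Real.rpow_def_of_pos (by norm_num), hbdef, one_div, Real.log_inv]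
      congr 1
      ring
    rw [h5]
    rw [h7] at h6
    linarith
  have hbx : (b⁻¹) ^ (2 * d) * (b * x) ^ (2 * d) = x ^ (2 * d) := by
    rw [← mul_pow, inv_mul_cancel_left₀ hb.ne']
  calc C * (A * x ^ d + 1) ^ 2 * (1 / 2) ^ ⌊β * x⌋₊
      ≤ C * ((A + 1) ^ 2 * x ^ (2 * d)) * (2 * Real.exp (-(b * x))) := by
        refine mul_le_mul (mul_le_mul_of_nonneg_left e1 hC.le) e2 (by positivity) (by positivity)
    _ = C * (A + 1) ^ 2 * 2 * ((b⁻¹) ^ (2 * d) * (b * x) ^ (2 * d)) * Real.exp (-(b * x)) := by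
        rw [hbx]; ring
    _ = _ := by ring

/-- Counting eigenvalues, as `h → 0`. -/
theorem count (d : ℕ) (hd : 1 ≤ d) : ∃ c0 : ℝ, 0 < c0 ∧ ∀ μ : ℝ, 2 ≤ μ → ∀ᶠ h : ℝ in 𝓝[>] 0,
    ∃ (n : ℕ) (e : Fin n → L2d d) (A : Matrix (Fin n) (Fin n) ℂ),
      c0 * (√μ / h) ^ d ≤ (n : ℝ) ∧
      LinearIndependent ℂ e ∧ (∀ k, IsHu h VV (e k) (∑ l, A l k • e l)) ∧
      ∀ (E : ℂ) (w : Fin n → ℂ), w ≠ 0 → (∀ k, ∑ l, A k l * w l = E * w k) →
        1 / 2 ≤ E.im ∧ ‖E‖ ≤ 4 * μ := by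
  have hdr : (1 : ℝ) ≤ d := by exact_mod_cast hd
  refine ⟨(1 / (24 * d * √(2 * (d * 4 ^ (d + 1))))) ^ d, by positivity, fun μ hμ => ?_⟩
  have hμ0 : 0 < μ := by linarith
  set β := √(Real.exp (-(8 * μ)) ^ 2 * (8 * μ) / (72 * d)) with hβ
  have hβ0 : 0 < β := by positivity
  set A := 4 * volume.real (Metric.ball (0 : Ed d) 1) ^ 2 * (√(32 * μ) / (2 * Real.pi)) ^ d with hA
  have hA0 : 0 ≤ A := by positivity
  have hev := tail_small d A β (8 * (1 + 8 * μ) ^ 2 * (2 * μ + 1)) μ hA0 hβ0 (by positivity) hμ0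
  have hev' : ∀ᶠ h : ℝ in 𝓝[>] 0, 8 * (1 + 8 * μ) ^ 2 * (2 * μ + 1) * (A * (h⁻¹) ^ d + 1) ^ 2 *
      (1 / 2) ^ ⌊β * h⁻¹⌋₊ ≤ μ := tendsto_inv_nhdsGT_zero.eventually hev
  have hev2 : ∀ᶠ h : ℝ in 𝓝[>] 0, h < β := by
    filter_upwards [Ioo_mem_nhdsGT hβ0] with h hh
    exact hh.2
  set S := √(2 * (d * 4 ^ (d + 1)) / μ) with hS
  have hS0 : 0 < S := by positivity
  have hev3 : ∀ᶠ h : ℝ in 𝓝[>] 0, h < 1 / (24 * d * S) := by
    filter_upwards [Ioo_mem_nhdsGT (by positivity : 0 < 1 / (24 * d * S))] with h hh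
    exact hh.2
  filter_upwards [hev', hev2, hev3, self_mem_nhdsWithin] with h h1 h2 h3 h4
  have hh : 0 < h := h4
  set M := ⌊β * h⁻¹⌋₊ with hM
  have hM1 : (M : ℝ) ≤ β * h⁻¹ := Nat.floor_le (by positivity)
  have hM0 : 0 < M := by
    rw [hM, Nat.floor_pos, ← div_eq_mul_inv, le_div_iff₀ hh]
    linarith
  obtain ⟨n, e, B, hn, he, hB, hloc⟩ := count_h hd hh hμ M hM0 (by
      have e1 : (M : ℝ) ^ 2 * h ^ 2 ≤ β ^ 2 := by
        have : (M : ℝ) * h ≤ β := by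
          calc (M : ℝ) * h ≤ β * h⁻¹ * h := mul_le_mul_of_nonneg_right hM1 hh.le
            _ = β := by field_simp
        rw [← mul_pow]
        exact pow_le_pow_left₀ (by positivity) this 2
      rw [hβ, Real.sq_sqrt (by positivity), le_div_iff₀ (by positivity)] at e1
      linarith) (by
      rw [lt_div_iff₀ (by positivity)] at h3
      linarith) (by
      have e1 : 4 * volume.real (Metric.ball (0 : Ed d) 1) ^ 2 *
          (√(32 * μ) / (2 * Real.pi * h)) ^ d = A * (h⁻¹) ^ d := by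
        have e0 : √(32 * μ) / (2 * Real.pi * h) = √(32 * μ) / (2 * Real.pi) * h⁻¹ := by
          field_simp
        rw [hA, e0, mul_pow]
        ring
      rw [e1]
      refine le_trans (le_of_eq ?_) h1
      ring)
  refine ⟨n, e, B, le_trans (le_of_eq ?_) hn, he, hB, hloc⟩
  rw [← mul_pow]
  congr 1
  have e1 : √(2 * (d * 4 ^ (d + 1)) / μ) = √(2 * (d * 4 ^ (d + 1))) / √μ :=
    Real.sqrt_div (by positivity) _
  rw [e1]
  field_simp

end

end Pool.Agent.V11260.CP
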