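import Pool.Agent.V11260.CP.P2
import Pool.Agent.V11260.CP.Q11
import Pool.Agent.Helper209.CX.C03
import Pool.Agent.Helper209.CX.K31

/-!
# Summation over the dyadic energies
-/

namespace Pool.Agent.V11260.CP

open MeasureTheory FourierTransform Filter Topology
open scoped InnerProductSpace ENNReal NNReal
open Pool.Agent.Helper209.CX (Ed L2d InH1 dirichlet IsHu)

noncomputable section

lemma sum_two_pow (J : Finset ℕ) (r : ℝ) (hr : 0 ≤ r) (h : ∀ j ∈ J, (1 / 2 : ℝ) ^ j ≤ r) :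
    ∑ j ∈ J, (1 / 2 : ℝ) ^ j ≤ 2 * r := by
  rcases J.eq_empty_or_nonempty with rfl | hJ
  · simpa using hr
  · set j0 := J.min' hJ with hj0
    have h1 : ∀ j ∈ J, (1 / 2 : ℝ) ^ j = (1 / 2) ^ j0 * (1 / 2) ^ (j - j0) := by
      intro j hj
      have : j0 ≤ j := J.min'_le j hj
      rw [← pow_add]
      congr 1
      omega
    rw [Finset.sum_congr rfl h1, ← Finset.mul_sum]
    have h2 : ∑ j ∈ J, (1 / 2 : ℝ) ^ (j - j0) ≤ 2 := by
      have hinj : Set.InjOn (fun j => j - j0) (J : Set ℕ) := by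
        intro a ha b hb hab
        have h3 : j0 ≤ a := J.min'_le a ha
        have h4 : j0 ≤ b := J.min'_le b hb
        simp only at hab
        omega
      rw [← Finset.sum_image (f := fun k => (1 / 2 : ℝ) ^ k) (g := fun j => j - j0) hinj]
      have hsub : J.image (fun j => j - j0) ⊆ Finset.range (J.sup id + 1) := by
        intro k hk
        obtain ⟨j, hj, rfl⟩ := Finset.mem_image.1 hk
        rw [Finset.mem_range]
        have : j ≤ J.sup id := Finset.le_sup (f := id) hj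
        omega
      refine (Finset.sum_le_sum_of_subset_of_nonneg hsub fun i _ _ => by positivity).trans ?_
      have := sum_geometric_two_le (J.sup id + 1)
      simpa using this
    have h3 := h j0 (J.min'_mem hJ)
    calc (1 / 2 : ℝ) ^ j0 * ∑ j ∈ J, (1 / 2 : ℝ) ^ (j - j0) ≤ (1 / 2 : ℝ) ^ j0 * 2 :=
          mul_le_mul_of_nonneg_left h2 (by positivity)
      _ ≤ 2 * r := by linarith

lemma sum_two_pow' (d : ℕ) (hd : 1 ≤ d) (J : Finset ℕ) (r : ℝ) (hr : 0 ≤ r)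
    (h : ∀ j ∈ J, (1 / 2 : ℝ) ^ j ≤ r) : ∑ j ∈ J, ((1 / 2 : ℝ) ^ j) ^ d ≤ 2 * r ^ d := by
  obtain ⟨k, rfl⟩ : ∃ k, d = k + 1 := ⟨d - 1, by omega⟩
  have h1 : ∀ j ∈ J, ((1 / 2 : ℝ) ^ j) ^ (k + 1) ≤ r ^ k * (1 / 2 : ℝ) ^ j := by
    intro j hj
    rw [pow_succ]
    exact mul_le_mul_of_nonneg_right (pow_le_pow_left₀ (by positivity) (h j hj) k) (by positivity)
  refine (Finset.sum_le_sum h1).trans ?_
  rw [← Finset.mul_sum, pow_succ]
  have := mul_le_mul_of_nonneg_left (sum_two_pow J r hr h) (pow_nonneg hr k)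
  linarith

/-- the region of the eigenvalues that we count -/
def Om (μ : ℝ) : Set ℂ := {E | 1 / 2 ≤ E.im ∧ ‖E‖ ≤ 4 * μ}

/-- the distance to the positive half line -/
def del (E : ℂ) : ℝ := Metric.infDist E {z : ℂ | 0 ≤ z.re ∧ z.im = 0}

lemma del_ge (E : ℂ) (h : 1 / 2 ≤ E.im) : 1 / 2 ≤ del E := by
  unfold del
  rw [Metric.le_infDist ⟨0, by simp⟩]
  intro y hy
  rw [dist_eq_norm]
  have h1 := Complex.abs_im_le_norm (E - y)
  rw [Complex.sub_im, hy.2, sub_zero] at h1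
  exact h.trans ((le_abs_self _).trans h1)

/-- the weight of one eigenvalue -/
lemma weight_ge (d : ℕ) (γ σ : ℝ) (hγ : 0 < γ) (hσ0 : 0 ≤ σ) (hσ : σ ≤ d / 2) (E : ℂ)
    (hE : 1 / 2 ≤ E.im) :
    2 * (2 * ‖E‖ ^ (-(1 / 2) : ℝ)) ^ d ≤
      (2 ^ (d + 1) * (2 : ℝ) ^ (γ + d / 2)) * (‖E‖ ^ (-σ) * del E ^ (γ + σ)) := by
  have hN : 1 / 2 ≤ ‖E‖ := hE.trans ((le_abs_self _).trans (Complex.abs_im_le_norm E))
  have hN0 : 0 < ‖E‖ := by linarith
  have hδ := del_ge E hE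
  have h1 : (1 / 2 : ℝ) ^ (γ + σ) ≤ del E ^ (γ + σ) :=
    Real.rpow_le_rpow (by norm_num) hδ (by linarith)
  have h2 : ‖E‖ ^ (-(d / 2 : ℝ)) * (1 / 2 : ℝ) ^ (d / 2 - σ) ≤ ‖E‖ ^ (-σ) := by
    have h3 : ‖E‖ ^ (-σ) = ‖E‖ ^ (-(d / 2 : ℝ)) * ‖E‖ ^ (d / 2 - σ) := by
      rw [← Real.rpow_add hN0]
      congr 1
      ring
    rw [h3]
    exact mul_le_mul_of_nonneg_left (Real.rpow_le_rpow (by norm_num) hN (by linarith))
      (Real.rpow_nonneg hN0.le _)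
  have h3 : ‖E‖ ^ (-(d / 2 : ℝ)) * (1 / 2 : ℝ) ^ (d / 2 - σ) * (1 / 2 : ℝ) ^ (γ + σ) ≤
      ‖E‖ ^ (-σ) * del E ^ (γ + σ) :=
    mul_le_mul h2 h1 (by positivity) (by positivity)
  have h4 : (1 / 2 : ℝ) ^ (d / 2 - σ) * (1 / 2 : ℝ) ^ (γ + σ) = (2 : ℝ) ^ (-(γ + d / 2)) := by
    rw [← Real.rpow_add (by norm_num), one_div, Real.inv_rpow (by norm_num),
      ← Real.rpow_neg (by norm_num)]
    congr 1
    ring
  rw [mul_assoc, h4] at h3
  have h5 : 2 * (2 * ‖E‖ ^ (-(1 / 2) : ℝ)) ^ d = 2 ^ (d + 1) * ‖E‖ ^ (-(d / 2 : ℝ)) := by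
    rw [mul_pow, ← Real.rpow_natCast (‖E‖ ^ (-(1 / 2) : ℝ)) d, ← Real.rpow_mul hN0.le, pow_succ]
    have : -(1 / 2 : ℝ) * d = -(d / 2 : ℝ) := by ring
    rw [this]
    ring
  rw [h5]
  have h6 : (2 : ℝ) ^ (γ + d / 2) * (2 : ℝ) ^ (-(γ + d / 2)) = 1 := by
    rw [← Real.rpow_add (by norm_num), add_neg_cancel, Real.rpow_zero]
  calc 2 ^ (d + 1) * ‖E‖ ^ (-(d / 2 : ℝ))
      = (2 ^ (d + 1) * (2 : ℝ) ^ (γ + d / 2)) * (‖E‖ ^ (-(d / 2 : ℝ)) * (2 : ℝ) ^ (-(γ + d / 2))) := by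
        linear_combination (-(2 ^ (d + 1) * ‖E‖ ^ (-(d / 2 : ℝ)))) * h6
    _ ≤ _ := mul_le_mul_of_nonneg_left h3 (by positivity)

open Classical in
/-- the dyadic sum at one point -/
lemma pointwise (d : ℕ) (hd : 1 ≤ d) (γ σ : ℝ) (hγ : 0 < γ) (hσ0 : 0 ≤ σ) (hσ : σ ≤ d / 2)
    (L : ℕ) (E : ℂ) :
    ∑ i ∈ Finset.range L, (Om (4 ^ (i + 1))).indicator
      (fun _ => ((1 / 2 : ℝ) ^ (i + 1)) ^ d) E ≤
      (2 ^ (d + 1) * (2 : ℝ) ^ (γ + d / 2)) * (‖E‖ ^ (-σ) * del E ^ (γ + σ)) := by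
  have hdel : 0 ≤ del E := Metric.infDist_nonneg
  by_cases hE : 1 / 2 ≤ E.im
  · refine le_trans ?_ (weight_ge d γ σ hγ hσ0 hσ E hE)
    have hN : 1 / 2 ≤ ‖E‖ := hE.trans ((le_abs_self _).trans (Complex.abs_im_le_norm E))
    have hN0 : 0 < ‖E‖ := by linarith
    let J : Finset ℕ := ((Finset.range L).filter fun i => E ∈ Om (4 ^ (i + 1))).image (· + 1)
    have h1 : ∑ i ∈ Finset.range L, (Om (4 ^ (i + 1))).indicator
        (fun _ => ((1 / 2 : ℝ) ^ (i + 1)) ^ d) E = ∑ j ∈ J, ((1 / 2 : ℝ) ^ j) ^ d := by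
      rw [Finset.sum_image (fun a _ b _ h => Nat.succ_injective h), Finset.sum_filter]
      refine Finset.sum_congr rfl fun i _ => ?_
      rw [Set.indicator_apply]
    rw [h1]
    refine sum_two_pow' d hd J _ (by positivity) fun j hj => ?_
    obtain ⟨i, hi, rfl⟩ := Finset.mem_image.1 hj
    have h2 : ‖E‖ ≤ 4 * 4 ^ (i + 1) := (Finset.mem_filter.1 hi).2.2
    have h3 : (1 / 2 : ℝ) ^ (i + 1) = ((4 : ℝ) ^ (i + 1)) ^ (-(1 / 2) : ℝ) := by
      have : (4 : ℝ) ^ (i + 1) = ((2 : ℝ) ^ (i + 1)) ^ (2 : ℝ) := by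
        rw [Real.rpow_two, ← pow_mul, mul_comm, pow_mul]
        norm_num
      rw [this, ← Real.rpow_mul (by positivity)]
      have h5 : (2 : ℝ) * (-(1 / 2)) = -1 := by norm_num
      rw [h5, Real.rpow_neg_one, one_div, inv_pow]
    have h4 : (4 * 4 ^ (i + 1) : ℝ) ^ (-(1 / 2) : ℝ) ≤ ‖E‖ ^ (-(1 / 2) : ℝ) :=
      Real.rpow_le_rpow_of_nonpos hN0 h2 (by norm_num)
    have h5 : (4 * 4 ^ (i + 1) : ℝ) ^ (-(1 / 2) : ℝ) =
        (1 / 2) * ((4 : ℝ) ^ (i + 1)) ^ (-(1 / 2) : ℝ) := by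
      rw [Real.mul_rpow (by norm_num) (by positivity)]
      congr 1
      have : (4 : ℝ) = 2 ^ (2 : ℝ) := by norm_num
      rw [this, ← Real.rpow_mul (by norm_num)]
      norm_num
    rw [h3]
    rw [h5] at h4
    linarith
  · have h1 : ∑ i ∈ Finset.range L, (Om (4 ^ (i + 1))).indicator
        (fun _ => ((1 / 2 : ℝ) ^ (i + 1)) ^ d) E = 0 := by
      refine Finset.sum_eq_zero fun i _ => ?_
      rw [Set.indicator_of_notMem]
      intro h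
      exact hE h.1
    rw [h1]
    positivity

/-- The weighted sum is large. -/
theorem sum_large (d : ℕ) (hd : 1 ≤ d) (γ σ : ℝ) (hγ : 0 < γ) (hσ0 : 0 ≤ σ) (hσ : σ ≤ d / 2) :
    ∃ c1 : ℝ, 0 < c1 ∧ ∀ L : ℕ, ∀ᶠ h : ℝ in 𝓝[>] 0, ∀ G : ℂ → Submodule ℂ (L2d d),
      (∀ E u, u ∈ G E ↔ Pool.Agent.Helper209.CX.K30.chainGen (fun a b => IsHu h VV a b) E u) →
      (∀ E, 0 < del E → Module.Finite ℂ (G E)) →
      ENNReal.ofReal (c1 * L / h ^ d) ≤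
        ∑' E : ℂ, ((Module.finrank ℂ (G E) : ℕ) : ℝ≥0∞) *
          ENNReal.ofReal (‖E‖ ^ (-σ) * del E ^ (γ + σ)) := by
  obtain ⟨c0, hc0, hcount⟩ := count d hd
  set C1 : ℝ := 2 ^ (d + 1) * (2 : ℝ) ^ (γ + d / 2) with hC1
  have hC1p : 0 < C1 := by positivity
  refine ⟨c0 / C1, by positivity, fun L => ?_⟩
  have hev : ∀ᶠ h : ℝ in 𝓝[>] 0, ∀ i ∈ Finset.range L,
      ∃ (n : ℕ) (e : Fin n → L2d d) (A : Matrix (Fin n) (Fin n) ℂ),
      c0 * (√(4 ^ (i + 1)) / h) ^ d ≤ (n : ℝ) ∧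
      LinearIndependent ℂ e ∧ (∀ k, IsHu h VV (e k) (∑ l, A l k • e l)) ∧
      ∀ (E : ℂ) (w : Fin n → ℂ), w ≠ 0 → (∀ k, ∑ l, A k l * w l = E * w k) →
        1 / 2 ≤ E.im ∧ ‖E‖ ≤ 4 * 4 ^ (i + 1) := by
    rw [Filter.eventually_all_finset]
    intro i _
    refine hcount (4 ^ (i + 1)) ?_
    have : (1 : ℝ) ≤ 4 ^ i := one_le_pow₀ (by norm_num)
    rw [pow_succ]
    linarith
  filter_upwards [hev, self_mem_nhdsWithin] with h h1 h2 G hG hfin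
  have hh : 0 < h := h2
  let R : Submodule ℂ (L2d d × L2d d) :=
    { carrier := {p | IsHu h VV p.1 p.2}
      add_mem' := fun {a b} ha hb =>
        Pool.Agent.Helper209.CX.K31.isHu_add h VV a.1 b.1 a.2 b.2 ha hb
      zero_mem' := Pool.Agent.Helper209.CX.K31.isHu_zero_zero h VV
      smul_mem' := fun c a ha => Pool.Agent.Helper209.CX.K31.isHu_smul h VV c a.1 a.2 ha }
  have hlow : ∀ i ∈ Finset.range L, ENNReal.ofReal (c0 / h ^ d) ≤
      ∑' E : ℂ, ENNReal.ofReal ((Om (4 ^ (i + 1))).indicator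
        (fun _ => ((1 / 2 : ℝ) ^ (i + 1)) ^ d) E) * ((Module.finrank ℂ (G E) : ℕ) : ℝ≥0∞) := by
    intro i hi
    obtain ⟨n, e, A, hn, he, hA, hloc⟩ := h1 i hi
    have h3 := mult_lower R e he A (fun k => hA k) (Om (4 ^ (i + 1))) hloc G
      (fun E u => hG E u) (fun E hE => hfin E (lt_of_lt_of_le (by norm_num) (del_ge E hE.1)))
    rw [Fintype.card_fin] at h3
    have h4 : c0 / h ^ d = ((1 / 2 : ℝ) ^ (i + 1)) ^ d * (c0 * (√(4 ^ (i + 1)) / h) ^ d) := by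
      have h5 : √((4 : ℝ) ^ (i + 1)) = 2 ^ (i + 1) := by
        rw [show (4 : ℝ) ^ (i + 1) = (2 ^ (i + 1)) ^ 2 by
          rw [← pow_mul, mul_comm, pow_mul]; norm_num]
        exact Real.sqrt_sq (by positivity)
      have h6 : (1 / 2 : ℝ) ^ (i + 1) * (2 ^ (i + 1) / h) = h⁻¹ := by
        rw [← mul_div_assoc, ← mul_pow]
        norm_num
      rw [h5, mul_left_comm, ← mul_pow, h6, inv_pow, div_eq_mul_inv]
    rw [h4, ENNReal.ofReal_mul (by positivity)]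
    have h5 : ENNReal.ofReal (c0 * (√(4 ^ (i + 1)) / h) ^ d) ≤ (n : ℝ≥0∞) := by
      rw [← ENNReal.ofReal_natCast]
      exact ENNReal.ofReal_le_ofReal hn
    refine (mul_le_mul_right (h5.trans h3) _).trans ?_
    rw [← ENNReal.tsum_mul_left]
    refine ENNReal.tsum_le_tsum fun E => ?_
    by_cases hE : E ∈ Om (4 ^ (i + 1))
    · rw [Set.indicator_of_mem hE, Set.indicator_of_mem hE]
    · rw [Set.indicator_of_notMem hE, mul_zero]
      exact zero_le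
  have hsum := Finset.sum_le_sum hlow
  rw [Finset.sum_const, Finset.card_range, nsmul_eq_mul, ← Summable.tsum_finsetSum
    (fun _ _ => ENNReal.summable)] at hsum
  have hupper : ∑' E : ℂ, ∑ i ∈ Finset.range L, ENNReal.ofReal ((Om (4 ^ (i + 1))).indicator
        (fun _ => ((1 / 2 : ℝ) ^ (i + 1)) ^ d) E) * ((Module.finrank ℂ (G E) : ℕ) : ℝ≥0∞) ≤
      ENNReal.ofReal C1 * ∑' E : ℂ, ((Module.finrank ℂ (G E) : ℕ) : ℝ≥0∞) *
          ENNReal.ofReal (‖E‖ ^ (-σ) * del E ^ (γ + σ)) := by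
    rw [← ENNReal.tsum_mul_left]
    refine ENNReal.tsum_le_tsum fun E => ?_
    rw [← Finset.sum_mul, ← ENNReal.ofReal_sum_of_nonneg]
    · have h5 := ENNReal.ofReal_le_ofReal (pointwise d hd γ σ hγ hσ0 hσ L E)
      rw [← hC1, ENNReal.ofReal_mul hC1p.le] at h5
      calc _ ≤ (ENNReal.ofReal C1 * ENNReal.ofReal (‖E‖ ^ (-σ) * del E ^ (γ + σ))) *
            ((Module.finrank ℂ (G E) : ℕ) : ℝ≥0∞) := mul_le_mul_left h5 _
        _ = _ := by ring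
    · intro i _
      exact Set.indicator_nonneg (fun _ _ => by positivity) _
  have hfinal := hsum.trans hupper
  have h6 : (L : ℝ≥0∞) * ENNReal.ofReal (c0 / h ^ d) = ENNReal.ofReal C1 *
      ENNReal.ofReal (c0 / C1 * L / h ^ d) := by
    rw [← ENNReal.ofReal_natCast, ← ENNReal.ofReal_mul (by positivity),
      ← ENNReal.ofReal_mul hC1p.le]
    congr 1
    field_simp
  rw [h6] at hfinal
  have hC0 : ENNReal.ofReal C1 ≠ 0 := by
    rw [Ne, ENNReal.ofReal_eq_zero, not_le]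
    exact hC1p
  exact (ENNReal.mul_le_mul_iff_right hC0 ENNReal.ofReal_ne_top).1 hfinal

end

end Pool.Agent.V11260.CP
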