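import Mathlib

/-!
# An invariant subspace of `T - (κ + i) Γ` near the low part of `T`

`S = F F†` is the resolvent `(T + 1)⁻¹` of a nonnegative self-adjoint operator.
-/

namespace Pool.Agent.V11260.CP

open scoped InnerProductSpace NNReal
open ContinuousLinearMap

noncomputable section

variable {H : Type*} [NormedAddCommGroup H] [InnerProductSpace ℂ H] [CompleteSpace H]
variable {ι : Type*} [Fintype ι]

/-- the orthogonal projection onto the span of `f` -/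
def PP (f : ι → H) : H →L[ℂ] H := ∑ k, (innerSL ℂ (f k)).smulRight (f k)

lemma PP_apply (f : ι → H) (u : H) : PP f u = ∑ k, ⟪f k, u⟫_ℂ • f k := by
  simp [PP]

def QQ (f : ι → H) : H →L[ℂ] H := 1 - PP f

lemma QQ_apply (f : ι → H) (u : H) : QQ f u = u - PP f u := by
  simp [QQ]

lemma inner_PP {f : ι → H} (hf : Orthonormal ℂ f) (u : H) (l : ι) :
    ⟪f l, PP f u⟫_ℂ = ⟪f l, u⟫_ℂ := by
  classical
  rw [PP_apply, inner_sum]
  simp_rw [inner_smul_right, orthonormal_iff_ite.1 hf]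
  simp

lemma inner_QQ {f : ι → H} (hf : Orthonormal ℂ f) (u : H) (l : ι) : ⟪f l, QQ f u⟫_ℂ = 0 := by
  rw [QQ_apply, inner_sub_right, inner_PP hf, sub_self]

lemma PP_f {f : ι → H} (hf : Orthonormal ℂ f) (l : ι) : PP f (f l) = f l := by
  classical
  rw [PP_apply]
  simp_rw [orthonormal_iff_ite.1 hf]
  simp

lemma PP_of_inner {f : ι → H} {u : H} (h : ∀ l, ⟪f l, u⟫_ℂ = 0) : PP f u = 0 := by
  rw [PP_apply]
  simp [h]

lemma QQ_of_inner {f : ι → H} {u : H} (h : ∀ l, ⟪f l, u⟫_ℂ = 0) : QQ f u = u := by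
  rw [QQ_apply, PP_of_inner h, sub_zero]

lemma QQ_QQ {f : ι → H} (hf : Orthonormal ℂ f) (u : H) : QQ f (QQ f u) = QQ f u :=
  QQ_of_inner (inner_QQ hf u)

lemma PP_inner (f : ι → H) (u v : H) : ⟪PP f u, v⟫_ℂ = ⟪u, PP f v⟫_ℂ := by
  rw [PP_apply, PP_apply, sum_inner, inner_sum]
  refine Finset.sum_congr rfl fun k _ => ?_
  rw [inner_smul_left, inner_smul_right, inner_conj_symm]
  ring

lemma QQ_inner (f : ι → H) (u v : H) : ⟪QQ f u, v⟫_ℂ = ⟪u, QQ f v⟫_ℂ := by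
  rw [QQ_apply, QQ_apply, inner_sub_left, inner_sub_right, PP_inner]

lemma QQ_norm {f : ι → H} (hf : Orthonormal ℂ f) (u : H) : ‖QQ f u‖ ≤ ‖u‖ := by
  have h1 : ⟪QQ f u, QQ f u⟫_ℂ = ⟪u, QQ f u⟫_ℂ := by rw [QQ_inner, QQ_QQ hf]
  have h2 : ‖QQ f u‖ ^ 2 ≤ ‖u‖ * ‖QQ f u‖ := by
    calc ‖QQ f u‖ ^ 2 = ‖⟪QQ f u, QQ f u⟫_ℂ‖ := by
          rw [inner_self_eq_norm_sq_to_K, norm_pow]; simp
      _ = ‖⟪u, QQ f u⟫_ℂ‖ := by rw [h1]
      _ ≤ ‖u‖ * ‖QQ f u‖ := norm_inner_le_norm _ _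
  by_cases h0 : ‖QQ f u‖ = 0
  · rw [h0]; exact norm_nonneg _
  · have : 0 < ‖QQ f u‖ := lt_of_le_of_ne (norm_nonneg _) (Ne.symm h0)
    nlinarith

/-- The data: `F`, the orthonormal eigenvectors `f` of `S = F F†` with eigenvalues `s`, the bound
`s1` for `S` on the orthogonal complement, the positive contraction `Γ`. -/
structure Data (ι H : Type*) [Fintype ι] [NormedAddCommGroup H] [InnerProductSpace ℂ H]
    [CompleteSpace H] where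
  F : H →L[ℂ] H
  Γ : H →L[ℂ] H
  f : ι → H
  s : ι → ℝ
  s1 : ℝ
  κ : ℝ
  θ : ℝ
  ε : ℝ
  hf : Orthonormal ℂ f
  hs : ∀ k, 0 < s k
  hS : ∀ k, F (adjoint F (f k)) = (s k : ℂ) • f k
  hs1 : 0 ≤ s1
  hQ : ∀ u, (∀ k, ⟪f k, u⟫_ℂ = 0) → ‖adjoint F u‖ ^ 2 ≤ s1 * ‖u‖ ^ 2
  hθ : 0 < θ
  hgap : ∀ k, (s k)⁻¹ * s1 ≤ 1 - θ
  hFn : ‖F‖ ≤ 1
  hΓs : ∀ u v, ⟪Γ u, v⟫_ℂ = ⟪u, Γ v⟫_ℂ
  hΓp : ∀ u, 0 ≤ (⟪Γ u, u⟫_ℂ).re
  hΓn : ∀ u, ‖Γ u‖ ≤ ‖u‖
  hκ : 0 ≤ κ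
  hε : 0 ≤ ε
  hΓf : ∀ k, ‖Γ (f k)‖ ≤ ε
  hsmall : 8 * (Fintype.card ι + 1) * (1 + κ) ^ 2 * ε ≤ θ

namespace Data

variable (D : Data ι H)

/-- `κ + i` -/
def ki : ℂ := (D.κ : ℂ) + Complex.I

lemma ki_norm : ‖D.ki‖ ≤ 1 + D.κ := by
  unfold ki
  calc ‖(D.κ : ℂ) + Complex.I‖ ≤ ‖(D.κ : ℂ)‖ + ‖Complex.I‖ := norm_add_le _ _
    _ = 1 + D.κ := by
      rw [Complex.norm_real, Complex.norm_I, Real.norm_of_nonneg D.hκ, add_comm]

/-- `S = F F†` -/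
def S (u : H) : H := D.F (adjoint D.F u)

lemma S_inner (u v : H) : ⟪D.S u, v⟫_ℂ = ⟪u, D.S v⟫_ℂ := by
  unfold S
  exact (adjoint_inner_right D.F (adjoint D.F u) v).symm.trans
    (adjoint_inner_left D.F (adjoint D.F v) u)

lemma S_add (u v : H) : D.S (u + v) = D.S u + D.S v := by simp [S]

lemma S_f (k : ι) : D.S (D.f k) = (D.s k : ℂ) • D.f k := D.hS k

lemma PP_S (u : H) : PP D.f (D.S u) = D.S (PP D.f u) := by
  rw [PP_apply, PP_apply]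
  have : D.S (∑ k, ⟪D.f k, u⟫_ℂ • D.f k) = ∑ k, ⟪D.f k, u⟫_ℂ • D.S (D.f k) := by
    simp [S, map_sum]
  rw [this]
  refine Finset.sum_congr rfl fun k _ => ?_
  rw [← S_inner, D.S_f, inner_smul_left, smul_smul, Complex.conj_ofReal, mul_comm]

lemma QQ_S (u : H) : QQ D.f (D.S u) = D.S (QQ D.f u) := by
  rw [QQ_apply, QQ_apply, PP_S]
  simp [S]

/-- `B = 1 - F† Q (a + K) Q F` -/
def B (k : ι) : H →L[ℂ] H :=
  1 - (adjoint D.F).comp ((QQ D.f).comp ((((D.s k)⁻¹ : ℝ) : ℂ) • (1 : H →L[ℂ] H) + D.ki • D.Γ |>.comp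
    ((QQ D.f).comp D.F)))

lemma B_apply (k : ι) (y : H) : D.B k y = y - adjoint D.F (QQ D.f
    ((((D.s k)⁻¹ : ℝ) : ℂ) • QQ D.f (D.F y) + D.ki • D.Γ (QQ D.f (D.F y)))) := by
  simp [B]

lemma QF_norm (y : H) : ‖QQ D.f (D.F y)‖ ^ 2 ≤ D.s1 * ‖y‖ ^ 2 := by
  set u := QQ D.f (D.F y) with hu
  have hQu : ∀ k, ⟪D.f k, u⟫_ℂ = 0 := inner_QQ D.hf _
  have h1 : ⟪u, u⟫_ℂ = ⟪adjoint D.F u, y⟫_ℂ := by
    rw [adjoint_inner_left]
    conv_lhs => rw [hu, ← QQ_inner, ← hu, QQ_of_inner hQu]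
  have h2 : ‖u‖ ^ 2 ≤ ‖adjoint D.F u‖ * ‖y‖ := by
    calc ‖u‖ ^ 2 = ‖⟪u, u⟫_ℂ‖ := by rw [inner_self_eq_norm_sq_to_K, norm_pow]; simp
      _ = ‖⟪adjoint D.F u, y⟫_ℂ‖ := by rw [h1]
      _ ≤ _ := norm_inner_le_norm _ _
  have h3 := D.hQ u hQu
  have h4 : (‖u‖ ^ 2) ^ 2 ≤ (D.s1 * ‖u‖ ^ 2) * ‖y‖ ^ 2 := by
    calc (‖u‖ ^ 2) ^ 2 ≤ (‖adjoint D.F u‖ * ‖y‖) ^ 2 := pow_le_pow_left₀ (by positivity) h2 2
      _ = ‖adjoint D.F u‖ ^ 2 * ‖y‖ ^ 2 := by ring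
      _ ≤ _ := mul_le_mul_of_nonneg_right h3 (by positivity)
  by_cases h0 : ‖u‖ = 0
  · rw [h0]
    have := mul_nonneg D.hs1 (sq_nonneg ‖y‖)
    simpa using this
  · have : 0 < ‖u‖ ^ 2 := by positivity
    nlinarith

lemma Γ_real (u : H) : ⟪D.Γ u, u⟫_ℂ = (((⟪D.Γ u, u⟫_ℂ).re : ℝ) : ℂ) := by
  have h : (starRingEnd ℂ) ⟪D.Γ u, u⟫_ℂ = ⟪D.Γ u, u⟫_ℂ := by
    rw [inner_conj_symm, ← D.hΓs]
  exact (Complex.conj_eq_iff_re.1 h).symm

lemma B_coercive (k : ι) (y : H) : ‖y‖ ^ 2 * (D.θ / (1 + D.κ)) ≤ ‖⟪D.B k y, y⟫_ℂ‖ := by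
  set u := QQ D.f (D.F y) with hu
  have hQu : ∀ k, ⟪D.f k, u⟫_ℂ = 0 := inner_QQ D.hf _
  set q := (⟪D.Γ u, u⟫_ℂ).re with hq
  set a := (D.s k)⁻¹ with ha
  have ha0 : 0 < a := inv_pos.2 (D.hs k)
  have h1 : ⟪D.B k y, y⟫_ℂ = ((‖y‖ ^ 2 - a * ‖u‖ ^ 2 - D.κ * q : ℝ) : ℂ) + ((q : ℝ) : ℂ) * Complex.I := by
    rw [B_apply, inner_sub_left, adjoint_inner_left, QQ_inner, ← hu, inner_add_left,
      inner_smul_left, inner_smul_left, D.Γ_real u, ← hq, inner_self_eq_norm_sq_to_K,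
      inner_self_eq_norm_sq_to_K, Complex.conj_ofReal, ← ha]
    have hk : (starRingEnd ℂ) D.ki = (D.κ : ℂ) - Complex.I := by
      unfold ki
      rw [map_add, Complex.conj_ofReal, Complex.conj_I]
      ring
    rw [hk]
    push_cast
    simp only [Complex.coe_algebraMap]
    ring
  have h2 := D.QF_norm y
  rw [← hu] at h2
  have hq0 : 0 ≤ q := D.hΓp u
  have hκ := D.hκ
  have h3 : D.θ * ‖y‖ ^ 2 ≤ ‖y‖ ^ 2 - a * ‖u‖ ^ 2 := by
    have h4 : a * ‖u‖ ^ 2 ≤ (a * D.s1) * ‖y‖ ^ 2 := by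
      calc a * ‖u‖ ^ 2 ≤ a * (D.s1 * ‖y‖ ^ 2) := mul_le_mul_of_nonneg_left h2 ha0.le
        _ = _ := by ring
    have h5 := mul_le_mul_of_nonneg_right (D.hgap k) (sq_nonneg ‖y‖)
    rw [← ha] at h5
    linarith
  set r := ‖y‖ ^ 2 - a * ‖u‖ ^ 2 - D.κ * q with hr
  have h6 : r + D.κ * q ≤ (1 + D.κ) * ‖⟪D.B k y, y⟫_ℂ‖ := by
    rw [h1]
    have e1 : ((r : ℂ) + (q : ℂ) * Complex.I).re = r := by simp
    have e2 : ((r : ℂ) + (q : ℂ) * Complex.I).im = q := by simp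
    have n1 := Complex.abs_re_le_norm ((r : ℂ) + (q : ℂ) * Complex.I)
    have n2 := Complex.abs_im_le_norm ((r : ℂ) + (q : ℂ) * Complex.I)
    rw [e1] at n1
    rw [e2] at n2
    have n3 := le_trans (le_abs_self r) n1
    have n4 := mul_le_mul_of_nonneg_left (le_trans (le_abs_self q) n2) hκ
    linarith
  have h7 : D.θ * ‖y‖ ^ 2 ≤ (1 + D.κ) * ‖⟪D.B k y, y⟫_ℂ‖ := by linarith
  have h8 : 0 < 1 + D.κ := by linarith
  rw [← mul_div_assoc, div_le_iff₀ h8]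
  linarith

lemma c0_pos : 0 < D.θ / (1 + D.κ) := div_pos D.hθ (by linarith [D.hκ])

lemma B_unit (k : ι) : IsUnit (D.B k) :=
  isUnit_of_forall_le_norm_inner_map (c := ⟨D.θ / (1 + D.κ), D.c0_pos.le⟩) _ D.c0_pos
    fun y => D.B_coercive k y

/-- the inverse of `B` -/
def Bi (k : ι) : H →L[ℂ] H := (((D.B_unit k).unit⁻¹ : (H →L[ℂ] H)ˣ) : H →L[ℂ] H)

lemma B_Bi (k : ι) (y : H) : D.B k (D.Bi k y) = y := by
  have : D.B k * D.Bi k = 1 := (D.B_unit k).mul_val_inv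
  exact congrArg (fun T : H →L[ℂ] H => T y) this

lemma Bi_norm (k : ι) (y : H) : ‖D.Bi k y‖ ≤ (1 + D.κ) / D.θ * ‖y‖ := by
  have h1 := D.B_coercive k (D.Bi k y)
  rw [B_Bi] at h1
  have h2 := norm_inner_le_norm (𝕜 := ℂ) y (D.Bi k y)
  have h3 := h1.trans h2
  have hc := D.c0_pos
  by_cases h0 : ‖D.Bi k y‖ = 0
  · rw [h0]
    have := D.hθ
    have := D.hκ
    positivity
  · have h4 : 0 < ‖D.Bi k y‖ := lt_of_le_of_ne (norm_nonneg _) (Ne.symm h0)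
    have h5 : ‖D.Bi k y‖ * (D.θ / (1 + D.κ)) ≤ ‖y‖ := by
      by_contra hcon
      push Not at hcon
      have := mul_lt_mul_of_pos_right hcon h4
      nlinarith
    have h6 : (1 + D.κ) / D.θ = (D.θ / (1 + D.κ))⁻¹ := by rw [inv_div]
    rw [h6, inv_mul_eq_div, le_div_iff₀ hc]
    exact h5

/-- `Z v` is the solution `u` in the range of `Q` of `u = S Q ((a + K) u + v)` -/
def Z (k : ι) (v : H) : H := QQ D.f (D.F (D.Bi k (adjoint D.F (QQ D.f v))))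

lemma Z_eq (k : ι) (v : H) : D.Z k v = D.S (QQ D.f
    ((((D.s k)⁻¹ : ℝ) : ℂ) • D.Z k v + D.ki • D.Γ (D.Z k v) + v)) := by
  set y := D.Bi k (adjoint D.F (QQ D.f v)) with hy
  have h1 : D.B k y = adjoint D.F (QQ D.f v) := D.B_Bi k _
  have hZ : D.Z k v = QQ D.f (D.F y) := rfl
  rw [B_apply, ← hZ] at h1
  have h2 : y = adjoint D.F (QQ D.f ((((D.s k)⁻¹ : ℝ) : ℂ) • D.Z k v + D.ki • D.Γ (D.Z k v) + v)) := by
    rw [map_add (QQ D.f), map_add (adjoint D.F), ← h1]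
    abel
  have h3 : D.F y = D.S (QQ D.f ((((D.s k)⁻¹ : ℝ) : ℂ) • D.Z k v + D.ki • D.Γ (D.Z k v) + v)) := by
    unfold S
    rw [← h2]
  calc D.Z k v = QQ D.f (D.F y) := rfl
    _ = QQ D.f (D.S (QQ D.f
      ((((D.s k)⁻¹ : ℝ) : ℂ) • D.Z k v + D.ki • D.Γ (D.Z k v) + v))) := by rw [h3]
    _ = D.S (QQ D.f (QQ D.f
      ((((D.s k)⁻¹ : ℝ) : ℂ) • D.Z k v + D.ki • D.Γ (D.Z k v) + v))) := D.QQ_S _
    _ = _ := by rw [QQ_QQ D.hf]

lemma adj_norm (u : H) : ‖adjoint D.F u‖ ≤ ‖u‖ := by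
  have h := (adjoint D.F).le_opNorm u
  have h2 : ‖adjoint D.F‖ ≤ 1 := by rw [LinearIsometryEquiv.norm_map]; exact D.hFn
  nlinarith [norm_nonneg u]

lemma F_norm (u : H) : ‖D.F u‖ ≤ ‖u‖ := by
  have h := D.F.le_opNorm u
  nlinarith [norm_nonneg u, D.hFn]

lemma Z_norm (k : ι) (v : H) : ‖D.Z k v‖ ≤ (1 + D.κ) / D.θ * ‖v‖ := by
  unfold Z
  have h0 : 0 ≤ (1 + D.κ) / D.θ := by
    have := D.hθ
    have := D.hκ
    positivity
  calc _ ≤ ‖D.F (D.Bi k (adjoint D.F (QQ D.f v)))‖ := QQ_norm D.hf _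
    _ ≤ ‖D.Bi k (adjoint D.F (QQ D.f v))‖ := D.F_norm _
    _ ≤ (1 + D.κ) / D.θ * ‖adjoint D.F (QQ D.f v)‖ := D.Bi_norm k _
    _ ≤ (1 + D.κ) / D.θ * ‖v‖ := mul_le_mul_of_nonneg_left
        ((D.adj_norm _).trans (QQ_norm D.hf v)) h0

lemma Z_sub (k : ι) (v w : H) : D.Z k v - D.Z k w = D.Z k (v - w) := by
  unfold Z
  simp only [map_sub]

lemma Z_inner (k : ι) (v : H) (l : ι) : ⟪D.f l, D.Z k v⟫_ℂ = 0 := inner_QQ D.hf _ l

/-- the matrix entries `⟨f_l, K (f_k + x_k)⟩` -/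
def m (x : ι → H) (l k : ι) : ℂ := ⟪D.f l, D.ki • D.Γ (D.f k + x k)⟫_ℂ

lemma m_norm (x : ι → H) (l k : ι) : ‖D.m x l k‖ ≤ (1 + D.κ) * D.ε * (1 + ‖x k‖) := by
  unfold m
  rw [inner_smul_right, norm_mul, ← D.hΓs]
  have h1 := norm_inner_le_norm (𝕜 := ℂ) (D.Γ (D.f l)) (D.f k + x k)
  have h2 : ‖D.f k + x k‖ ≤ 1 + ‖x k‖ := (norm_add_le _ _).trans (by rw [D.hf.1 k])
  have h3 : ‖⟪D.Γ (D.f l), D.f k + x k⟫_ℂ‖ ≤ D.ε * (1 + ‖x k‖) :=
    h1.trans (mul_le_mul (D.hΓf l) h2 (norm_nonneg _) D.hε)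
  calc ‖D.ki‖ * ‖⟪D.Γ (D.f l), D.f k + x k⟫_ℂ‖ ≤ (1 + D.κ) * (D.ε * (1 + ‖x k‖)) :=
        mul_le_mul D.ki_norm h3 (norm_nonneg _) (by linarith [D.hκ])
    _ = _ := by ring

lemma m_sub (x x' : ι → H) (l k : ι) :
    ‖D.m x l k - D.m x' l k‖ ≤ (1 + D.κ) * D.ε * ‖x k - x' k‖ := by
  have h0 : D.m x l k - D.m x' l k = D.ki * ⟪D.Γ (D.f l), x k - x' k⟫_ℂ := by
    unfold m
    rw [inner_smul_right, inner_smul_right, ← D.hΓs, ← D.hΓs, ← mul_sub, ← inner_sub_right]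
    congr 2
    abel
  rw [h0, norm_mul]
  have h1 := norm_inner_le_norm (𝕜 := ℂ) (D.Γ (D.f l)) (x k - x' k)
  calc ‖D.ki‖ * ‖⟪D.Γ (D.f l), x k - x' k⟫_ℂ‖ ≤ (1 + D.κ) * (D.ε * ‖x k - x' k‖) :=
        mul_le_mul D.ki_norm (h1.trans (mul_le_mul_of_nonneg_right (D.hΓf l) (norm_nonneg _)))
          (norm_nonneg _) (by linarith [D.hκ])
    _ = _ := by ring

/-- the right hand side of the fixed point equation -/
def rhs (x : ι → H) (k : ι) : H := D.ki • D.Γ (D.f k) - ∑ l, D.m x l k • x l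

def Psi (x : ι → H) : ι → H := fun k => D.Z k (D.rhs x k)

lemma rhs_norm (x : ι → H) (hx : ‖x‖ ≤ 1) (k : ι) :
    ‖D.rhs x k‖ ≤ (1 + D.κ) * D.ε * (1 + 2 * Fintype.card ι) := by
  have hxk : ∀ k, ‖x k‖ ≤ 1 := fun k => (norm_le_pi_norm x k).trans hx
  have hκ := D.hκ
  have hε := D.hε
  unfold rhs
  have h1 : ‖D.ki • D.Γ (D.f k)‖ ≤ (1 + D.κ) * D.ε := by
    rw [norm_smul]
    exact mul_le_mul D.ki_norm (D.hΓf k) (norm_nonneg _) (by linarith)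
  have h2 : ‖∑ l, D.m x l k • x l‖ ≤ Fintype.card ι * ((1 + D.κ) * D.ε * 2) := by
    calc ‖∑ l, D.m x l k • x l‖ ≤ ∑ l, ‖D.m x l k • x l‖ := norm_sum_le _ _
      _ ≤ ∑ _l : ι, (1 + D.κ) * D.ε * 2 := by
          refine Finset.sum_le_sum fun l _ => ?_
          rw [norm_smul]
          have h3 := D.m_norm x l k
          have h4 : (1 + D.κ) * D.ε * (1 + ‖x k‖) ≤ (1 + D.κ) * D.ε * 2 :=
            mul_le_mul_of_nonneg_left (by linarith [hxk k]) (by positivity)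
          calc ‖D.m x l k‖ * ‖x l‖ ≤ ((1 + D.κ) * D.ε * 2) * 1 :=
                mul_le_mul (h3.trans h4) (hxk l) (norm_nonneg _) (by positivity)
            _ = _ := mul_one _
      _ = _ := by rw [Finset.sum_const, nsmul_eq_mul, Finset.card_univ]
  calc _ ≤ ‖D.ki • D.Γ (D.f k)‖ + ‖∑ l, D.m x l k • x l‖ := norm_sub_le _ _
    _ ≤ (1 + D.κ) * D.ε + Fintype.card ι * ((1 + D.κ) * D.ε * 2) := add_le_add h1 h2
    _ = _ := by ring

lemma rhs_sub (x x' : ι → H) (hx : ‖x‖ ≤ 1) (hx' : ‖x'‖ ≤ 1) (k : ι) :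
    ‖D.rhs x k - D.rhs x' k‖ ≤ (1 + D.κ) * D.ε * (3 * Fintype.card ι) * ‖x - x'‖ := by
  have hxk : ∀ k, ‖x k‖ ≤ 1 := fun k => (norm_le_pi_norm x k).trans hx
  have hxk' : ∀ k, ‖x' k‖ ≤ 1 := fun k => (norm_le_pi_norm x' k).trans hx'
  have hd : ∀ k, ‖x k - x' k‖ ≤ ‖x - x'‖ := fun k => norm_le_pi_norm (x - x') k
  have hκ := D.hκ
  have hε := D.hε
  have h0 : D.rhs x k - D.rhs x' k = ∑ l, (D.m x' l k • x' l - D.m x l k • x l) := by
    unfold rhs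
    rw [Finset.sum_sub_distrib]
    abel
  rw [h0]
  calc _ ≤ ∑ l, ‖D.m x' l k • x' l - D.m x l k • x l‖ := norm_sum_le _ _
    _ ≤ ∑ _l : ι, (1 + D.κ) * D.ε * 3 * ‖x - x'‖ := by
        refine Finset.sum_le_sum fun l _ => ?_
        have e : D.m x' l k • x' l - D.m x l k • x l =
            (D.m x' l k - D.m x l k) • x' l + D.m x l k • (x' l - x l) := by
          rw [sub_smul, smul_sub]
          abel
        rw [e]
        have h3 := D.m_norm x l k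
        have h4 : (1 + D.κ) * D.ε * (1 + ‖x k‖) ≤ (1 + D.κ) * D.ε * 2 :=
          mul_le_mul_of_nonneg_left (by linarith [hxk k]) (by positivity)
        have h5 := D.m_sub x' x l k
        have h6 : ‖x' k - x k‖ ≤ ‖x - x'‖ := by rw [norm_sub_rev]; exact hd k
        have h7 : ‖x' l - x l‖ ≤ ‖x - x'‖ := by rw [norm_sub_rev]; exact hd l
        calc _ ≤ ‖(D.m x' l k - D.m x l k) • x' l‖ + ‖D.m x l k • (x' l - x l)‖ := norm_add_le _ _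
          _ ≤ ((1 + D.κ) * D.ε * ‖x - x'‖) * 1 + ((1 + D.κ) * D.ε * 2) * ‖x - x'‖ := by
              rw [norm_smul, norm_smul]
              refine add_le_add (mul_le_mul (h5.trans ?_) (hxk' l) (norm_nonneg _) (by positivity))
                (mul_le_mul (h3.trans h4) h7 (norm_nonneg _) (by positivity))
              exact mul_le_mul_of_nonneg_left h6 (by positivity)
          _ = _ := by ring
    _ = _ := by rw [Finset.sum_const, nsmul_eq_mul, Finset.card_univ]; ring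

lemma Psi_ball (x : ι → H) (hx : ‖x‖ ≤ 1) : ‖D.Psi x‖ ≤ 1 := by
  have hθ := D.hθ
  have hκ := D.hκ
  have hε := D.hε
  rw [pi_norm_le_iff_of_nonneg zero_le_one]
  intro k
  have h1 := (D.Z_norm k (D.rhs x k)).trans (mul_le_mul_of_nonneg_left (D.rhs_norm x hx k)
    (by positivity))
  refine h1.trans ?_
  have h2 := D.hsmall
  have hN : (0 : ℝ) ≤ Fintype.card ι := Nat.cast_nonneg _
  rw [div_mul_eq_mul_div, div_le_one hθ]
  refine le_trans ?_ h2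
  have h3 : 0 ≤ (1 + D.κ) ^ 2 * D.ε := by positivity
  nlinarith

lemma Psi_lip (x x' : ι → H) (hx : ‖x‖ ≤ 1) (hx' : ‖x'‖ ≤ 1) :
    ‖D.Psi x - D.Psi x'‖ ≤ 1 / 2 * ‖x - x'‖ := by
  have hθ := D.hθ
  have hκ := D.hκ
  have hε := D.hε
  rw [pi_norm_le_iff_of_nonneg (by positivity)]
  intro k
  have e : (D.Psi x - D.Psi x') k = D.Z k (D.rhs x k - D.rhs x' k) := D.Z_sub k _ _
  rw [e]
  have h1 := (D.Z_norm k (D.rhs x k - D.rhs x' k)).trans (mul_le_mul_of_nonneg_left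
    (D.rhs_sub x x' hx hx' k) (by positivity))
  refine h1.trans ?_
  have h2 := D.hsmall
  have hN : (0 : ℝ) ≤ Fintype.card ι := Nat.cast_nonneg _
  rw [← mul_assoc]
  refine mul_le_mul_of_nonneg_right ?_ (norm_nonneg _)
  rw [div_mul_eq_mul_div, div_le_iff₀ hθ]
  have h3 : 0 ≤ (1 + D.κ) ^ 2 * D.ε := by positivity
  nlinarith

lemma exists_fixed : ∃ x : ι → H, ‖x‖ ≤ 1 ∧ D.Psi x = x := by
  let s : Set (ι → H) := Metric.closedBall 0 1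
  have hs : ∀ x, x ∈ s ↔ ‖x‖ ≤ 1 := fun x => mem_closedBall_zero_iff
  have hmaps : Set.MapsTo D.Psi s s := fun x hx => (hs _).2 (D.Psi_ball x ((hs x).1 hx))
  have hcomp : IsComplete s := Metric.isClosed_closedBall.isComplete
  have hcontr : ContractingWith (1 / 2 : ℝ≥0) (hmaps.restrict D.Psi s s) := by
    refine ⟨by rw [← NNReal.coe_lt_coe]; norm_num, ?_⟩
    refine LipschitzWith.of_dist_le_mul fun x y => ?_
    rw [Subtype.dist_eq, Subtype.dist_eq, dist_eq_norm, dist_eq_norm]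
    have := D.Psi_lip x.1 y.1 ((hs _).1 x.2) ((hs _).1 y.2)
    simpa using this
  obtain ⟨y, hy, hfix, -⟩ := hcontr.exists_fixedPoint' hcomp hmaps
    (x := 0) ((hs 0).2 (by simp)) (edist_ne_top _ _)
  exact ⟨y, (hs y).1 hy, hfix⟩

/-- The invariant subspace: `e_k = S (∑_l A_{l k} e_l + K e_k)`. -/
theorem exists_invariant : ∃ (e : ι → H) (A : Matrix ι ι ℂ), LinearIndependent ℂ e ∧
    (∀ k, e k = D.S (∑ l, A l k • e l + D.ki • D.Γ (e k))) ∧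
    ∀ v : ι → ℂ, ∀ k, ‖∑ l, A k l * v l - (((D.s k)⁻¹ : ℝ) : ℂ) * v k‖ ≤
      2 * (1 + D.κ) * D.ε * ∑ l, ‖v l‖ := by
  classical
  obtain ⟨x, hx1, hfix⟩ := D.exists_fixed
  have hxk : ∀ k, ‖x k‖ ≤ 1 := fun k => (norm_le_pi_norm x k).trans hx1
  have hxe : ∀ k, x k = D.Z k (D.rhs x k) := fun k => (congrFun hfix k).symm
  have hxi : ∀ k l, ⟪D.f l, x k⟫_ℂ = 0 := fun k l => by rw [hxe k]; exact D.Z_inner k _ l
  have hQx : ∀ k, QQ D.f (x k) = x k := fun k => QQ_of_inner (hxi k)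
  let A : Matrix ι ι ℂ := Matrix.of fun l k => (if l = k then (((D.s k)⁻¹ : ℝ) : ℂ) else 0) - D.m x l k
  have hA : ∀ l k, A l k = (if l = k then (((D.s k)⁻¹ : ℝ) : ℂ) else 0) - D.m x l k := fun _ _ => rfl
  refine ⟨fun k => D.f k + x k, A, ?_, ?_, ?_⟩
  · rw [Fintype.linearIndependent_iff]
    intro c hc l
    have h1 : ⟪D.f l, ∑ k, c k • (D.f k + x k)⟫_ℂ = 0 := by rw [hc, inner_zero_right]
    rw [inner_sum] at h1
    simp_rw [inner_smul_right, inner_add_right, hxi, orthonormal_iff_ite.1 D.hf] at h1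
    simpa using h1
  · intro k
    have hs := D.hs k
    set w := ∑ l, A l k • (D.f l + x l) + D.ki • D.Γ (D.f k + x k) with hw
    have hsum : ∀ g : ι → H, ∑ l, A l k • g l = (((D.s k)⁻¹ : ℝ) : ℂ) • g k - ∑ l, D.m x l k • g l := by
      intro g
      simp_rw [hA, sub_smul, Finset.sum_sub_distrib, ite_smul, zero_smul]
      simp
    have hPw : PP D.f w = (((D.s k)⁻¹ : ℝ) : ℂ) • D.f k := by
      have h1 : PP D.f (∑ l, A l k • (D.f l + x l)) = ∑ l, A l k • D.f l := by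
        rw [map_sum]
        refine Finset.sum_congr rfl fun l _ => ?_
        rw [map_smul, map_add, PP_f D.hf, PP_of_inner (hxi l), add_zero]
      have h2 : PP D.f (D.ki • D.Γ (D.f k + x k)) = ∑ l, D.m x l k • D.f l := by
        rw [PP_apply]
        rfl
      rw [hw, map_add, h1, h2, hsum]
      abel
    have hQw : QQ D.f w = QQ D.f ((((D.s k)⁻¹ : ℝ) : ℂ) • x k + D.ki • D.Γ (x k) + D.rhs x k) := by
      have h1 : QQ D.f (∑ l, A l k • (D.f l + x l)) = ∑ l, A l k • x l := by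
        rw [map_sum]
        refine Finset.sum_congr rfl fun l _ => ?_
        rw [map_smul, map_add, hQx, QQ_apply, PP_f D.hf, sub_self, zero_add]
      have h2 : QQ D.f (∑ l, D.m x l k • x l) = ∑ l, D.m x l k • x l := by
        rw [map_sum]
        refine Finset.sum_congr rfl fun l _ => ?_
        rw [map_smul, hQx]
      rw [hw, map_add, h1, hsum]
      unfold rhs
      rw [map_add (QQ D.f), map_add (QQ D.f) ((((D.s k)⁻¹ : ℝ) : ℂ) • x k), map_sub (QQ D.f), h2,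
        map_smul (QQ D.f) _ (x k), hQx, map_add D.Γ, smul_add, map_add (QQ D.f) (D.ki • D.Γ (D.f k))]
      abel
    have hx2 : x k = D.S (QQ D.f w) := by
      rw [hQw, hxe k]
      conv_rhs => rw [← hxe k]
      have := D.Z_eq k (D.rhs x k)
      rw [← hxe k] at this
      rw [← hxe k]
      exact this
    have hf2 : D.f k = D.S (PP D.f w) := by
      rw [hPw]
      unfold S
      rw [map_smul, map_smul, D.hS, smul_smul, ← Complex.ofReal_mul, inv_mul_cancel₀ hs.ne']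
      simp
    have hw2 : w = PP D.f w + QQ D.f w := by rw [QQ_apply]; abel
    calc D.f k + x k = D.S (PP D.f w) + D.S (QQ D.f w) := by rw [← hf2, ← hx2]
      _ = D.S (PP D.f w + QQ D.f w) := (D.S_add _ _).symm
      _ = D.S w := by rw [← hw2]
  · intro v k
    have h1 : ∑ l, A k l * v l - (((D.s k)⁻¹ : ℝ) : ℂ) * v k = - ∑ l, D.m x k l * v l := by
      simp_rw [hA, sub_mul, Finset.sum_sub_distrib, ite_mul, zero_mul]
      simp
    rw [h1, norm_neg]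
    have hκ := D.hκ
    have hε := D.hε
    calc ‖∑ l, D.m x k l * v l‖ ≤ ∑ l, ‖D.m x k l * v l‖ := norm_sum_le _ _
      _ ≤ ∑ l, 2 * (1 + D.κ) * D.ε * ‖v l‖ := by
          refine Finset.sum_le_sum fun l _ => ?_
          rw [norm_mul]
          refine mul_le_mul_of_nonneg_right ?_ (norm_nonneg _)
          have h3 := D.m_norm x k l
          have h4 : (1 + D.κ) * D.ε * (1 + ‖x l‖) ≤ (1 + D.κ) * D.ε * 2 :=
            mul_le_mul_of_nonneg_left (by linarith [hxk l]) (by positivity)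
          linarith
      _ = _ := by rw [Finset.mul_sum]

end Data

/-- The eigenvalues of a small perturbation of a real diagonal matrix. -/
theorem eig_loc (A : Matrix ι ι ℂ) (a : ι → ℝ) (η lo hi : ℝ) (hη : 0 ≤ η)
    (hlo : ∀ k, lo ≤ a k) (hhi : ∀ k, a k ≤ hi)
    (hA : ∀ v : ι → ℂ, ∀ k, ‖∑ l, A k l * v l - ((a k : ℝ) : ℂ) * v k‖ ≤ η * ∑ l, ‖v l‖)
    (E : ℂ) (v : ι → ℂ) (hv : v ≠ 0) (hE : ∀ k, ∑ l, A k l * v l = E * v k) :
    ∃ x : ℝ, lo ≤ x ∧ x ≤ hi ∧ ‖E - x‖ ≤ η * Fintype.card ι := by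
  have hn : 0 < ∑ k, ‖v k‖ ^ 2 := by
    obtain ⟨k, hk⟩ := Function.ne_iff.1 hv
    have : 0 < ‖v k‖ ^ 2 := by
      have : 0 < ‖v k‖ := norm_pos_iff.2 hk
      positivity
    exact lt_of_lt_of_le this (Finset.single_le_sum (f := fun k => ‖v k‖ ^ 2)
      (fun i _ => sq_nonneg _) (Finset.mem_univ k))
  set n := ∑ k, ‖v k‖ ^ 2 with hndef
  refine ⟨(∑ k, a k * ‖v k‖ ^ 2) / n, ?_, ?_, ?_⟩
  · rw [le_div_iff₀ hn, hndef, Finset.mul_sum]
    exact Finset.sum_le_sum fun k _ => mul_le_mul_of_nonneg_right (hlo k) (sq_nonneg _)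
  · rw [div_le_iff₀ hn, hndef, Finset.mul_sum]
    exact Finset.sum_le_sum fun k _ => mul_le_mul_of_nonneg_right (hhi k) (sq_nonneg _)
  · have h1 : (E - (((∑ k, a k * ‖v k‖ ^ 2) / n : ℝ) : ℂ)) * (n : ℂ) =
        ∑ k, (starRingEnd ℂ) (v k) * (∑ l, A k l * v l - ((a k : ℝ) : ℂ) * v k) := by
      have hsq : ∀ k, (starRingEnd ℂ) (v k) * v k = ((‖v k‖ ^ 2 : ℝ) : ℂ) := fun k => by
        rw [Complex.conj_mul']; push_cast; rfl
      have e1 : ∀ k, (starRingEnd ℂ) (v k) * (∑ l, A k l * v l - ((a k : ℝ) : ℂ) * v k) =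
          E * ((‖v k‖ ^ 2 : ℝ) : ℂ) - ((a k * ‖v k‖ ^ 2 : ℝ) : ℂ) := fun k => by
        rw [hE k]
        have := hsq k
        calc _ = E * ((starRingEnd ℂ) (v k) * v k) - (a k : ℂ) * ((starRingEnd ℂ) (v k) * v k) := by
              ring
          _ = _ := by rw [this]; push_cast; ring
      simp_rw [e1]
      rw [Finset.sum_sub_distrib, ← Finset.mul_sum, ← Complex.ofReal_sum, ← Complex.ofReal_sum,
        ← hndef, sub_mul, ← Complex.ofReal_mul, div_mul_cancel₀ _ hn.ne']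
    have h2 : ‖∑ k, (starRingEnd ℂ) (v k) * (∑ l, A k l * v l - ((a k : ℝ) : ℂ) * v k)‖ ≤
        η * (∑ l, ‖v l‖) ^ 2 := by
      calc _ ≤ ∑ k, ‖(starRingEnd ℂ) (v k) * (∑ l, A k l * v l - ((a k : ℝ) : ℂ) * v k)‖ :=
            norm_sum_le _ _
        _ ≤ ∑ k, ‖v k‖ * (η * ∑ l, ‖v l‖) := by
            refine Finset.sum_le_sum fun k _ => ?_
            rw [norm_mul, RCLike.norm_conj]
            exact mul_le_mul_of_nonneg_left (hA v k) (norm_nonneg _)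
        _ = _ := by rw [← Finset.sum_mul]; ring
    have h3 : (∑ l, ‖v l‖) ^ 2 ≤ Fintype.card ι * n := by
      have := sq_sum_le_card_mul_sum_sq (s := (Finset.univ : Finset ι)) (f := fun l => ‖v l‖)
      rwa [Finset.card_univ] at this
    have h4 : ‖E - (((∑ k, a k * ‖v k‖ ^ 2) / n : ℝ) : ℂ)‖ * n ≤ (η * Fintype.card ι) * n := by
      calc _ = ‖(E - (((∑ k, a k * ‖v k‖ ^ 2) / n : ℝ) : ℂ)) * (n : ℂ)‖ := by
            rw [norm_mul, Complex.norm_real, Real.norm_of_nonneg hn.le]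
        _ ≤ η * (∑ l, ‖v l‖) ^ 2 := by rw [h1]; exact h2
        _ ≤ η * (Fintype.card ι * n) := mul_le_mul_of_nonneg_left h3 hη
        _ = _ := by ring
    exact le_of_mul_le_mul_right h4 hn

end

end Pool.Agent.V11260.CP
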