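import Mathlib
import Pool.Agent.Helper209.CX.K30

/-!
# Lower bound of the total algebraic multiplicity from an invariant subspace
-/

namespace Pool.Agent.V11260.CP

open scoped ENNReal
open Pool.Agent.Helper209.CX.K30

noncomputable section

theorem mult_lower {X : Type*} [AddCommGroup X] [Module ℂ X] (R : Submodule ℂ (X × X))
    {ι : Type*} [Fintype ι] (e : ι → X) (he : LinearIndependent ℂ e)
    (A : Matrix ι ι ℂ) (hA : ∀ k, (e k, ∑ l, A l k • e l) ∈ R) (Ω : Set ℂ)
    (hΩ : ∀ (E : ℂ) (v : ι → ℂ), v ≠ 0 → (∀ k, ∑ l, A k l * v l = E * v k) → E ∈ Ω)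
    (G : ℂ → Submodule ℂ X) (hG : ∀ E u, u ∈ G E ↔ chainGen (fun a b => (a, b) ∈ R) E u)
    (hfin : ∀ E ∈ Ω, Module.Finite ℂ (G E)) :
    (Fintype.card ι : ℝ≥0∞) ≤
      ∑' E : ℂ, Ω.indicator (fun E => ((Module.finrank ℂ (G E) : ℕ) : ℝ≥0∞)) E := by
  classical
  let T : Module.End ℂ (ι → ℂ) := Matrix.toLin' A
  let J : (ι → ℂ) →ₗ[ℂ] X := Fintype.linearCombination ℂ e
  have hJ : ∀ v, J v = ∑ k, v k • e k := fun v => Fintype.linearCombination_apply ℂ e v
  have hJi : Function.Injective J := he.fintypeLinearCombination_injective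
  have hT : ∀ v k, T v k = ∑ l, A k l * v l := fun v k => rfl
  have hJT : ∀ v, (J v, J (T v)) ∈ R := by
    intro v
    have h1 : J (T v) = ∑ k, v k • ∑ l, A l k • e l := by
      rw [hJ]
      simp_rw [hT, Finset.sum_smul, Finset.smul_sum]
      rw [Finset.sum_comm]
      refine Finset.sum_congr rfl fun k _ => Finset.sum_congr rfl fun l _ => ?_
      rw [smul_smul, mul_comm]
    rw [h1, hJ]
    have h2 : (∑ k, v k • e k, ∑ k, v k • ∑ l, A l k • e l) =
        ∑ k, v k • ((e k, ∑ l, A l k • e l) : X × X) := by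
      ext
      · simp [Prod.fst_sum]
      · simp [Prod.snd_sum]
    rw [h2]
    exact Submodule.sum_mem _ fun k _ => R.smul_mem _ (hA k)
  have hmem : ∀ E v, v ∈ T.maxGenEigenspace E → J v ∈ G E := by
    intro E v hv
    rw [Module.End.mem_maxGenEigenspace] at hv
    obtain ⟨n, hn⟩ := hv
    rw [hG]
    refine ⟨n, fun i => J (((T - E • (1 : Module.End ℂ (ι → ℂ))) ^ i) v), by simp, ?_, ?_⟩
    · simp only [hn, map_zero]
    · intro i _
      simp only
      set z := ((T - E • (1 : Module.End ℂ (ι → ℂ))) ^ i) v with hz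
      have h1 : ((T - E • (1 : Module.End ℂ (ι → ℂ))) ^ (i + 1)) v = T z - E • z := by
        rw [pow_succ', Module.End.mul_apply, ← hz]
        simp
      rw [h1, map_sub, map_smul, sub_add_cancel]
      exact hJT z
  have hcount : ∀ E, T.charpoly.roots.count E = Module.finrank ℂ (T.maxGenEigenspace E) := by
    intro E
    rw [Polynomial.count_roots, ← LinearMap.finrank_maxGenEigenspace_eq]
  have hle : ∀ E ∈ Ω, T.charpoly.roots.count E ≤ Module.finrank ℂ (G E) := by
    intro E hE
    rw [hcount]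
    have := hfin E hE
    let L : T.maxGenEigenspace E →ₗ[ℂ] G E :=
      (J.comp (T.maxGenEigenspace E).subtype).codRestrict (G E) fun v => hmem E v v.2
    refine LinearMap.finrank_le_finrank_of_injective (f := L) ?_
    intro a b hab
    have h1 := congrArg Subtype.val hab
    exact Subtype.ext (hJi h1)
  have hroot : ∀ E ∈ T.charpoly.roots, E ∈ Ω := by
    intro E hE
    have h1 : T.HasEigenvalue E := by
      rw [Module.End.hasEigenvalue_iff_isRoot_charpoly]
      exact (Polynomial.mem_roots'.1 hE).2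
    obtain ⟨v, hv⟩ := h1.exists_hasEigenvector
    refine hΩ E v hv.2 fun k => ?_
    have h2 := hv.apply_eq_smul
    have h3 := congrFun h2 k
    rw [hT] at h3
    rw [h3]
    rfl
  have hcard : Fintype.card ι = ∑ E ∈ T.charpoly.roots.toFinset, T.charpoly.roots.count E := by
    rw [Multiset.toFinset_sum_count_eq]
    have h1 : T.charpoly.roots.card = T.charpoly.natDegree :=
      (IsAlgClosed.splits T.charpoly).natDegree_eq_card_roots.symm
    rw [h1, LinearMap.charpoly_natDegree, Module.finrank_fintype_fun_eq_card]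
  rw [hcard]
  push_cast
  calc ∑ E ∈ T.charpoly.roots.toFinset, (T.charpoly.roots.count E : ℝ≥0∞)
      ≤ ∑ E ∈ T.charpoly.roots.toFinset,
        Ω.indicator (fun E => ((Module.finrank ℂ (G E) : ℕ) : ℝ≥0∞)) E := by
        refine Finset.sum_le_sum fun E hE => ?_
        have hE' : E ∈ Ω := hroot E (Multiset.mem_toFinset.1 hE)
        rw [Set.indicator_of_mem hE']
        exact_mod_cast hle E hE'
    _ ≤ _ := ENNReal.sum_le_tsum _

end

end Pool.Agent.V11260.CP
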