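import Pool.Agent.V11260.CP.P1

/-!
# The upper part of the spectrum of `S = F F†`
-/

namespace Pool.Agent.V11260.CP

open scoped InnerProductSpace NNReal
open ContinuousLinearMap

noncomputable section

variable {H : Type*} [NormedAddCommGroup H] [InnerProductSpace ℂ H] [CompleteSpace H]

lemma adj_sq (F : H →L[ℂ] H) (u : H) :
    ((‖adjoint F u‖ ^ 2 : ℝ) : ℂ) = ⟪F (adjoint F u), u⟫_ℂ := by
  rw [← adjoint_inner_right, inner_self_eq_norm_sq_to_K]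
  push_cast
  rfl

lemma pos_decomp (S : H →L[ℂ] H) (hSsa : IsSelfAdjoint S) (s0 : ℝ) :
    ∃ P N : H →L[ℂ] H, (∀ u v, ⟪P u, v⟫_ℂ = ⟪u, P v⟫_ℂ) ∧ (∀ u, 0 ≤ (⟪P u, u⟫_ℂ).re) ∧
      (∀ u, 0 ≤ (⟪N u, u⟫_ℂ).re) ∧ (∀ w, N (P w) = 0) ∧
      ∀ u, S u = P u - N u + (s0 : ℂ) • u := by
  have hAsa : IsSelfAdjoint (S - (s0 : ℂ) • (1 : H →L[ℂ] H)) := by
    refine hSsa.sub ?_
    refine IsSelfAdjoint.smul ?_ (IsSelfAdjoint.one _)
    rw [isSelfAdjoint_iff, Complex.star_def, Complex.conj_ofReal]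
  obtain ⟨A, hA⟩ : ∃ A, A = S - (s0 : ℂ) • (1 : H →L[ℂ] H) := ⟨_, rfl⟩
  rw [← hA] at hAsa
  have hP0 : (0 : H →L[ℂ] H) ≤ A⁺ := CFC.posPart_nonneg A
  have hN0 : (0 : H →L[ℂ] H) ≤ A⁻ := CFC.negPart_nonneg A
  have hPN : A⁺ - A⁻ = A := CFC.posPart_sub_negPart A hAsa
  have hNP : A⁻ * A⁺ = 0 := CFC.negPart_mul_posPart A
  obtain ⟨P, hP⟩ : ∃ P, P = A⁺ := ⟨_, rfl⟩
  obtain ⟨N, hN⟩ : ∃ N, N = A⁻ := ⟨_, rfl⟩
  rw [← hP] at hP0 hPN hNP
  rw [← hN] at hN0 hPN hNP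
  have hPp : P.IsPositive := (nonneg_iff_isPositive P).1 hP0
  have hNp : N.IsPositive := (nonneg_iff_isPositive N).1 hN0
  refine ⟨P, N, fun u v => hPp.isSymmetric u v, fun u => hPp.re_inner_nonneg_left u,
    fun u => hNp.re_inner_nonneg_left u, fun w => ?_, fun u => ?_⟩
  · exact congrArg (fun T : H →L[ℂ] H => T w) hNP
  · have h1 : (P - N) u = A u := by rw [hPN]
    have h2 : A u = S u - (s0 : ℂ) • u := by
      rw [hA]
      rfl
    have h3 : (P - N) u = P u - N u := rfl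
    rw [← h3, h1, h2]
    abel

theorem spectral_low (F : H →L[ℂ] H) (s0 : ℝ) (hs0 : 0 < s0) (Nmax : ℕ)
    (hdim : ∀ (n : ℕ) (v : Fin n → H), Orthonormal ℂ v →
      (∀ i, ∃ z, F z = v i ∧ ‖z‖ ^ 2 ≤ s0⁻¹) → n ≤ Nmax) :
    ∃ (n : ℕ) (f : Fin n → H) (s : Fin n → ℝ), n ≤ Nmax ∧ Orthonormal ℂ f ∧
      (∀ k, F (adjoint F (f k)) = (s k : ℂ) • f k) ∧ (∀ k, s0 ≤ s k) ∧
      ∀ u, (∀ k, ⟪f k, u⟫_ℂ = 0) → ‖adjoint F u‖ ^ 2 ≤ s0 * ‖u‖ ^ 2 := by
  classical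
  let S : H →L[ℂ] H := F.comp (adjoint F)
  have hSd : ∀ u, S u = F (adjoint F u) := fun u => rfl
  have hSsym : ∀ u v, ⟪S u, v⟫_ℂ = ⟪u, S v⟫_ℂ := fun u v =>
    (adjoint_inner_right F (adjoint F u) v).symm.trans (adjoint_inner_left F (adjoint F v) u)
  have hSsa : IsSelfAdjoint S := (isSelfAdjoint_iff_isSymmetric).2 fun u v => hSsym u v
  obtain ⟨P, N, hPsym, hPpos, hNpos, hNPu, hSA⟩ := pos_decomp S hSsa s0
  have hSP : ∀ w, S (P w) = P (P w) + (s0 : ℂ) • P w := fun w => by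
    rw [hSA, hNPu, sub_zero]
  -- the range of `P`
  let E0 : Submodule ℂ H := LinearMap.range (P : H →ₗ[ℂ] H)
  have hE0 : ∀ y ∈ E0, S y = P y + (s0 : ℂ) • y := by
    rintro y ⟨w, rfl⟩
    exact hSP w
  have hnormsq : ∀ y : H, (⟪y, y⟫_ℂ).re = ‖y‖ ^ 2 := fun y => by
    rw [inner_self_eq_norm_sq_to_K]
    norm_cast
  have hSy : ∀ y ∈ E0, s0 * ‖y‖ ^ 2 ≤ (⟪S y, y⟫_ℂ).re := by
    intro y hy
    rw [hE0 y hy, inner_add_left, inner_smul_left, Complex.conj_ofReal, Complex.add_re,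
      Complex.re_ofReal_mul, hnormsq]
    linarith [hPpos y]
  have hinj : ∀ y ∈ E0, S y = 0 → y = 0 := by
    intro y hy h
    have h1 := hSy y hy
    rw [h, inner_zero_left, Complex.zero_re] at h1
    have h2 : ‖y‖ ^ 2 ≤ 0 := by
      by_contra hcon
      push Not at hcon
      have := mul_pos hs0 hcon
      linarith
    have h3 : ‖y‖ = 0 := by nlinarith [norm_nonneg y]
    exact norm_eq_zero.1 h3
  have hform : ∀ y ∈ E0, ‖adjoint F y‖ ^ 2 ≤ s0⁻¹ * ‖S y‖ ^ 2 := by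
    intro y hy
    have h1 : ‖adjoint F y‖ ^ 2 = (⟪S y, y⟫_ℂ).re := by
      have := congrArg Complex.re (adj_sq F y)
      rw [Complex.ofReal_re] at this
      exact this
    have h2 : ‖S y‖ ^ 2 = (⟪S y, P y⟫_ℂ).re + s0 * (⟪S y, y⟫_ℂ).re := by
      rw [← hnormsq]
      conv_lhs => rw [hE0 y hy, inner_add_right, ← hE0 y hy, inner_smul_right]
      rw [Complex.add_re, Complex.re_ofReal_mul]
    have h3 : 0 ≤ (⟪S y, P y⟫_ℂ).re := by
      rw [hE0 y hy, inner_add_left, inner_smul_left, Complex.conj_ofReal, Complex.add_re,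
        Complex.re_ofReal_mul, hnormsq]
      have h4 : 0 ≤ (⟪y, P y⟫_ℂ).re := by rw [← hPsym]; exact hPpos y
      positivity
    rw [h1, inv_mul_eq_div, le_div_iff₀ hs0, h2]
    linarith
  have hrank : Module.rank ℂ E0 ≤ Nmax := by
    apply rank_le
    intro t ht
    let S' : E0 →ₗ[ℂ] H := (S : H →ₗ[ℂ] H).comp E0.subtype
    have hS'i : Function.Injective S' := by
      rw [← LinearMap.ker_eq_bot, LinearMap.ker_eq_bot']
      intro y hy
      exact Subtype.ext (hinj y.1 y.2 hy)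
    let V' : Submodule ℂ H := (Submodule.span ℂ (t : Set E0)).map S'
    have hfd : FiniteDimensional ℂ (Submodule.span ℂ (t : Set E0)) :=
      FiniteDimensional.span_finset ℂ t
    have hfd' : FiniteDimensional ℂ V' := inferInstance
    have hfr : Module.finrank ℂ V' = t.card := by
      have h1 : Module.finrank ℂ V' = Module.finrank ℂ (Submodule.span ℂ (t : Set E0)) :=
        (Submodule.equivMapOfInjective S' hS'i _).finrank_eq.symm
      rw [h1]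
      exact finrank_span_finset_eq_card ht
    let b := stdOrthonormalBasis ℂ V'
    have hb : Orthonormal ℂ (fun i => ((b i : V') : H)) :=
      b.orthonormal.comp_linearIsometry V'.subtypeₗᵢ
    rw [← hfr]
    refine hdim _ (fun i => ((b i : V') : H)) hb fun i => ?_
    obtain ⟨y, -, hy⟩ := (b i).2
    refine ⟨adjoint F (y : H), hy, ?_⟩
    have h1 := hform y.1 y.2
    have h2 : S (y : H) = ((b i : V') : H) := hy
    rw [h2, hb.1 i, one_pow, mul_one] at h1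
    exact h1
  have hfdE : FiniteDimensional ℂ E0 :=
    Module.rank_lt_aleph0_iff.1 (lt_of_le_of_lt hrank Cardinal.natCast_lt_aleph0)
  have hfrE : Module.finrank ℂ E0 ≤ Nmax := by
    rw [← Module.finrank_eq_rank] at hrank
    exact_mod_cast hrank
  have hmaps : ∀ x ∈ E0, (S : H →ₗ[ℂ] H) x ∈ E0 := by
    intro x hx
    change S x ∈ E0
    rw [hE0 x hx]
    exact E0.add_mem ⟨x, rfl⟩ (E0.smul_mem _ hx)
  let T : E0 →ₗ[ℂ] E0 := (S : H →ₗ[ℂ] H).restrict hmaps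
  have hTsym : T.IsSymmetric := fun u v => hSsym u.1 v.1
  let b := hTsym.eigenvectorBasis (rfl : Module.finrank ℂ E0 = Module.finrank ℂ E0)
  let ev := hTsym.eigenvalues (rfl : Module.finrank ℂ E0 = Module.finrank ℂ E0)
  have hb : Orthonormal ℂ (fun i => ((b i : E0) : H)) :=
    b.orthonormal.comp_linearIsometry E0.subtypeₗᵢ
  have hev : ∀ i, S ((b i : E0) : H) = (ev i : ℂ) • ((b i : E0) : H) := fun i =>
    congrArg Subtype.val (hTsym.apply_eigenvectorBasis rfl i)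
  refine ⟨Module.finrank ℂ E0, fun i => ((b i : E0) : H), ev, hfrE, hb, hev, ?_, ?_⟩
  · intro k
    have h1 := hSy _ (b k).2
    rw [hev k, inner_smul_left, Complex.conj_ofReal, Complex.re_ofReal_mul, hnormsq, hb.1 k] at h1
    simpa using h1
  · intro u hu
    have hperp : ∀ y : E0, ⟪(y : H), u⟫_ℂ = 0 := by
      intro y
      have h1 : (y : H) = ∑ i, b.repr y i • ((b i : E0) : H) := by
        have := congrArg Subtype.val (b.sum_repr y)
        simpa using this.symm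
      rw [h1, sum_inner]
      refine Finset.sum_eq_zero fun i _ => ?_
      rw [inner_smul_left, hu i, mul_zero]
    have hPu : P u = 0 := by
      have h1 : ⟪P u, P u⟫_ℂ = 0 := by
        rw [← hPsym]
        exact hperp ⟨P (P u), ⟨P u, rfl⟩⟩
      exact inner_self_eq_zero.1 h1
    have h1 : ‖adjoint F u‖ ^ 2 = (⟪S u, u⟫_ℂ).re := by
      have := congrArg Complex.re (adj_sq F u)
      rw [Complex.ofReal_re] at this
      exact this
    rw [h1, hSA, hPu, zero_sub, inner_add_left, inner_neg_left, inner_smul_left,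
      Complex.conj_ofReal, Complex.add_re, Complex.neg_re, Complex.re_ofReal_mul, hnormsq]
    linarith [hNpos u]

/-- The variational principle: as many eigenvalues as trial functions. -/
theorem minmax (F : H →L[ℂ] H) (s0 r : ℝ) (hr : 0 < r) (hsr : s0 < r) (n m : ℕ)
    (f : Fin n → H) (s : Fin n → ℝ)
    (hf : Orthonormal ℂ f) (hS : ∀ k, F (adjoint F (f k)) = (s k : ℂ) • f k)
    (hQ : ∀ u, (∀ k, ⟪f k, u⟫_ℂ = 0) → ‖adjoint F u‖ ^ 2 ≤ s0 * ‖u‖ ^ 2)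
    (v : Fin m → H) (hv : LinearIndependent ℂ v)
    (ht : ∀ c : Fin m → ℂ, ∃ z, F z = ∑ j, c j • v j ∧ r * ‖z‖ ^ 2 ≤ ‖F z‖ ^ 2) :
    m ≤ (Finset.univ.filter fun k => r ≤ s k).card := by
  classical
  by_contra hcon
  push Not at hcon
  set J := Finset.univ.filter fun k => r ≤ s k with hJ
  -- a nontrivial combination orthogonal to the eigenvectors in `J`
  let L : (Fin m → ℂ) →ₗ[ℂ] (J → ℂ) :=
    { toFun := fun c k => ⟪f k, ∑ j, c j • v j⟫_ℂ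
      map_add' := by
        intro c d
        funext k
        simp only [Pi.add_apply, add_smul, Finset.sum_add_distrib, inner_add_right]
      map_smul' := by
        intro a c
        funext k
        simp only [Pi.smul_apply, smul_eq_mul, RingHom.id_apply, mul_smul, ← Finset.smul_sum,
          inner_smul_right] }
  have hker : LinearMap.ker L ≠ ⊥ := by
    apply LinearMap.ker_ne_bot_of_finrank_lt
    rw [Module.finrank_fintype_fun_eq_card, Module.finrank_fintype_fun_eq_card, Fintype.card_coe,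
      Fintype.card_fin]
    exact hcon
  obtain ⟨c, hcker, hc0⟩ := (Submodule.ne_bot_iff _).1 hker
  obtain ⟨z, hz, hz2⟩ := ht c
  set u := ∑ j, c j • v j with hu
  have hu0 : u ≠ 0 := by
    intro h
    apply hc0
    rw [Fintype.linearIndependent_iff] at hv
    funext i
    exact hv c h i
  have hJu : ∀ k, r ≤ s k → ⟪f k, u⟫_ℂ = 0 := by
    intro k hk
    have h1 : L c = 0 := hcker
    exact congrFun h1 ⟨k, Finset.mem_filter.2 ⟨Finset.mem_univ _, hk⟩⟩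
  -- the bound for `S` on `u`
  let S : H →L[ℂ] H := F.comp (adjoint F)
  have hSsym : ∀ u v, ⟪S u, v⟫_ℂ = ⟪u, S v⟫_ℂ := fun u v =>
    (adjoint_inner_right F (adjoint F u) v).symm.trans (adjoint_inner_left F (adjoint F v) u)
  have hSf : ∀ k, S (f k) = (s k : ℂ) • f k := hS
  obtain ⟨p, hp'⟩ : ∃ p, p = PP f u := ⟨_, rfl⟩
  have hp : p = ∑ k, ⟪f k, u⟫_ℂ • f k := by rw [hp', PP_apply]
  obtain ⟨w, hw⟩ : ∃ w, w = u - p := ⟨_, rfl⟩
  have hfp : ∀ k, ⟪f k, p⟫_ℂ = ⟪f k, u⟫_ℂ := fun k => by rw [hp', inner_PP hf]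
  have hwf : ∀ k, ⟪f k, w⟫_ℂ = 0 := by
    intro k
    rw [hw, inner_sub_right, hfp, sub_self]
  have hpw : ⟪p, w⟫_ℂ = 0 := by
    rw [hp, sum_inner]
    exact Finset.sum_eq_zero fun k _ => by rw [inner_smul_left, hwf k, mul_zero]
  have hSp : S p = ∑ k, (⟪f k, u⟫_ℂ * (s k : ℂ)) • f k := by
    rw [hp, map_sum]
    exact Finset.sum_congr rfl fun k _ => by rw [map_smul, hSf, smul_smul]
  have hSpw : ⟪S p, w⟫_ℂ = 0 := by
    rw [hSp, sum_inner]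
    exact Finset.sum_eq_zero fun k _ => by rw [inner_smul_left, hwf k, mul_zero]
  have hSpp : ⟪S p, p⟫_ℂ = ((∑ k, s k * ‖⟪f k, u⟫_ℂ‖ ^ 2 : ℝ) : ℂ) := by
    rw [hSp, sum_inner, Complex.ofReal_sum]
    refine Finset.sum_congr rfl fun k _ => ?_
    rw [inner_smul_left, hfp, map_mul, Complex.conj_ofReal, mul_comm _ ((s k : ℝ) : ℂ), mul_assoc,
      Complex.conj_mul']
    push_cast
    rfl
  have hpp : ‖p‖ ^ 2 = ∑ k, ‖⟪f k, u⟫_ℂ‖ ^ 2 := by
    have h1 : ⟪p, p⟫_ℂ = ((∑ k, ‖⟪f k, u⟫_ℂ‖ ^ 2 : ℝ) : ℂ) := by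
      conv_lhs => rw [hp, sum_inner]
      rw [Complex.ofReal_sum]
      refine Finset.sum_congr rfl fun k _ => ?_
      rw [← hp, inner_smul_left, hfp, Complex.conj_mul']
      push_cast
      rfl
    rw [inner_self_eq_norm_sq_to_K] at h1
    have h2 : ((‖p‖ ^ 2 : ℝ) : ℂ) = ((∑ k, ‖⟪f k, u⟫_ℂ‖ ^ 2 : ℝ) : ℂ) := by
      rw [← h1]
      push_cast
      rfl
    exact Complex.ofReal_injective h2
  have huw : u = p + w := by rw [hw]; abel
  have hun : ‖u‖ ^ 2 = ‖p‖ ^ 2 + ‖w‖ ^ 2 := by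
    rw [huw, sq, sq, sq]
    exact norm_add_sq_eq_norm_sq_add_norm_sq_of_inner_eq_zero _ _ hpw
  have hSu : (⟪S u, u⟫_ℂ).re = ∑ k, s k * ‖⟪f k, u⟫_ℂ‖ ^ 2 + ‖adjoint F w‖ ^ 2 := by
    have h1 : ⟪S u, u⟫_ℂ = ⟪S p, p⟫_ℂ + ⟪S w, w⟫_ℂ := by
      have h2 : ⟪S w, p⟫_ℂ = 0 := by
        rw [hSsym, ← inner_conj_symm, hSpw, map_zero]
      conv_lhs => rw [huw, map_add, inner_add_left, inner_add_right, inner_add_right, hSpw, h2]
      ring
    have h3 : ⟪S w, w⟫_ℂ = ((‖adjoint F w‖ ^ 2 : ℝ) : ℂ) := (adj_sq F w).symm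
    rw [h1, hSpp, h3, ← Complex.ofReal_add, Complex.ofReal_re]
  -- strictly below `r ‖u‖²`
  have hterm : ∀ k, s k * ‖⟪f k, u⟫_ℂ‖ ^ 2 ≤ r * ‖⟪f k, u⟫_ℂ‖ ^ 2 ∧
      (⟪f k, u⟫_ℂ ≠ 0 → s k * ‖⟪f k, u⟫_ℂ‖ ^ 2 < r * ‖⟪f k, u⟫_ℂ‖ ^ 2) := by
    intro k
    by_cases hk : r ≤ s k
    · rw [hJu k hk]
      simp
    · push Not at hk
      refine ⟨mul_le_mul_of_nonneg_right hk.le (sq_nonneg _), fun h => ?_⟩
      have : 0 < ‖⟪f k, u⟫_ℂ‖ ^ 2 := by
        have := norm_pos_iff.2 h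
        positivity
      exact mul_lt_mul_of_pos_right hk this
  have hlt : (⟪S u, u⟫_ℂ).re < r * ‖u‖ ^ 2 := by
    rw [hSu, hun, mul_add]
    by_cases hw0 : w = 0
    · have hex : ∃ k, ⟪f k, u⟫_ℂ ≠ 0 := by
        by_contra hno
        push Not at hno
        apply hu0
        rw [huw, hw0, add_zero, hp]
        exact Finset.sum_eq_zero fun k _ => by rw [hno k, zero_smul]
      obtain ⟨k0, hk0⟩ := hex
      have h1 : ∑ k, s k * ‖⟪f k, u⟫_ℂ‖ ^ 2 < ∑ k, r * ‖⟪f k, u⟫_ℂ‖ ^ 2 :=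
        Finset.sum_lt_sum (fun k _ => (hterm k).1) ⟨k0, Finset.mem_univ _, (hterm k0).2 hk0⟩
      rw [← Finset.mul_sum, ← hpp] at h1
      rw [hw0, map_zero, norm_zero]
      linarith
    · have h1 : ∑ k, s k * ‖⟪f k, u⟫_ℂ‖ ^ 2 ≤ ∑ k, r * ‖⟪f k, u⟫_ℂ‖ ^ 2 :=
        Finset.sum_le_sum fun k _ => (hterm k).1
      rw [← Finset.mul_sum, ← hpp] at h1
      have h2 := hQ w hwf
      have h3 : 0 < ‖w‖ ^ 2 := by
        have := norm_pos_iff.2 hw0
        positivity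
      have h4 := mul_lt_mul_of_pos_right hsr h3
      linarith
  -- contradiction
  have h1 : ‖u‖ ^ 2 ≤ ‖adjoint F u‖ * ‖z‖ := by
    calc ‖u‖ ^ 2 = ‖⟪u, u⟫_ℂ‖ := by rw [inner_self_eq_norm_sq_to_K, norm_pow]; simp
      _ = ‖⟪adjoint F u, z⟫_ℂ‖ := by rw [adjoint_inner_left, hz]
      _ ≤ _ := norm_inner_le_norm _ _
  have h2 : ‖adjoint F u‖ ^ 2 = (⟪S u, u⟫_ℂ).re := by
    have := congrArg Complex.re (adj_sq F u)
    rw [Complex.ofReal_re] at this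
    exact this
  rw [hz] at hz2
  have h3 : (‖u‖ ^ 2) ^ 2 ≤ ‖adjoint F u‖ ^ 2 * ‖z‖ ^ 2 := by
    calc (‖u‖ ^ 2) ^ 2 ≤ (‖adjoint F u‖ * ‖z‖) ^ 2 := pow_le_pow_left₀ (by positivity) h1 2
      _ = _ := by ring
  have hupos : 0 < ‖u‖ ^ 2 := by
    have := norm_pos_iff.2 hu0
    positivity
  have hz0 : 0 < ‖z‖ ^ 2 := by
    rcases (sq_nonneg ‖z‖).lt_or_eq with h | h
    · exact h
    · rw [← h, mul_zero] at h3
      nlinarith
  have h4 : ‖adjoint F u‖ ^ 2 * ‖z‖ ^ 2 < (r * ‖u‖ ^ 2) * ‖z‖ ^ 2 := by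
    rw [h2]
    exact mul_lt_mul_of_pos_right hlt hz0
  have h5 : (r * ‖u‖ ^ 2) * ‖z‖ ^ 2 ≤ ‖u‖ ^ 2 * ‖u‖ ^ 2 := by
    calc (r * ‖u‖ ^ 2) * ‖z‖ ^ 2 = (r * ‖z‖ ^ 2) * ‖u‖ ^ 2 := by ring
      _ ≤ _ := mul_le_mul_of_nonneg_right hz2 hupos.le
  nlinarith

end

end Pool.Agent.V11260.CP
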