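import Pool.Agent.V11260.CP.P3

/-!
# Counting: the abstract statement
-/

namespace Pool.Agent.V11260.CP

open scoped InnerProductSpace NNReal
open ContinuousLinearMap

noncomputable section

variable {H : Type*} [NormedAddCommGroup H] [InnerProductSpace ℂ H] [CompleteSpace H]

lemma split {ι : Type*} [Fintype ι] (F : H →L[ℂ] H) (f : ι → H) (s : ι → ℝ)
    (hf : Orthonormal ℂ f) (hS : ∀ k, F (adjoint F (f k)) = (s k : ℂ) • f k) (u : H) :
    ‖u‖ ^ 2 = ∑ k, ‖⟪f k, u⟫_ℂ‖ ^ 2 + ‖QQ f u‖ ^ 2 ∧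
    ‖adjoint F u‖ ^ 2 = ∑ k, s k * ‖⟪f k, u⟫_ℂ‖ ^ 2 + ‖adjoint F (QQ f u)‖ ^ 2 := by
  let S : H →L[ℂ] H := F.comp (adjoint F)
  have hSsym : ∀ u v, ⟪S u, v⟫_ℂ = ⟪u, S v⟫_ℂ := fun u v =>
    (adjoint_inner_right F (adjoint F u) v).symm.trans (adjoint_inner_left F (adjoint F v) u)
  have hSf : ∀ k, S (f k) = (s k : ℂ) • f k := hS
  obtain ⟨p, hp'⟩ : ∃ p, p = PP f u := ⟨_, rfl⟩
  have hp : p = ∑ k, ⟪f k, u⟫_ℂ • f k := by rw [hp', PP_apply]
  obtain ⟨w, hw⟩ : ∃ w, w = QQ f u := ⟨_, rfl⟩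
  have hwp : w = u - p := by rw [hw, QQ_apply, hp']
  have hfp : ∀ k, ⟪f k, p⟫_ℂ = ⟪f k, u⟫_ℂ := fun k => by rw [hp', inner_PP hf]
  have hwf : ∀ k, ⟪f k, w⟫_ℂ = 0 := by
    intro k
    rw [hw, inner_QQ hf]
  have hpw : ⟪p, w⟫_ℂ = 0 := by
    rw [hp, sum_inner]
    exact Finset.sum_eq_zero fun k _ => by rw [inner_smul_left, hwf k, mul_zero]
  have hSp : S p = ∑ k, (⟪f k, u⟫_ℂ * (s k : ℂ)) • f k := by
    rw [hp, map_sum]
    exact Finset.sum_congr rfl fun k _ => by rw [map_smul, hSf, smul_smul]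
  have hSpw : ⟪S p, w⟫_ℂ = 0 := by
    rw [hSp, sum_inner]
    exact Finset.sum_eq_zero fun k _ => by rw [inner_smul_left, hwf k, mul_zero]
  have hSpp : ⟪S p, p⟫_ℂ = ((∑ k, s k * ‖⟪f k, u⟫_ℂ‖ ^ 2 : ℝ) : ℂ) := by
    rw [hSp, sum_inner, Complex.ofReal_sum]
    refine Finset.sum_congr rfl fun k _ => ?_
    rw [inner_smul_left, hfp, map_mul, Complex.conj_ofReal, mul_comm _ ((s k : ℝ) : ℂ), mul_assoc,
      Complex.conj_mul']
    push_cast
    rfl
  have hpp : ‖p‖ ^ 2 = ∑ k, ‖⟪f k, u⟫_ℂ‖ ^ 2 := by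
    have h1 : ⟪p, p⟫_ℂ = ((∑ k, ‖⟪f k, u⟫_ℂ‖ ^ 2 : ℝ) : ℂ) := by
      conv_lhs => rw [hp, sum_inner]
      rw [Complex.ofReal_sum]
      refine Finset.sum_congr rfl fun k _ => ?_
      rw [← hp, inner_smul_left, hfp, Complex.conj_mul']
      push_cast
      rfl
    rw [inner_self_eq_norm_sq_to_K] at h1
    have h2 : ((‖p‖ ^ 2 : ℝ) : ℂ) = ((∑ k, ‖⟪f k, u⟫_ℂ‖ ^ 2 : ℝ) : ℂ) := by
      rw [← h1]
      push_cast
      rfl
    exact Complex.ofReal_injective h2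
  have huw : u = p + w := by rw [hwp]; abel
  rw [← hw]
  constructor
  · rw [← hpp]
    conv_lhs => rw [huw, sq]
    rw [sq, sq]
    exact norm_add_sq_eq_norm_sq_add_norm_sq_of_inner_eq_zero _ _ hpw
  · have h1 : ⟪S u, u⟫_ℂ = ⟪S p, p⟫_ℂ + ⟪S w, w⟫_ℂ := by
      have h2 : ⟪S w, p⟫_ℂ = 0 := by
        rw [hSsym, ← inner_conj_symm, hSpw, map_zero]
      conv_lhs => rw [huw, map_add, inner_add_left, inner_add_right, inner_add_right, hSpw, h2]
      ring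
    have h3 : ⟪S w, w⟫_ℂ = ((‖adjoint F w‖ ^ 2 : ℝ) : ℂ) := (adj_sq F w).symm
    have h4 : ⟪S u, u⟫_ℂ = ((‖adjoint F u‖ ^ 2 : ℝ) : ℂ) := (adj_sq F u).symm
    rw [h4, hSpp, h3, ← Complex.ofReal_add] at h1
    exact Complex.ofReal_injective h1

/-- pigeonhole: an interval of length `g` without points -/
lemma exists_gap (n N : ℕ) (hn : n ≤ N) (lam : Fin n → ℝ) (μ g : ℝ) (hg : 0 < g) :
    ∃ j : Fin (N + 1), ∀ k, ¬ (μ + j * g < lam k ∧ lam k ≤ μ + (j + 1) * g) := by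
  by_contra hcon
  push Not at hcon
  choose φ hφ using hcon
  have hinj : Function.Injective φ := by
    intro i j hij
    have h1 := hφ i
    have h2 := hφ j
    rw [hij] at h1
    by_contra hne
    rcases lt_or_gt_of_ne hne with h | h
    · have h3 : ((i : ℕ) : ℝ) + 1 ≤ ((j : ℕ) : ℝ) := by exact_mod_cast h
      have h4 := mul_le_mul_of_nonneg_right h3 hg.le
      linarith [h1.2, h2.1]
    · have h3 : ((j : ℕ) : ℝ) + 1 ≤ ((i : ℕ) : ℝ) := by exact_mod_cast h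
      have h4 := mul_le_mul_of_nonneg_right h3 hg.le
      linarith [h2.2, h1.1]
  have := Fintype.card_le_of_injective φ hinj
  rw [Fintype.card_fin, Fintype.card_fin] at this
  omega

theorem count_invariant (F Γ : H →L[ℂ] H) (κ μ ε : ℝ) (Nmax m : ℕ)
    (hFn : ‖F‖ ≤ 1) (hΓs : ∀ u v, ⟪Γ u, v⟫_ℂ = ⟪u, Γ v⟫_ℂ) (hΓp : ∀ u, 0 ≤ (⟪Γ u, u⟫_ℂ).re)
    (hΓn : ∀ u, ‖Γ u‖ ≤ ‖u‖) (hκ : 0 ≤ κ) (hμ : 0 < μ) (hε : 0 ≤ ε)
    (hdim : ∀ (n : ℕ) (v : Fin n → H), Orthonormal ℂ v →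
      (∀ i, ∃ z, F z = v i ∧ ‖z‖ ^ 2 ≤ 2 * μ + 1) → n ≤ Nmax)
    (hdecay : ∀ (a : ℝ) (u : H), 0 < a → a ≤ 2 * μ + 1 → ‖u‖ = 1 →
      u = (a : ℂ) • F (adjoint F u) → ‖Γ u‖ ≤ ε)
    (v : Fin m → H) (hv : LinearIndependent ℂ v)
    (ht : ∀ c : Fin m → ℂ, ∃ z, F z = ∑ j, c j • v j ∧ ‖z‖ ^ 2 ≤ (μ + 1) * ‖F z‖ ^ 2)
    (hsmall : 8 * (Nmax + 1) ^ 2 * (1 + κ) ^ 2 * (2 * μ + 1) * ε ≤ μ) :
    ∃ (n : ℕ) (e : Fin n → H) (A : Matrix (Fin n) (Fin n) ℂ), m ≤ n ∧ LinearIndependent ℂ e ∧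
      (∀ k, e k = F (adjoint F (∑ l, A l k • e l + ((κ : ℂ) + Complex.I) • Γ (e k)))) ∧
      ∀ (E : ℂ) (w : Fin n → ℂ), w ≠ 0 → (∀ k, ∑ l, A k l * w l = E * w k) →
        ∃ x : ℝ, 1 ≤ x ∧ x ≤ 2 * μ + 1 ∧ ‖E - x‖ ≤ 1 / 4 := by
  classical
  have h2μ : 0 < 2 * μ + 1 := by linarith
  have hs0 : 0 < (2 * μ + 1)⁻¹ := inv_pos.2 h2μ
  obtain ⟨n, f, s, hnN, hf, hS, hs, hQ⟩ := spectral_low F (2 * μ + 1)⁻¹ hs0 Nmax (by
    intro n v hv h
    refine hdim n v hv fun i => ?_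
    obtain ⟨z, h1, h2⟩ := h i
    exact ⟨z, h1, by rwa [inv_inv] at h2⟩)
  have hspos : ∀ k, 0 < s k := fun k => lt_of_lt_of_le hs0 (hs k)
  set g : ℝ := μ / (Nmax + 1) with hg
  have hN1 : (0 : ℝ) < Nmax + 1 := by positivity
  have hg0 : 0 < g := div_pos hμ hN1
  obtain ⟨j, hj⟩ := exists_gap n Nmax hnN (fun k => (s k)⁻¹ - 1) μ g hg0
  set a : ℝ := μ + j * g + 1 with ha
  have hj0 : (0 : ℝ) ≤ (j : ℕ) := Nat.cast_nonneg _
  have hjN : ((j : ℕ) : ℝ) + 1 ≤ Nmax + 1 := by exact_mod_cast j.2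
  have ha1 : μ + 1 ≤ a := by
    have := mul_nonneg hj0 hg0.le
    rw [ha]; linarith
  have hag : a + g ≤ 2 * μ + 1 := by
    have h1 : (((j : ℕ) : ℝ) + 1) * g ≤ (Nmax + 1) * g := mul_le_mul_of_nonneg_right hjN hg0.le
    have h2 : ((Nmax : ℝ) + 1) * g = μ := by rw [hg]; field_simp
    rw [ha]; linarith
  have ha0 : 0 < a := by linarith
  have hgap : ∀ k, (s k)⁻¹ ≤ a ∨ a + g < (s k)⁻¹ := by
    intro k
    have h1 := hj k
    by_contra hcon
    push Not at hcon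
    exact h1 ⟨by rw [ha] at hcon; linarith [hcon.1], by rw [ha] at hcon; linarith [hcon.2]⟩
  let J : Finset (Fin n) := Finset.univ.filter fun k => (s k)⁻¹ ≤ a
  have hcardJ : J.card ≤ Nmax := by
    calc J.card ≤ Fintype.card (Fin n) := Finset.card_le_univ _
      _ = n := Fintype.card_fin n
      _ ≤ Nmax := hnN
  let τ : Fin J.card ≃ J := J.equivFin.symm
  have hτ : ∀ i, (s (τ i))⁻¹ ≤ a := fun i => (Finset.mem_filter.1 (τ i).2).2
  let f' : Fin J.card → H := fun i => f (τ i)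
  let s' : Fin J.card → ℝ := fun i => s (τ i)
  have hf' : Orthonormal ℂ f' := hf.comp _ (Subtype.val_injective.comp τ.injective)
  have hs'pos : ∀ i, 0 < s' i := fun i => hspos _
  have hsle1 : ∀ k, s k ≤ 1 := by
    intro k
    have h1 : ‖F (adjoint F (f k))‖ ≤ 1 := by
      have h2 := F.le_opNorm (adjoint F (f k))
      have h3 := (adjoint F).le_opNorm (f k)
      have h4 : ‖adjoint F‖ ≤ 1 := by rw [LinearIsometryEquiv.norm_map]; exact hFn
      rw [hf.1 k, mul_one] at h3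
      have h5 := h3.trans h4
      nlinarith [norm_nonneg (adjoint F (f k)), norm_nonneg F]
    rw [hS k, norm_smul, hf.1 k, mul_one, Complex.norm_real, Real.norm_of_nonneg (hspos k).le] at h1
    exact h1
  -- the count
  have hcount : m ≤ J.card := by
    have h1 := minmax F (2 * μ + 1)⁻¹ (μ + 1)⁻¹ (inv_pos.2 (by linarith))
      (inv_strictAnti₀ (by linarith) (by linarith)) n m f s hf hS hQ v hv (by
        intro c
        obtain ⟨z, h1, h2⟩ := ht c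
        refine ⟨z, h1, ?_⟩
        rw [inv_mul_le_iff₀ (by linarith)]
        exact h2)
    refine h1.trans (Finset.card_le_card ?_)
    intro k hk
    rw [Finset.mem_filter] at hk ⊢
    refine ⟨Finset.mem_univ _, ?_⟩
    have h2 : (s k)⁻¹ ≤ μ + 1 := by
      rw [← inv_inv (μ + 1)]
      exact inv_anti₀ (inv_pos.2 (by linarith)) hk.2
    linarith
  have hκ1 : 0 < 1 + κ := by linarith
  have hagp : 0 < a + g := by linarith
  -- the data
  let D : Data (Fin J.card) H :=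
    { F := F
      Γ := Γ
      f := f'
      s := s'
      s1 := (a + g)⁻¹
      κ := κ
      θ := g / (a + g)
      ε := ε
      hf := hf'
      hs := hs'pos
      hS := fun k => hS _
      hs1 := (inv_pos.2 hagp).le
      hQ := by
        intro u hu
        have hu' : ∀ k, (s k)⁻¹ ≤ a → ⟪f k, u⟫_ℂ = 0 := by
          intro k hk
          have h1 := hu (τ.symm ⟨k, Finset.mem_filter.2 ⟨Finset.mem_univ _, hk⟩⟩)
          change ⟪f (τ (τ.symm _)), u⟫_ℂ = 0 at h1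
          rw [Equiv.apply_symm_apply] at h1
          exact h1
        obtain ⟨h1, h2⟩ := split F f s hf hS u
        rw [h1, h2, mul_add, Finset.mul_sum]
        refine add_le_add (Finset.sum_le_sum fun k _ => ?_) ?_
        · rcases hgap k with h | h
          · rw [hu' k h]
            simp
          · refine mul_le_mul_of_nonneg_right ?_ (sq_nonneg _)
            rw [← inv_inv (s k)]
            exact inv_anti₀ hagp h.le
        · refine (hQ _ fun k => inner_QQ hf u k).trans ?_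
          exact mul_le_mul_of_nonneg_right (inv_anti₀ hagp hag) (sq_nonneg _)
      hθ := div_pos hg0 hagp
      hgap := by
        intro k
        have h1 : (s' k)⁻¹ ≤ a := hτ k
        have h2 : (s' k)⁻¹ * (a + g)⁻¹ ≤ a * (a + g)⁻¹ :=
          mul_le_mul_of_nonneg_right h1 (inv_pos.2 hagp).le
        refine h2.trans (le_of_eq ?_)
        field_simp
        ring
      hFn := hFn
      hΓs := hΓs
      hΓp := hΓp
      hΓn := hΓn
      hκ := hκ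
      hε := hε
      hΓf := by
        intro k
        refine hdecay (s' k)⁻¹ (f' k) (inv_pos.2 (hs'pos k)) ?_ (hf'.1 k) ?_
        · exact (hτ k).trans (by linarith)
        · change f' k = (((s' k)⁻¹ : ℝ) : ℂ) • F (adjoint F (f (τ k)))
          rw [hS, smul_smul, ← Complex.ofReal_mul]
          change f' k = (((s' k)⁻¹ * s' k : ℝ) : ℂ) • f' k
          rw [inv_mul_cancel₀ (hs'pos k).ne', Complex.ofReal_one, one_smul]
      hsmall := by
        rw [Fintype.card_fin]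
        have h1 : ((J.card : ℕ) : ℝ) ≤ Nmax := by exact_mod_cast hcardJ
        have h2 : g / (2 * μ + 1) ≤ g / (a + g) := div_le_div_of_nonneg_left hg0.le hagp hag
        refine le_trans ?_ h2
        rw [le_div_iff₀ h2μ, hg, le_div_iff₀ hN1]
        refine le_trans ?_ hsmall
        have h3 : 8 * ((J.card : ℕ) + 1 : ℝ) * (1 + κ) ^ 2 * ε ≤ 8 * (Nmax + 1 : ℝ) * (1 + κ) ^ 2 * ε := by
          have h4 : 0 ≤ (1 + κ) ^ 2 * ε := by positivity
          nlinarith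
        calc 8 * ((J.card : ℕ) + 1 : ℝ) * (1 + κ) ^ 2 * ε * (2 * μ + 1) * (Nmax + 1)
            ≤ 8 * (Nmax + 1 : ℝ) * (1 + κ) ^ 2 * ε * (2 * μ + 1) * (Nmax + 1) := by
              apply mul_le_mul_of_nonneg_right _ hN1.le
              exact mul_le_mul_of_nonneg_right h3 h2μ.le
          _ = _ := by ring }
  obtain ⟨e, A, he, hA, hloc⟩ := D.exists_invariant
  refine ⟨J.card, e, A, hcount, he, fun k => hA k, ?_⟩
  intro E w hw hE
  have hloc' : ∀ v : Fin J.card → ℂ, ∀ k, ‖∑ l, A k l * v l - (((s' k)⁻¹ : ℝ) : ℂ) * v k‖ ≤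
      2 * (1 + κ) * ε * ∑ l, ‖v l‖ := hloc
  obtain ⟨x, hx1, hx2, hx3⟩ := eig_loc A (fun k => (s' k)⁻¹) (2 * (1 + κ) * ε) 1 (2 * μ + 1)
    (by positivity) (fun k => by
      rw [one_le_inv₀ (hs'pos k)]
      exact hsle1 _) (fun k => (hτ k).trans (by linarith)) hloc' E w hw hE
  refine ⟨x, hx1, hx2, hx3.trans ?_⟩
  rw [Fintype.card_fin]
  have h1 : ((J.card : ℕ) : ℝ) ≤ Nmax := by exact_mod_cast hcardJ
  have h3 : (0 : ℝ) ≤ Nmax := Nat.cast_nonneg _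
  have h5 : 2 * (1 + κ) * ε * (J.card : ℕ) ≤ 2 * (1 + κ) * ε * (Nmax + 1) := by
    apply mul_le_mul_of_nonneg_left (by linarith) (by positivity)
  refine h5.trans ?_
  -- `8 (N+1)^2 (1+κ)^2 (2μ+1) ε ≤ μ`
  have h6 : 8 * ((Nmax : ℝ) + 1) * (1 + κ) * (2 * μ) * ε ≤
      8 * (Nmax + 1) ^ 2 * (1 + κ) ^ 2 * (2 * μ + 1) * ε := by
    apply mul_le_mul_of_nonneg_right _ hε
    apply mul_le_mul _ (by linarith) (by positivity) (by positivity)
    have e1 : ((Nmax : ℝ) + 1) ≤ (Nmax + 1) ^ 2 := by nlinarith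
    have e2 : (1 + κ) ≤ (1 + κ) ^ 2 := by nlinarith
    calc 8 * ((Nmax : ℝ) + 1) * (1 + κ) ≤ 8 * (Nmax + 1) ^ 2 * (1 + κ) := by
          apply mul_le_mul_of_nonneg_right _ hκ1.le
          linarith
      _ ≤ _ := mul_le_mul_of_nonneg_left e2 (by positivity)
  have h7 : (16 * ((Nmax : ℝ) + 1) * (1 + κ) * ε) * μ ≤ 1 * μ := by
    have := h6.trans hsmall
    nlinarith
  have h8 := le_of_mul_le_mul_right h7 hμ
  nlinarith

end

end Pool.Agent.V11260.CP
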