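import Pool.Agent.Helper41.CE.CU02
import Pool.Agent.Helper209.CX.K31

/-!
# The Fourier multiplier `(1 - h² Δ)^{-1/2}` and `H¹`
-/

namespace Pool.Agent.V11260.CP

open MeasureTheory FourierTransform
open scoped InnerProductSpace ENNReal
open Pool.Agent.Helper41.CE (mulop FT Fm BM mulop_spec Fm_apply Fm_inner Fm_norm)
open Pool.Agent.Helper209.CX (Ed L2d InH1 dirichlet)

noncomputable section

variable {d : ℕ}

/-- the symbol of `-Δ` -/
def lam (ξ : Ed d) : ℝ := (2 * Real.pi * ‖ξ‖) ^ 2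

lemma lam_nonneg (ξ : Ed d) : 0 ≤ lam ξ := sq_nonneg _

lemma lam_meas : Measurable (lam : Ed d → ℝ) := by unfold lam; fun_prop

/-- the symbol of `(1 - h² Δ)^{-1/2}` -/
def m0 (h : ℝ) (ξ : Ed d) : ℝ := (√(1 + h ^ 2 * lam ξ))⁻¹

lemma m0_pos (h : ℝ) (ξ : Ed d) : 0 < m0 h ξ := by
  have := lam_nonneg ξ
  unfold m0
  positivity

lemma m0_le (h : ℝ) (ξ : Ed d) : m0 h ξ ≤ 1 := by
  unfold m0
  apply inv_le_one_of_one_le₀
  rw [Real.one_le_sqrt]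
  have := lam_nonneg ξ
  have : 0 ≤ h ^ 2 * lam ξ := by positivity
  linarith

lemma m0_sq (h : ℝ) (ξ : Ed d) : (1 + h ^ 2 * lam ξ) * m0 h ξ ^ 2 = 1 := by
  have := lam_nonneg ξ
  unfold m0
  rw [inv_pow, Real.sq_sqrt (by positivity), mul_inv_cancel₀ (by positivity)]

lemma m0_meas (h : ℝ) : Measurable (m0 h : Ed d → ℝ) := by
  unfold m0 lam; fun_prop

lemma m0_BM (h : ℝ) : BM (fun ξ : Ed d => (m0 h ξ : ℂ)) :=
  ⟨Complex.measurable_ofReal.comp (m0_meas h), 1, fun ξ => by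
    rw [Complex.norm_real, Real.norm_of_nonneg (m0_pos h ξ).le]; exact m0_le h ξ⟩

/-- `(1 - h² Δ)^{-1/2}` -/
def R0 (h : ℝ) : L2d d →L[ℂ] L2d d := Fm (fun ξ => (m0 h ξ : ℂ))

lemma R0_sym (h : ℝ) (u v : L2d d) : ⟪R0 h u, v⟫_ℂ = ⟪u, R0 h v⟫_ℂ := by
  unfold R0
  rw [Fm_inner (m0_BM h)]
  simp only [Complex.conj_ofReal]

lemma R0_norm (h : ℝ) (u : L2d d) : ‖R0 h u‖ ≤ ‖u‖ := by
  have h1 := Fm_norm (m0_BM (d := d) h) 1 fun ξ => by
    rw [Complex.norm_real, Real.norm_of_nonneg (m0_pos h ξ).le]; exact m0_le h ξ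
  have h2 := (R0 h).le_opNorm u
  unfold R0 at *
  nlinarith [norm_nonneg u]

lemma FR0 (h : ℝ) (u : L2d d) :
    (𝓕 (R0 h u) : L2d d) =ᵐ[volume] fun ξ => (m0 h ξ : ℂ) * (𝓕 u : L2d d) ξ := by
  have h1 : (𝓕 (R0 h u) : L2d d) = mulop (fun ξ => (m0 h ξ : ℂ)) (𝓕 u : L2d d) :=
    Fm_apply (fun ξ => (m0 h ξ : ℂ)) u
  rw [h1]
  exact mulop_spec (m0_BM h) _

lemma R0_H1 {h : ℝ} (hh : 0 < h) (u : L2d d) : InH1 (R0 h u) := by
  unfold InH1
  refine MemLp.of_le_mul (c := h⁻¹) (Lp.memLp (𝓕 u : L2d d)) ?_ ?_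
  · refine AEStronglyMeasurable.mul ?_ (Lp.aestronglyMeasurable (𝓕 (R0 h u) : L2d d))
    exact Continuous.aestronglyMeasurable (by fun_prop)
  · filter_upwards [FR0 h u] with ξ hξ
    rw [hξ, norm_mul, norm_mul, Complex.norm_real, norm_norm, Complex.norm_real,
      Real.norm_of_nonneg (m0_pos h ξ).le, ← mul_assoc]
    refine mul_le_mul_of_nonneg_right ?_ (norm_nonneg _)
    have h1 := m0_sq h ξ
    have h0 := m0_pos h ξ
    have h2 : (‖ξ‖ * m0 h ξ) ^ 2 ≤ (h⁻¹) ^ 2 := by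
      have h3 : ‖ξ‖ ^ 2 ≤ lam ξ := by
        unfold lam
        apply pow_le_pow_left₀ (norm_nonneg _)
        have := Real.pi_gt_three
        nlinarith [norm_nonneg ξ]
      have h4 : h ^ 2 * lam ξ * m0 h ξ ^ 2 ≤ 1 := by nlinarith [sq_nonneg (m0 h ξ)]
      have h5 : h ^ 2 * (‖ξ‖ ^ 2 * m0 h ξ ^ 2) ≤ 1 := by
        refine le_trans ?_ h4
        have : ‖ξ‖ ^ 2 * m0 h ξ ^ 2 ≤ lam ξ * m0 h ξ ^ 2 :=
          mul_le_mul_of_nonneg_right h3 (sq_nonneg _)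
        nlinarith [sq_nonneg h]
      rw [mul_pow, inv_pow]
      rw [← one_div, le_div_iff₀ (by positivity)]
      linarith
    exact le_of_sq_le_sq h2 (by positivity) |> fun h => h

lemma R0_surj (h : ℝ) (u : L2d d) (hu : InH1 u) : ∃ y, R0 h y = u := by
  have h1 : MemLp (fun ξ : Ed d => ((m0 h ξ : ℂ))⁻¹ * (𝓕 u : L2d d) ξ) 2 volume := by
    have hsum : MemLp (fun ξ : Ed d => ‖(𝓕 u : L2d d) ξ‖ +
        (2 * Real.pi * |h|) * ‖(‖ξ‖ : ℂ) * (𝓕 u : L2d d) ξ‖) 2 volume :=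
      (Lp.memLp (𝓕 u : L2d d)).norm.add (hu.norm.const_mul _)
    refine MemLp.of_le hsum ?_ ?_
    · exact ((Complex.measurable_ofReal.comp (m0_meas h)).inv.aestronglyMeasurable).mul
        (Lp.aestronglyMeasurable _)
    · refine Filter.Eventually.of_forall fun ξ => ?_
      rw [norm_mul, norm_inv, Complex.norm_real, Real.norm_of_nonneg (m0_pos h ξ).le, norm_mul,
        Complex.norm_real, norm_norm, Real.norm_of_nonneg (by positivity)]
      have h2 : (m0 h ξ)⁻¹ ≤ 1 + 2 * Real.pi * |h| * ‖ξ‖ := by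
        unfold m0
        rw [inv_inv, Real.sqrt_le_left (by positivity)]
        unfold lam
        have h3 : 0 ≤ 2 * Real.pi * |h| * ‖ξ‖ := by positivity
        have h4 : h ^ 2 * (2 * Real.pi * ‖ξ‖) ^ 2 = (2 * Real.pi * |h| * ‖ξ‖) ^ 2 := by
          rw [← sq_abs h]; ring
        rw [h4]
        nlinarith
      calc (m0 h ξ)⁻¹ * ‖(𝓕 u : L2d d) ξ‖ ≤ (1 + 2 * Real.pi * |h| * ‖ξ‖) * ‖(𝓕 u : L2d d) ξ‖ :=
            mul_le_mul_of_nonneg_right h2 (norm_nonneg _)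
        _ = _ := by ring
  refine ⟨(FT d).symm (h1.toLp _), ?_⟩
  apply (FT d).injective
  have h2 : FT d (R0 h ((FT d).symm (h1.toLp _))) =
      mulop (fun ξ => (m0 h ξ : ℂ)) (FT d ((FT d).symm (h1.toLp _))) := Fm_apply _ _
  rw [h2, LinearIsometryEquiv.apply_symm_apply]
  apply Lp.ext
  filter_upwards [mulop_spec (m0_BM h) (h1.toLp _), h1.coeFn_toLp] with ξ h3 h4
  rw [h3, h4, ← mul_assoc, mul_inv_cancel₀, one_mul]
  · rfl
  · exact_mod_cast (m0_pos h ξ).ne'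

/-- inner products through the Fourier transform -/
lemma inner_eq_F (u v : L2d d) :
    ⟪u, v⟫_ℂ = ∫ ξ, (starRingEnd ℂ) ((𝓕 u : L2d d) ξ) * (𝓕 v : L2d d) ξ := by
  rw [← Lp.inner_fourier_eq, L2.inner_def]
  refine integral_congr_ae (Filter.Eventually.of_forall fun ξ => ?_)
  simp only [RCLike.inner_apply]
  ring

lemma int_F (u v : L2d d) :
    Integrable (fun ξ => (starRingEnd ℂ) ((𝓕 u : L2d d) ξ) * (𝓕 v : L2d d) ξ) volume := by
  have := L2.integrable_inner (𝕜 := ℂ) (𝓕 u : L2d d) (𝓕 v : L2d d)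
  refine this.congr (Filter.Eventually.of_forall fun ξ => ?_)
  simp only [RCLike.inner_apply]
  ring

/-- `h² ∫ ∇u · conj ∇φ + ∫ u conj φ = ⟨ψ, y⟩` for `u = R₀ y`, `φ = R₀ ψ` -/
lemma form_R0 {h : ℝ} (hh : 0 < h) (y ψ : L2d d) :
    ((h ^ 2 : ℝ) : ℂ) * dirichlet (R0 h y) (R0 h ψ) + ⟪R0 h ψ, R0 h y⟫_ℂ = ⟪ψ, y⟫_ℂ := by
  rw [inner_eq_F, inner_eq_F]
  unfold dirichlet
  rw [← integral_const_mul, ← integral_add]
  · refine integral_congr_ae ?_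
    filter_upwards [FR0 h y, FR0 h ψ] with ξ h1 h2
    rw [h1, h2]
    have h3 := m0_sq h ξ
    have h4 : (1 + (h ^ 2 : ℂ) * (lam ξ : ℂ)) * (m0 h ξ : ℂ) ^ 2 = 1 := by exact_mod_cast h3
    unfold lam at h4
    simp only [map_mul, Complex.conj_ofReal]
    push_cast at h4 ⊢
    linear_combination ((𝓕 y : L2d d) ξ * (starRingEnd ℂ) ((𝓕 ψ : L2d d) ξ)) * h4
  · exact (Pool.Agent.Helper209.CX.K31.isHu_zero_int _ _ (R0_H1 hh y) (R0_H1 hh ψ)).const_mul _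
  · exact int_F _ _

/-- the energy `∫ |∇u|²` -/
def en (u : L2d d) : ℝ := ∫ ξ, lam ξ * ‖(𝓕 u : L2d d) ξ‖ ^ 2

lemma en_int {u : L2d d} (hu : InH1 u) :
    Integrable (fun ξ => lam ξ * ‖(𝓕 u : L2d d) ξ‖ ^ 2) volume := by
  have h1 := (memLp_two_iff_integrable_sq_norm hu.1).1 hu
  refine (h1.const_mul ((2 * Real.pi) ^ 2)).congr (Filter.Eventually.of_forall fun ξ => ?_)
  simp only [norm_mul, Complex.norm_real, norm_norm]
  unfold lam
  ring

lemma dirichlet_self (u : L2d d) : dirichlet u u = ((en u : ℝ) : ℂ) := by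
  unfold dirichlet en
  rw [← integral_complex_ofReal]
  refine integral_congr_ae (Filter.Eventually.of_forall fun ξ => ?_)
  simp only
  rw [mul_assoc, Complex.mul_conj']
  unfold lam
  push_cast
  rfl

lemma en_nonneg (u : L2d d) : 0 ≤ en u :=
  integral_nonneg fun ξ => mul_nonneg (lam_nonneg ξ) (sq_nonneg _)

end

end Pool.Agent.V11260.CP
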