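import Pool.Agent.V11260.CP.Q5

/-!
# Exponential decay: iteration
-/

namespace Pool.Agent.V11260.CP

open MeasureTheory FourierTransform Filter Topology
open scoped InnerProductSpace ENNReal NNReal
open ContinuousLinearMap
open Pool.Agent.Helper209.CX (Ed L2d InH1 dirichlet)

noncomputable section

variable {d : ℕ}

/-- the radial cut-off between `r` and `r + s` -/
def rcut (r s : ℝ) (hs : 0 < s) : Cut d where
  f := fun x => max 0 (min 1 ((‖x‖ - r) / s))
  meas := by fun_prop
  nonneg := fun x => le_max_left _ _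
  le := fun x => max_le zero_le_one (min_le_left _ _)
  l := 1 / s
  hl := by positivity
  lip := by
    intro x y
    have h1 : |max 0 (min 1 ((‖x‖ - r) / s)) - max 0 (min 1 ((‖y‖ - r) / s))| ≤
        |min 1 ((‖x‖ - r) / s) - min 1 ((‖y‖ - r) / s)| := by
      have := abs_max_sub_max_le_max (0 : ℝ) (min 1 ((‖x‖ - r) / s)) 0 (min 1 ((‖y‖ - r) / s))
      simpa using this
    have h2 : |min 1 ((‖x‖ - r) / s) - min 1 ((‖y‖ - r) / s)| ≤
        |(‖x‖ - r) / s - (‖y‖ - r) / s| := by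
      have := abs_min_sub_min_le_max (1 : ℝ) ((‖x‖ - r) / s) 1 ((‖y‖ - r) / s)
      simpa using this
    refine (h1.trans h2).trans ?_
    have h3 : (‖x‖ - r) / s - (‖y‖ - r) / s = (1 / s) * (‖x‖ - ‖y‖) := by field_simp; ring
    rw [h3, abs_mul, abs_of_pos (by positivity : 0 < 1 / s)]
    exact mul_le_mul_of_nonneg_left (abs_norm_sub_norm_le x y) (by positivity)

lemma rcut_zero {r s : ℝ} (hs : 0 < s) {x : Ed d} (hx : ‖x‖ ≤ r) : (rcut r s hs).f x = 0 := by
  change max 0 (min 1 ((‖x‖ - r) / s)) = 0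
  apply max_eq_left
  exact (min_le_right _ _).trans (div_nonpos_of_nonpos_of_nonneg (by linarith) hs.le)

lemma rcut_one {r s : ℝ} (hs : 0 < s) {x : Ed d} (hx : r + s ≤ ‖x‖) : (rcut r s hs).f x = 1 := by
  change max 0 (min 1 ((‖x‖ - r) / s)) = 1
  have h1 : 1 ≤ (‖x‖ - r) / s := by rw [le_div_iff₀ hs]; linarith
  rw [min_eq_left h1]
  norm_num

lemma U_large {κ : ℝ} (hκ : 0 < κ) (x : Ed d) (hx : 1 - Real.exp (-κ) ≤ ‖x‖) :
    κ ≤ WW x + κ * chi x := by
  by_cases h : ‖x‖ < 1
  · have h1 : κ ≤ WW x := by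
      unfold WW
      rw [if_pos h]
      have h2 : Real.log (1 - ‖x‖) ≤ Real.log (Real.exp (-κ)) :=
        Real.log_le_log (by linarith) (by linarith)
      rw [Real.log_exp] at h2
      linarith
    have := mul_nonneg hκ.le (chi_nonneg x)
    linarith
  · have h1 : chi x = 1 := by unfold chi; rw [if_pos (not_lt.1 h)]
    rw [h1]
    linarith [WW_nonneg x]

/-- the decay of the eigenfunctions -/
theorem decay {h κ : ℝ} (hκ : 0 < κ) (w : Weight d) (hw : ∀ x, w.U x = WW x + κ * chi x)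
    (F : L2d d →L[ℂ] L2d d) (hF1 : ∀ z, InH1 (F z))
    (hF : ∀ v φ, InH1 φ → ((h ^ 2 : ℝ) : ℂ) * dirichlet (F (adjoint F v)) φ +
      (∫ x, ((w.U x : ℝ) : ℂ) * (F (adjoint F v)) x * (starRingEnd ℂ) (φ x)) +
      ⟪φ, F (adjoint F v)⟫_ℂ = ⟪φ, v⟫_ℂ)
    (a : ℝ) (ha : a ≤ κ / 2 + 1) (M : ℕ) (hM : 0 < M)
    (hq : 72 * d * M ^ 2 * h ^ 2 ≤ Real.exp (-κ) ^ 2 * κ)
    (u : L2d d) (hu1 : ‖u‖ = 1) (hu : u = (a : ℂ) • F (adjoint F u)) :
    ‖Gam d u‖ ≤ (1 / 2) ^ M := by
  set w0 := Real.exp (-κ) with hw0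
  have hw0p : 0 < w0 := Real.exp_pos _
  have hMr : (0 : ℝ) < M := by exact_mod_cast hM
  set s := w0 / (3 * M) with hs
  have hsp : 0 < s := by positivity
  have h3s : 3 * s * M = w0 := by rw [hs]; field_simp
  have key : ∀ j : ℕ, ‖mr (ind (1 - w0 + j * (3 * s))) u‖ ^ 2 ≤ (1 / 4) ^ j := by
    intro j
    induction j with
    | zero =>
      have h1 := mr_norm (ind_meas (1 - w0 + (0 : ℕ) * (3 * s))) 1 (ind_abs _) u
      rw [hu1, mul_one] at h1
      have h2 := pow_le_pow_left₀ (norm_nonneg _) h1 2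
      simpa using h2
    | succ j ih =>
      set r := 1 - w0 + j * (3 * s) with hr
      have hr0 : 1 - w0 ≤ r := by
        have : (0 : ℝ) ≤ j * (3 * s) := by positivity
        rw [hr]; linarith
      let c : Cut d := rcut (r + s) s hsp
      have h1 := decay_step w F hF1 hF a κ u hu c r s hsp (by
        intro x y hxy hne
        have hxy' : ‖y‖ ≤ ‖x‖ + s := by
          have := norm_sub_norm_le y x
          rw [norm_sub_rev] at this
          linarith
        have hyx' : ‖x‖ ≤ ‖y‖ + s := by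
          have := norm_sub_norm_le x y
          linarith
        constructor
        · by_contra hcon
          push Not at hcon
          apply hne
          rw [rcut_zero hsp (by linarith : ‖x‖ ≤ r + s), rcut_zero hsp (by linarith : ‖y‖ ≤ r + s)]
        · by_contra hcon
          push Not at hcon
          apply hne
          rw [rcut_zero hsp (by linarith : ‖x‖ ≤ r + s), rcut_zero hsp (by linarith : ‖y‖ ≤ r + s)])
        (by
          intro x hx
          rw [hw]
          apply U_large hκ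
          by_contra hcon
          push Not at hcon
          exact hx (rcut_zero hsp (by linarith)))
      have h2 : ‖mr (ind (1 - w0 + ((j + 1 : ℕ) : ℝ) * (3 * s))) u‖ ^ 2 ≤ ‖mr c.f u‖ ^ 2 := by
        rw [norm_sq_int, norm_sq_int]
        refine integral_mono_ae (sq_integrable _) (sq_integrable _) ?_
        filter_upwards [mr_spec (ind_meas (1 - w0 + ((j + 1 : ℕ) : ℝ) * (3 * s))) 1 (ind_abs _) u,
          mr_spec c.meas 1 c.abs_le u] with x e1 e2
        rw [e1, e2]
        refine pow_le_pow_left₀ (norm_nonneg _) ?_ 2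
        rw [norm_mul, norm_mul, Complex.norm_real, Complex.norm_real,
          Real.norm_of_nonneg (ind_nonneg _ x), Real.norm_of_nonneg (c.nonneg x)]
        refine mul_le_mul_of_nonneg_right ?_ (norm_nonneg _)
        by_cases hx : 1 - w0 + ((j + 1 : ℕ) : ℝ) * (3 * s) ≤ ‖x‖
        · have : c.f x = 1 := rcut_one hsp (by rw [hr]; push_cast at hx; linarith)
          rw [this]
          exact ind_le _ x
        · unfold ind
          rw [if_neg hx]
          exact c.nonneg x
      have h3 : κ / 2 * ‖mr c.f u‖ ^ 2 ≤ (κ + 1 - a) * ‖mr c.f u‖ ^ 2 :=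
        mul_le_mul_of_nonneg_right (by linarith) (sq_nonneg _)
      have hcl : c.l = 1 / s := rfl
      have h4 : h ^ 2 * (d * c.l ^ 2) ≤ κ / 8 := by
        rw [hcl, hs]
        have e : h ^ 2 * (d * (1 / (w0 / (3 * M))) ^ 2) = (9 * d * M ^ 2 * h ^ 2) / w0 ^ 2 := by
          field_simp
          ring
        rw [e, div_le_iff₀ (by positivity)]
        linarith
      have h5 : h ^ 2 * (d * c.l ^ 2) * ‖mr (ind r) u‖ ^ 2 ≤ κ / 8 * ‖mr (ind r) u‖ ^ 2 :=
        mul_le_mul_of_nonneg_right h4 (sq_nonneg _)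
      have h6 : ‖mr c.f u‖ ^ 2 ≤ 1 / 4 * ‖mr (ind r) u‖ ^ 2 := by nlinarith
      have h7 : ((1 : ℝ) / 4) ^ (j + 1) = (1 / 4) ^ j * (1 / 4) := pow_succ _ _
      rw [h7]
      linarith
  have h1 := key M
  have h2 : 1 - w0 + M * (3 * s) = 1 := by linarith
  rw [h2] at h1
  have h3 : Gam d u = mr (ind 1) u := rfl
  rw [h3]
  have h4 : ‖mr (ind 1) u‖ ^ 2 ≤ ((1 / 2 : ℝ) ^ M) ^ 2 := by
    refine h1.trans (le_of_eq ?_)
    rw [← pow_mul, mul_comm M 2, pow_mul]
    norm_num
  exact le_of_sq_le_sq h4 (by positivity)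

end

end Pool.Agent.V11260.CP
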