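import Pool.Agent.V11260.CP.Q5

/-!
# The number of low eigenfunctions is bounded by a power of `1/h`
-/

namespace Pool.Agent.V11260.CP

open MeasureTheory FourierTransform Filter Topology
open scoped InnerProductSpace ENNReal NNReal
open ContinuousLinearMap
open Pool.Agent.Helper209.CX (Ed L2d InH1 dirichlet)

noncomputable section

variable {d : ℕ}

/-- the indicator function of the unit ball times a plane wave -/
def pw (ξ x : Ed d) : ℂ := ((1 - chi x : ℝ) : ℂ) *
  Complex.exp (2 * Real.pi * Complex.I * ((inner ℝ x ξ : ℝ) : ℂ))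

lemma one_sub_chi (x : Ed d) : 1 - chi x = (Metric.ball (0 : Ed d) 1).indicator (fun _ => (1 : ℝ)) x := by
  unfold chi
  by_cases h : 1 ≤ ‖x‖
  · rw [if_pos h, Set.indicator_of_notMem (by simpa using h)]; norm_num
  · rw [if_neg h, Set.indicator_of_mem (by simpa using h)]; norm_num

lemma pw_norm (ξ x : Ed d) : ‖pw ξ x‖ = 1 - chi x := by
  unfold pw
  rw [norm_mul, Complex.norm_real, Real.norm_of_nonneg (by linarith [chi_le x])]
  have : (2 * Real.pi * Complex.I * ((inner ℝ x ξ : ℝ) : ℂ)) =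
      ((2 * Real.pi * inner ℝ x ξ : ℝ) : ℂ) * Complex.I := by push_cast; ring
  rw [this, Complex.norm_exp_ofReal_mul_I, mul_one]

lemma pw_meas (ξ : Ed d) : Measurable (pw ξ) := by
  unfold pw
  refine Measurable.mul ?_ (by fun_prop)
  exact Complex.measurable_ofReal.comp (measurable_const.sub chi_meas)

lemma chi_int : Integrable (fun x : Ed d => (1 - chi x) ^ 2) volume := by
  have h1 : (fun x : Ed d => (1 - chi x) ^ 2) =
      (Metric.ball (0 : Ed d) 1).indicator (fun _ => (1 : ℝ)) := by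
    funext x
    rw [one_sub_chi]
    by_cases h : x ∈ Metric.ball (0 : Ed d) 1
    · rw [Set.indicator_of_mem h]; norm_num
    · rw [Set.indicator_of_notMem h]; norm_num
  rw [h1]
  exact (integrable_indicator_iff measurableSet_ball).2
    (integrableOn_const (by exact measure_ball_lt_top.ne))

lemma chi_integral : ∫ x : Ed d, (1 - chi x) ^ 2 = volume.real (Metric.ball (0 : Ed d) 1) := by
  have h1 : (fun x : Ed d => (1 - chi x) ^ 2) =
      (Metric.ball (0 : Ed d) 1).indicator (fun _ => (1 : ℝ)) := by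
    funext x
    rw [one_sub_chi]
    by_cases h : x ∈ Metric.ball (0 : Ed d) 1
    · rw [Set.indicator_of_mem h]; norm_num
    · rw [Set.indicator_of_notMem h]; norm_num
  rw [h1, integral_indicator measurableSet_ball]
  simp

lemma pw_memLp (ξ : Ed d) : MemLp (pw ξ) 2 volume := by
  rw [memLp_two_iff_integrable_sq_norm (pw_meas ξ).aestronglyMeasurable]
  refine chi_int.congr (Filter.Eventually.of_forall fun x => ?_)
  simp only [pw_norm]

/-- the plane wave cut off to the unit ball -/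
def PW (ξ : Ed d) : L2d d := (pw_memLp ξ).toLp _

lemma PW_norm (ξ : Ed d) : ‖PW ξ‖ ^ 2 = volume.real (Metric.ball (0 : Ed d) 1) := by
  rw [norm_sq_int, ← chi_integral]
  refine integral_congr_ae ?_
  filter_upwards [(pw_memLp ξ).coeFn_toLp] with x hx
  have : (PW ξ : Ed d → ℂ) x = pw ξ x := hx
  rw [this, pw_norm]

lemma cut_memLp (v : L2d d) : MemLp (fun x => ((1 - chi x : ℝ) : ℂ) * v x) 2 volume := by
  refine MemLp.of_le (Lp.memLp v) ?_ (Filter.Eventually.of_forall fun x => ?_)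
  · exact (Complex.measurable_ofReal.comp (measurable_const.sub chi_meas)).aestronglyMeasurable.mul
      (Lp.aestronglyMeasurable v)
  · rw [norm_mul, Complex.norm_real, Real.norm_of_nonneg (by linarith [chi_le x])]
    have := mul_le_mul_of_nonneg_right (by linarith [chi_nonneg x] : 1 - chi x ≤ 1)
      (norm_nonneg (v x))
    linarith

lemma cut_int (v : L2d d) : Integrable (fun x => ((1 - chi x : ℝ) : ℂ) * v x) volume := by
  have h1 : MemLp (fun x : Ed d => ((1 - chi x : ℝ) : ℂ)) 2 volume := by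
    have hm : AEStronglyMeasurable (fun x : Ed d => ((1 - chi x : ℝ) : ℂ)) volume :=
      (Complex.measurable_ofReal.comp (measurable_const.sub chi_meas)).aestronglyMeasurable
    rw [memLp_two_iff_integrable_sq_norm hm]
    refine chi_int.congr (Filter.Eventually.of_forall fun x => ?_)
    simp only
    rw [Complex.norm_real, Real.norm_of_nonneg (by linarith [chi_le x])]
  exact MemLp.integrable_mul h1 (Lp.memLp v)

/-- `1_B v` -/
def gc (v : L2d d) : L2d d := (cut_memLp v).toLp _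

lemma gc_spec (v : L2d d) : (gc v : Ed d → ℂ) =ᵐ[volume] fun x => ((1 - chi x : ℝ) : ℂ) * v x :=
  (cut_memLp v).coeFn_toLp

lemma F_gc (v : L2d d) : (𝓕 (gc v) : L2d d) =ᵐ[volume] fun ξ => ⟪PW ξ, v⟫_ℂ := by
  filter_upwards [Pool.Agent.Helper209.CX.K01.d1_fourier d _ (cut_int v) (cut_memLp v)] with ξ hξ
  have h1 : (𝓕 (gc v) : L2d d) ξ = ∫ x : Ed d,
      Complex.exp (-(2 * Real.pi * Complex.I * ((inner ℝ x ξ : ℝ) : ℂ))) *
        (((1 - chi x : ℝ) : ℂ) * v x) := hξ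
  rw [h1, L2.inner_def]
  refine integral_congr_ae ?_
  filter_upwards [(pw_memLp ξ).coeFn_toLp] with x hx
  have h2 : (PW ξ : Ed d → ℂ) x = pw ξ x := hx
  rw [h2]
  simp only [RCLike.inner_apply]
  unfold pw
  rw [map_mul, Complex.conj_ofReal, ← Complex.exp_conj]
  have h3 : (starRingEnd ℂ) (2 * Real.pi * Complex.I * ((inner ℝ x ξ : ℝ) : ℂ)) =
      -(2 * Real.pi * Complex.I * ((inner ℝ x ξ : ℝ) : ℂ)) := by
    simp only [map_mul, Complex.conj_ofReal, Complex.conj_I, map_ofNat]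
    ring
  rw [h3]
  ring

lemma F_norm_sq (u : L2d d) : ∫ ξ, ‖(𝓕 u : L2d d) ξ‖ ^ 2 = ‖u‖ ^ 2 := by
  rw [← norm_sq_int]
  congr 1
  exact (Pool.Agent.Helper41.CE.FT d).norm_map u

/-- one function -/
lemma one_bound {h μ K : ℝ} (hh : 0 < h) (hμ : 0 < μ) (hK : 0 < K)
    (hKμ : 32 * μ ≤ (2 * Real.pi * K) ^ 2 * h ^ 2) (v : L2d d) (hv : ‖v‖ = 1) (hH : InH1 v)
    (hen : h ^ 2 * en v ≤ 2 * μ) (hG : ‖Gam d v‖ ^ 2 ≤ 1 / 4) :
    1 / 4 ≤ ∫ ξ in Metric.closedBall (0 : Ed d) K, ‖⟪PW ξ, v⟫_ℂ‖ ^ 2 := by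
  set g := gc v with hg
  have hgn : ‖g‖ ^ 2 ≤ 1 := by
    rw [norm_sq_int, ← one_pow 2, ← hv, norm_sq_int v]
    refine integral_mono_ae (sq_integrable _) (sq_integrable _) ?_
    filter_upwards [gc_spec v] with x hx
    rw [hg, hx, norm_mul, Complex.norm_real, Real.norm_of_nonneg (by linarith [chi_le x])]
    refine pow_le_pow_left₀ (mul_nonneg (by linarith [chi_le x]) (norm_nonneg _)) ?_ 2
    have := mul_le_mul_of_nonneg_right (by linarith [chi_nonneg x] : 1 - chi x ≤ 1)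
      (norm_nonneg (v x))
    linarith
  have hgv : 3 / 4 ≤ ‖⟪g, v⟫_ℂ‖ := by
    have h1 : ⟪g, v⟫_ℂ = ((∫ x, (1 - chi x) * ‖v x‖ ^ 2 : ℝ) : ℂ) := by
      rw [L2.inner_def, ← integral_complex_ofReal]
      refine integral_congr_ae ?_
      filter_upwards [gc_spec v] with x hx
      rw [hg, hx]
      simp only [RCLike.inner_apply, map_mul, Complex.conj_ofReal]
      have := Complex.mul_conj' (v x)
      push_cast
      linear_combination (1 - ((chi x : ℝ) : ℂ)) * this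
    have hGi : ‖Gam d v‖ ^ 2 = ∫ x, chi x * ‖v x‖ ^ 2 := by
      rw [norm_sq_int]
      refine integral_congr_ae ?_
      filter_upwards [Gam_spec v] with x hx
      rw [hx, norm_mul, Complex.norm_real, Real.norm_of_nonneg (chi_nonneg x), mul_pow, sq (chi x),
        chi_sq]
    have hci : Integrable (fun x => chi x * ‖v x‖ ^ 2) volume := by
      refine (sq_integrable v).bdd_mul (c := 1) chi_meas.aestronglyMeasurable
        (Filter.Eventually.of_forall fun x => ?_)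
      rw [Real.norm_of_nonneg (chi_nonneg x)]
      exact chi_le x
    have h2 : ∫ x, (1 - chi x) * ‖v x‖ ^ 2 = ‖v‖ ^ 2 - ‖Gam d v‖ ^ 2 := by
      rw [hGi, norm_sq_int v, ← integral_sub (sq_integrable v) hci]
      refine integral_congr_ae (Filter.Eventually.of_forall fun x => ?_)
      simp only
      ring
    rw [h1, Complex.norm_real, h2, hv, Real.norm_eq_abs]
    refine le_trans ?_ (le_abs_self _)
    linarith
  have h3 : ‖⟪g, v⟫_ℂ‖ ≤ ∫ ξ, ‖(𝓕 g : L2d d) ξ‖ * ‖(𝓕 v : L2d d) ξ‖ := by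
    rw [inner_eq_F]
    refine (norm_integral_le_integral_norm _).trans (le_of_eq ?_)
    refine integral_congr_ae (Filter.Eventually.of_forall fun ξ => ?_)
    simp only
    rw [norm_mul, RCLike.norm_conj]
  have hLpos : 0 < (2 * Real.pi * K) ^ 2 := by positivity
  have ig := sq_integrable (𝓕 g : L2d d)
  have iv := sq_integrable (𝓕 v : L2d d)
  have ie := en_int hH
  have ib : Integrable ((Metric.closedBall (0 : Ed d) K).indicator
      fun ξ => ‖(𝓕 g : L2d d) ξ‖ ^ 2) volume := ig.indicator measurableSet_closedBall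
  have h4 : ∫ ξ, ‖(𝓕 g : L2d d) ξ‖ * ‖(𝓕 v : L2d d) ξ‖ ≤
      ∫ ξ, (((Metric.closedBall (0 : Ed d) K).indicator (fun ξ => ‖(𝓕 g : L2d d) ξ‖ ^ 2) ξ +
        1 / 4 * ‖(𝓕 v : L2d d) ξ‖ ^ 2) + (1 / 8 * ‖(𝓕 g : L2d d) ξ‖ ^ 2 +
        2 * ((2 * Real.pi * K) ^ 2)⁻¹ * (lam ξ * ‖(𝓕 v : L2d d) ξ‖ ^ 2))) := by
    refine integral_mono_of_nonneg (Filter.Eventually.of_forall fun ξ => by positivity)
      ((ib.add (iv.const_mul _)).add ((ig.const_mul _).add (ie.const_mul _)))
      (Filter.Eventually.of_forall fun ξ => ?_)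
    simp only
    set A := ‖(𝓕 g : L2d d) ξ‖
    set B := ‖(𝓕 v : L2d d) ξ‖
    have hL := lam_nonneg ξ
    by_cases hξ : ξ ∈ Metric.closedBall (0 : Ed d) K
    · rw [Set.indicator_of_mem hξ]
      have : 0 ≤ 1 / 8 * A ^ 2 + 2 * ((2 * Real.pi * K) ^ 2)⁻¹ * (lam ξ * B ^ 2) := by positivity
      nlinarith [sq_nonneg (A - B / 2)]
    · rw [Set.indicator_of_notMem hξ]
      have h5 : (2 * Real.pi * K) ^ 2 ≤ lam ξ := by
        unfold lam
        have : K ≤ ‖ξ‖ := by
          rw [Metric.mem_closedBall, dist_zero_right, not_le] at hξ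
          exact hξ.le
        apply pow_le_pow_left₀ (by positivity)
        exact mul_le_mul_of_nonneg_left this (by positivity)
      have h6 : B ^ 2 ≤ ((2 * Real.pi * K) ^ 2)⁻¹ * (lam ξ * B ^ 2) := by
        rw [inv_mul_eq_div, le_div_iff₀ hLpos]
        nlinarith [sq_nonneg B]
      nlinarith [sq_nonneg (A / 2 - 2 * B), sq_nonneg (A - 4 * B), sq_nonneg B]
  have h5 : ∫ ξ, (((Metric.closedBall (0 : Ed d) K).indicator (fun ξ => ‖(𝓕 g : L2d d) ξ‖ ^ 2) ξ +
        1 / 4 * ‖(𝓕 v : L2d d) ξ‖ ^ 2) + (1 / 8 * ‖(𝓕 g : L2d d) ξ‖ ^ 2 +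
        2 * ((2 * Real.pi * K) ^ 2)⁻¹ * (lam ξ * ‖(𝓕 v : L2d d) ξ‖ ^ 2))) =
      ((∫ ξ in Metric.closedBall (0 : Ed d) K, ‖(𝓕 g : L2d d) ξ‖ ^ 2) + 1 / 4 * ‖v‖ ^ 2) +
      (1 / 8 * ‖g‖ ^ 2 + 2 * ((2 * Real.pi * K) ^ 2)⁻¹ * en v) := by
    have s1 : Integrable (fun ξ => (Metric.closedBall (0 : Ed d) K).indicator
        (fun ξ => ‖(𝓕 g : L2d d) ξ‖ ^ 2) ξ + 1 / 4 * ‖(𝓕 v : L2d d) ξ‖ ^ 2) volume :=
      ib.add (iv.const_mul _)
    have s2 : Integrable (fun ξ => 1 / 8 * ‖(𝓕 g : L2d d) ξ‖ ^ 2 +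
        2 * ((2 * Real.pi * K) ^ 2)⁻¹ * (lam ξ * ‖(𝓕 v : L2d d) ξ‖ ^ 2)) volume :=
      (ig.const_mul _).add (ie.const_mul _)
    rw [integral_add s1 s2, integral_add ib (iv.const_mul _), integral_add (ig.const_mul _)
      (ie.const_mul _), integral_const_mul, integral_const_mul, integral_const_mul,
      integral_indicator measurableSet_closedBall, F_norm_sq, F_norm_sq]
    rfl
  have h6 : ∫ ξ in Metric.closedBall (0 : Ed d) K, ‖⟪PW ξ, v⟫_ℂ‖ ^ 2 =
      ∫ ξ in Metric.closedBall (0 : Ed d) K, ‖(𝓕 g : L2d d) ξ‖ ^ 2 := by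
    refine integral_congr_ae (ae_restrict_of_ae ?_)
    filter_upwards [F_gc v] with ξ hξ
    rw [hξ]
  rw [h6]
  have h7 : 2 * ((2 * Real.pi * K) ^ 2)⁻¹ * en v ≤ 1 / 8 := by
    have h8 : en v ≤ 2 * μ / h ^ 2 := by
      rw [le_div_iff₀ (by positivity)]
      linarith
    have h9 : 2 * μ / h ^ 2 ≤ (2 * Real.pi * K) ^ 2 / 16 := by
      rw [div_le_iff₀ (by positivity)]
      linarith
    rw [mul_assoc, inv_mul_eq_div]
    have h10 : en v / (2 * Real.pi * K) ^ 2 ≤ 1 / 16 := by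
      rw [div_le_iff₀ hLpos]
      linarith
    linarith
  rw [hv] at h5
  have := hgv.trans (h3.trans (h4.trans h5.le))
  linarith

/-- the dimension bound -/
theorem dim_bound {h μ K : ℝ} (hh : 0 < h) (hμ : 0 < μ) (hK : 0 < K)
    (hKμ : 32 * μ ≤ (2 * Real.pi * K) ^ 2 * h ^ 2) (n : ℕ) (v : Fin n → L2d d)
    (hv : Orthonormal ℂ v) (hH : ∀ i, InH1 (v i)) (hen : ∀ i, h ^ 2 * en (v i) ≤ 2 * μ)
    (hG : ∀ i, ‖Gam d (v i)‖ ^ 2 ≤ 1 / 4) :
    (n : ℝ) ≤ 4 * volume.real (Metric.ball (0 : Ed d) 1) ^ 2 * K ^ d := by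
  have hint : ∀ i, IntegrableOn (fun ξ => ‖⟪PW ξ, v i⟫_ℂ‖ ^ 2) (Metric.closedBall (0 : Ed d) K)
      volume := by
    intro i
    have h1 := (sq_integrable (𝓕 (gc (v i)) : L2d d)).integrableOn
      (s := Metric.closedBall (0 : Ed d) K)
    refine h1.congr (ae_restrict_of_ae ?_)
    filter_upwards [F_gc (v i)] with ξ hξ
    rw [hξ]
  have h1 : (n : ℝ) * (1 / 4) ≤ ∑ i, ∫ ξ in Metric.closedBall (0 : Ed d) K,
      ‖⟪PW ξ, v i⟫_ℂ‖ ^ 2 := by
    have h2 := Finset.sum_le_sum (s := (Finset.univ : Finset (Fin n))) fun i _ =>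
      one_bound hh hμ hK hKμ (v i) (hv.1 i) (hH i) (hen i) (hG i)
    rw [Finset.sum_const, Finset.card_univ, Fintype.card_fin, nsmul_eq_mul] at h2
    exact h2
  rw [← integral_finsetSum _ fun i _ => hint i] at h1
  have h2 : ∫ ξ in Metric.closedBall (0 : Ed d) K, ∑ i, ‖⟪PW ξ, v i⟫_ℂ‖ ^ 2 ≤
      ∫ _ξ in Metric.closedBall (0 : Ed d) K, volume.real (Metric.ball (0 : Ed d) 1) := by
    refine integral_mono (integrable_finsetSum _ fun i _ => hint i) ?_ fun ξ => ?_
    · exact integrableOn_const (by exact measure_closedBall_lt_top.ne)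
    · simp only
      rw [← PW_norm ξ]
      have h3 := hv.sum_inner_products_le (x := PW ξ) (s := Finset.univ)
      refine le_trans (le_of_eq ?_) h3
      refine Finset.sum_congr rfl fun i _ => ?_
      rw [← inner_conj_symm, RCLike.norm_conj]
  have h3 : ∫ _ξ in Metric.closedBall (0 : Ed d) K, volume.real (Metric.ball (0 : Ed d) 1) =
      K ^ d * volume.real (Metric.ball (0 : Ed d) 1) ^ 2 := by
    rw [setIntegral_const, smul_eq_mul]
    have h4 : volume.real (Metric.closedBall (0 : Ed d) K) =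
        K ^ d * volume.real (Metric.ball (0 : Ed d) 1) := by
      unfold Measure.real
      rw [Measure.addHaar_closedBall _ _ hK.le, ENNReal.toReal_mul,
        ENNReal.toReal_ofReal (by positivity), finrank_euclideanSpace, Fintype.card_fin]
    rw [h4]
    ring
  rw [h3] at h2
  linarith

end

end Pool.Agent.V11260.CP
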