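import Pool.Agent.V11260.CP.Q3
import Pool.Agent.Helper209.CX.K01
import Pool.Agent.Helper209.CX.K02
import Pool.Agent.Helper209.CX.K03
import Pool.Agent.Helper209.CX.K13

/-!
# Integrability of the potential and its form bound
-/

namespace Pool.Agent.V11260.CP

open MeasureTheory FourierTransform Filter Topology
open scoped InnerProductSpace ENNReal NNReal
open Pool.Agent.Helper209.CX (Ed L2d InH1 dirichlet)
open Pool.Agent.Helper209.CX

noncomputable section

variable {d : ℕ}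

open Classical in
/-- `(1 - r)^{-1/2}` on `(-∞, 1)` -/
def sg (r : ℝ) : ℝ := if r < 1 then (1 - r) ^ (-(1 / 2) : ℝ) else 0

lemma sg_nonneg (r : ℝ) : 0 ≤ sg r := by
  unfold sg
  split_ifs with h
  · exact Real.rpow_nonneg (by linarith) _
  · exact le_rfl

lemma sg_meas : Measurable sg := by
  unfold sg
  refine Measurable.ite (measurableSet_lt measurable_id measurable_const) ?_ measurable_const
  fun_prop

lemma sg_int (hd : 1 ≤ d) : Integrable (fun x : Ed d => sg ‖x‖) volume := by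
  have hnt : Nontrivial (Ed d) := by
    have : Nonempty (Fin d) := ⟨⟨0, hd⟩⟩
    infer_instance
  rw [integrable_fun_norm_addHaar (volume : Measure (Ed d))]
  have h1 : IntervalIntegrable (fun r : ℝ => r ^ (-(1 / 2) : ℝ)) volume 0 1 :=
    intervalIntegral.intervalIntegrable_rpow' (by norm_num)
  have h2 : IntervalIntegrable (fun r : ℝ => (1 - r) ^ (-(1 / 2) : ℝ)) volume (1 - 0) (1 - 1) :=
    h1.comp_sub_left 1
  rw [sub_zero, sub_self] at h2
  have h3 : IntegrableOn (fun r : ℝ => (1 - r) ^ (-(1 / 2) : ℝ)) (Set.Ioo 0 1) volume := by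
    have := (intervalIntegrable_iff_integrableOn_Ioc_of_le zero_le_one).1 h2.symm
    exact this.mono_set Set.Ioo_subset_Ioc_self
  have h4 : IntegrableOn sg (Set.Ioi 0) volume := by
    have h5 : IntegrableOn sg (Set.Ioo 0 1) volume := by
      refine h3.congr_fun (fun r hr => ?_) measurableSet_Ioo
      unfold sg
      rw [if_pos hr.2]
    have h6 : IntegrableOn sg (Set.Ici 1) volume := by
      refine (integrableOn_zero (s := Set.Ici (1 : ℝ)) (μ := volume)).congr_fun (fun r hr => ?_)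
        measurableSet_Ici
      unfold sg
      rw [if_neg (not_lt.2 hr)]
    refine (h5.union h6).mono_set fun r hr => ?_
    rcases lt_or_ge r 1 with h | h
    · exact Or.inl ⟨hr, h⟩
    · exact Or.inr h
  refine Integrable.mono' h4 ?_ ?_
  · exact ((measurable_id.pow_const _).smul sg_meas).aestronglyMeasurable
  · refine (ae_restrict_iff' measurableSet_Ioi).2 (Filter.Eventually.of_forall fun r hr => ?_)
    have hr0 : (0 : ℝ) < r := hr
    rw [smul_eq_mul, norm_mul, Real.norm_of_nonneg (sg_nonneg r),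
      Real.norm_of_nonneg (by positivity)]
    by_cases h : r < 1
    · have : r ^ (Module.finrank ℝ (Ed d) - 1) ≤ 1 := pow_le_one₀ hr0.le h.le
      have := mul_le_mul_of_nonneg_right this (sg_nonneg r)
      linarith
    · have : sg r = 0 := by unfold sg; rw [if_neg h]
      rw [this, mul_zero]

lemma WW_pow_le (q : ℝ) (hq : 0 < q) (x : Ed d) : WW x ^ q ≤ (2 * q) ^ q * sg ‖x‖ := by
  by_cases h : ‖x‖ < 1
  · have h0 : 0 < 1 - ‖x‖ := by linarith
    have hε : 0 < 1 / (2 * q) := by positivity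
    have h1 : WW x ≤ (1 - ‖x‖) ^ (-(1 / (2 * q))) * (2 * q) := by
      unfold WW
      rw [if_pos h, ← Real.log_inv]
      have h2 := Real.log_le_rpow_div (inv_pos.2 h0).le hε
      refine h2.trans (le_of_eq ?_)
      rw [Real.inv_rpow h0.le, ← Real.rpow_neg h0.le]
      field_simp
    have h2 := Real.rpow_le_rpow (WW_nonneg x) h1 hq.le
    refine h2.trans (le_of_eq ?_)
    rw [Real.mul_rpow (Real.rpow_nonneg h0.le _) (by positivity), ← Real.rpow_mul h0.le]
    unfold sg
    rw [if_pos h]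
    have h3 : -(1 / (2 * q)) * q = -(1 / 2) := by field_simp
    rw [h3]
    ring
  · have h1 : WW x = 0 := by unfold WW; rw [if_neg h]
    rw [h1, Real.zero_rpow hq.ne']
    have := sg_nonneg ‖x‖
    positivity

lemma WW_pow_int (hd : 1 ≤ d) (q : ℝ) (hq : 0 < q) :
    Integrable (fun x : Ed d => WW x ^ q) volume := by
  refine Integrable.mono' ((sg_int hd).const_mul ((2 * q) ^ q))
    (WW_meas.pow_const q).aestronglyMeasurable (Filter.Eventually.of_forall fun x => ?_)
  rw [Real.norm_of_nonneg (Real.rpow_nonneg (WW_nonneg x) _)]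
  exact WW_pow_le q hq x

lemma VV_meas : Measurable (VV : Ed d → ℂ) := by
  have h1 : (VV : Ed d → ℂ) = fun x => ((WW x : ℝ) : ℂ) + Complex.I * (1 - ((chi x : ℝ) : ℂ)) := by
    funext x
    exact VV_eq x
  rw [h1]
  have := WW_meas (d := d)
  have := chi_meas (d := d)
  fun_prop

lemma VV_norm_le (x : Ed d) : ‖VV x‖ ≤ WW x + (1 - chi x) := by
  rw [VV_eq]
  refine (norm_add_le _ _).trans (add_le_add (le_of_eq ?_) (le_of_eq ?_))
  · rw [Complex.norm_real, Real.norm_of_nonneg (WW_nonneg x)]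
  · have : (1 - ((chi x : ℝ) : ℂ)) = ((1 - chi x : ℝ) : ℂ) := by push_cast; ring
    rw [norm_mul, Complex.norm_I, one_mul, this, Complex.norm_real,
      Real.norm_of_nonneg (by linarith [chi_le x])]

lemma one_sub_chi' (x : Ed d) :
    1 - chi x = (Metric.ball (0 : Ed d) 1).indicator (fun _ => (1 : ℝ)) x := by
  unfold chi
  by_cases h : 1 ≤ ‖x‖
  · rw [if_pos h, Set.indicator_of_notMem (by simpa using h)]; norm_num
  · rw [if_neg h, Set.indicator_of_mem (by simpa using h)]; norm_num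

/-- the potential is in every `Lᵖ`, `p < ∞` -/
theorem VV_memLp (hd : 1 ≤ d) (p : ℝ≥0∞) (hp : p ≠ ⊤) : MemLp (VV : Ed d → ℂ) p volume := by
  have key : ∀ q : ℝ≥0∞, q ≠ 0 → q ≠ ⊤ → MemLp (VV : Ed d → ℂ) q volume := by
    intro q hq0 hqt
    have hqr : 0 < q.toReal := ENNReal.toReal_pos hq0 hqt
    have h1 : MemLp (WW : Ed d → ℝ) q volume := by
      rw [← integrable_norm_rpow_iff WW_meas.aestronglyMeasurable hq0 hqt]
      refine (WW_pow_int hd q.toReal hqr).congr (Filter.Eventually.of_forall fun x => ?_)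
      simp only
      rw [Real.norm_of_nonneg (WW_nonneg x)]
    have h2 : MemLp (fun x : Ed d => 1 - chi x) q volume := by
      have : (fun x : Ed d => 1 - chi x) =
          (Metric.ball (0 : Ed d) 1).indicator (fun _ => (1 : ℝ)) := funext one_sub_chi'
      rw [this]
      exact memLp_indicator_const q measurableSet_ball 1 (Or.inr measure_ball_lt_top.ne)
    refine MemLp.of_le (h1.add h2) VV_meas.aestronglyMeasurable
      (Filter.Eventually.of_forall fun x => ?_)
    rw [Pi.add_apply, Real.norm_of_nonneg (add_nonneg (WW_nonneg x) (by linarith [chi_le x]))]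
    exact VV_norm_le x
  by_cases hp0 : p = 0
  · rw [hp0]
    exact memLp_zero_iff_aestronglyMeasurable.2 VV_meas.aestronglyMeasurable
  · exact key p hp0 hp

/-- the weight `U = W + κ χ` -/
theorem exists_weight (hd : 1 ≤ d) (κ : ℝ) (hκ : 0 ≤ κ) :
    ∃ w : Weight d, ∀ x, w.U x = WW x + κ * chi x := by
  have hp : (1 : ℝ) < (d : ℝ) + 1 := by
    have : (1 : ℝ) ≤ d := by exact_mod_cast hd
    linarith
  have hp0 : (0 : ℝ) < (d : ℝ) + 1 := by linarith
  have hpd : (d : ℝ) / 2 < (d : ℝ) + 1 := by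
    have : (0 : ℝ) ≤ d := Nat.cast_nonneg _
    linarith
  let Q : Ed d → ℝ := fun x => WW x + Real.exp (-‖x‖ ^ 2)
  have hQm : Measurable Q := WW_meas.add (by fun_prop)
  have hQ0 : ∀ x, 0 < Q x := fun x => add_pos_of_nonneg_of_pos (WW_nonneg x) (Real.exp_pos _)
  have hQ : Integrable (fun x => Q x ^ ((d : ℝ) + 1)) volume := by
    have h1 := (WW_pow_int hd _ hp0).add (K13.d13_gauss d ((d : ℝ) + 1) hp0)
    refine Integrable.mono' (h1.const_mul (2 ^ ((d : ℝ) + 1))) (hQm.pow_const _).aestronglyMeasurable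
      (Filter.Eventually.of_forall fun x => ?_)
    rw [Real.norm_of_nonneg (Real.rpow_nonneg (hQ0 x).le _)]
    simp only [Pi.add_apply]
    have ha := WW_nonneg x
    have hb := (Real.exp_pos (-‖x‖ ^ 2)).le
    have h2 : Q x ≤ 2 * max (WW x) (Real.exp (-‖x‖ ^ 2)) := by
      have := le_max_left (WW x) (Real.exp (-‖x‖ ^ 2))
      have := le_max_right (WW x) (Real.exp (-‖x‖ ^ 2))
      change WW x + Real.exp (-‖x‖ ^ 2) ≤ _
      linarith
    have hm : 0 ≤ max (WW x) (Real.exp (-‖x‖ ^ 2)) := ha.trans (le_max_left _ _)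
    refine (Real.rpow_le_rpow (hQ0 x).le h2 hp0.le).trans ?_
    rw [Real.mul_rpow (by norm_num) hm]
    refine mul_le_mul_of_nonneg_left ?_ (by positivity)
    rcases le_total (WW x) (Real.exp (-‖x‖ ^ 2)) with h | h
    · rw [max_eq_right h]
      have := Real.rpow_nonneg ha ((d : ℝ) + 1)
      linarith
    · rw [max_eq_left h]
      have := Real.rpow_nonneg hb ((d : ℝ) + 1)
      linarith
  obtain ⟨C, hC, hform⟩ := K03.d3_form (K02.d2_cw K01.d1_fourier) d hd ((d : ℝ) + 1) hp hpd Q hQm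
    hQ0 hQ
  have henergy : ∀ φ : L2d d, InH1 φ →
      Integrable (fun ξ : Ed d => (1 + ‖ξ‖ ^ 2) * ‖(𝓕 φ : L2d d) ξ‖ ^ 2) volume := by
    intro φ hφ
    have h1 := (memLp_two_iff_integrable_sq_norm hφ.1).1 hφ
    have h2 : Integrable (fun ξ : Ed d => ‖(𝓕 φ : L2d d) ξ‖ ^ 2) volume :=
      (Lp.memLp (𝓕 φ : L2d d)).integrable_norm_pow (by norm_num)
    refine (h2.add h1).congr (Filter.Eventually.of_forall fun ξ => ?_)
    simp only [Pi.add_apply, norm_mul, Complex.norm_real, norm_norm]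
    ring
  have hL2 : ∀ φ : L2d d, InH1 φ → ∫ x, ‖φ x‖ ^ 2 ≤
      ∫ ξ : Ed d, (1 + ‖ξ‖ ^ 2) * ‖(𝓕 φ : L2d d) ξ‖ ^ 2 := by
    intro φ hφ
    have h1 : ∫ x, ‖φ x‖ ^ 2 = ∫ ξ, ‖(𝓕 φ : L2d d) ξ‖ ^ 2 := by
      have e : ∀ u : L2d d, ‖u‖ ^ 2 = ∫ x, ‖u x‖ ^ 2 := by
        intro u
        have h3 : ⟪u, u⟫_ℂ = ((∫ x, ‖u x‖ ^ 2 : ℝ) : ℂ) := by
          rw [L2.inner_def, ← integral_complex_ofReal]
          refine integral_congr_ae (Filter.Eventually.of_forall fun ξ => ?_)
          simp only [RCLike.inner_apply]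
          rw [Complex.mul_conj']
          push_cast
          rfl
        rw [inner_self_eq_norm_sq_to_K] at h3
        have h4 : ((‖u‖ ^ 2 : ℝ) : ℂ) = ((∫ x, ‖u x‖ ^ 2 : ℝ) : ℂ) := by
          rw [← h3]; push_cast; rfl
        exact Complex.ofReal_injective h4
      rw [← e, ← e]
      congr 1
      exact ((Pool.Agent.Helper41.CE.FT d).norm_map φ).symm
    rw [h1]
    refine integral_mono_of_nonneg (Filter.Eventually.of_forall fun ξ => by positivity)
      (henergy φ hφ) (Filter.Eventually.of_forall fun ξ => ?_)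
    simp only
    nlinarith [sq_nonneg ‖ξ‖, sq_nonneg ‖(𝓕 φ : L2d d) ξ‖,
      mul_nonneg (sq_nonneg ‖ξ‖) (sq_nonneg ‖(𝓕 φ : L2d d) ξ‖)]
  refine ⟨{ U := fun x => WW x + κ * chi x
            meas := WW_meas.add (chi_meas.const_mul κ)
            nonneg := fun x => add_nonneg (WW_nonneg x) (mul_nonneg hκ (chi_nonneg x))
            C := C + κ
            hC := by linarith
            form := ?_ }, fun x => rfl⟩
  intro φ hφ
  obtain ⟨h1, h2⟩ := hform φ hφ
  have h3 : Integrable (fun x => κ * ‖φ x‖ ^ 2) volume :=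
    ((Lp.memLp φ).integrable_norm_pow (by norm_num)).const_mul κ
  have hle : ∀ x, (WW x + κ * chi x) * ‖φ x‖ ^ 2 ≤ Q x * ‖φ x‖ ^ 2 + κ * ‖φ x‖ ^ 2 := by
    intro x
    rw [← add_mul]
    refine mul_le_mul_of_nonneg_right ?_ (sq_nonneg _)
    change _ ≤ WW x + Real.exp (-‖x‖ ^ 2) + κ
    have := mul_le_mul_of_nonneg_left (chi_le x) hκ
    have := Real.exp_pos (-‖x‖ ^ 2)
    linarith
  have h0 : ∀ x, 0 ≤ (WW x + κ * chi x) * ‖φ x‖ ^ 2 := fun x =>
    mul_nonneg (add_nonneg (WW_nonneg x) (mul_nonneg hκ (chi_nonneg x))) (sq_nonneg _)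
  constructor
  · refine Integrable.mono' (h1.add h3) ?_ (Filter.Eventually.of_forall fun x => ?_)
    · exact (WW_meas.add (chi_meas.const_mul κ)).aestronglyMeasurable.mul
        ((Lp.aestronglyMeasurable φ).norm.pow 2)
    · rw [Real.norm_of_nonneg (h0 x)]
      exact hle x
  · calc ∫ x, (WW x + κ * chi x) * ‖φ x‖ ^ 2 ≤ ∫ x, (Q x * ‖φ x‖ ^ 2 + κ * ‖φ x‖ ^ 2) :=
          integral_mono_of_nonneg (Filter.Eventually.of_forall h0) (h1.add h3)
            (Filter.Eventually.of_forall hle)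
      _ = (∫ x, Q x * ‖φ x‖ ^ 2) + κ * ∫ x, ‖φ x‖ ^ 2 := by
          rw [integral_add h1 h3, integral_const_mul]
      _ ≤ C * (∫ ξ : Ed d, (1 + ‖ξ‖ ^ 2) * ‖(𝓕 φ : L2d d) ξ‖ ^ 2) +
          κ * ∫ ξ : Ed d, (1 + ‖ξ‖ ^ 2) * ‖(𝓕 φ : L2d d) ξ‖ ^ 2 :=
          add_le_add h2 (mul_le_mul_of_nonneg_left (hL2 φ hφ) hκ)
      _ = _ := by ring

end

end Pool.Agent.V11260.CP
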