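import Pool.Agent.V11260.CP.Q5
import Pool.Agent.Helper209.CX.K15

/-!
# Trial functions
-/

namespace Pool.Agent.V11260.CP

open MeasureTheory FourierTransform Filter Topology
open scoped InnerProductSpace ENNReal NNReal
open ContinuousLinearMap
open Pool.Agent.Helper209.CX (Ed L2d InH1 dirichlet)

noncomputable section

variable {d : ℕ}

/-- the tent function of radius `ρ` with centre `c` -/
def tent (ρ : ℝ) (c x : Ed d) : ℝ := max 0 (1 - ‖x - c‖ / ρ)

lemma tent_nonneg (ρ : ℝ) (c x : Ed d) : 0 ≤ tent ρ c x := le_max_left _ _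

lemma tent_le {ρ : ℝ} (hρ : 0 < ρ) (c x : Ed d) : tent ρ c x ≤ 1 := by
  unfold tent
  apply max_le zero_le_one
  have : 0 ≤ ‖x - c‖ / ρ := by positivity
  linarith

lemma tent_meas (ρ : ℝ) (c : Ed d) : Measurable (tent ρ c) := by
  unfold tent; fun_prop

lemma tent_zero {ρ : ℝ} (hρ : 0 < ρ) {c x : Ed d} (h : ρ ≤ ‖x - c‖) : tent ρ c x = 0 := by
  unfold tent
  apply max_eq_left
  have : 1 ≤ ‖x - c‖ / ρ := by rw [le_div_iff₀ hρ]; linarith
  linarith

lemma tent_ne {ρ : ℝ} (hρ : 0 < ρ) {c x : Ed d} (h : tent ρ c x ≠ 0) : ‖x - c‖ < ρ := by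
  by_contra hcon
  exact h (tent_zero hρ (not_lt.1 hcon))

lemma tent_half {ρ : ℝ} (hρ : 0 < ρ) {c x : Ed d} (h : ‖x - c‖ ≤ ρ / 2) :
    1 / 2 ≤ tent ρ c x := by
  unfold tent
  refine le_max_of_le_right ?_
  have : ‖x - c‖ / ρ ≤ 1 / 2 := by rw [div_le_iff₀ hρ]; linarith
  linarith

lemma tent_lip {ρ : ℝ} (hρ : 0 < ρ) (c x y : Ed d) :
    |tent ρ c x - tent ρ c y| ≤ ‖x - y‖ / ρ := by
  unfold tent
  have h1 : |max 0 (1 - ‖x - c‖ / ρ) - max 0 (1 - ‖y - c‖ / ρ)| ≤
      |(1 - ‖x - c‖ / ρ) - (1 - ‖y - c‖ / ρ)| := by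
    have := abs_max_sub_max_le_max (0 : ℝ) (1 - ‖x - c‖ / ρ) 0 (1 - ‖y - c‖ / ρ)
    simpa using this
  refine h1.trans ?_
  have h2 : (1 - ‖x - c‖ / ρ) - (1 - ‖y - c‖ / ρ) = (‖y - c‖ - ‖x - c‖) / ρ := by ring
  rw [h2, abs_div, abs_of_pos hρ]
  refine div_le_div_of_nonneg_right ?_ hρ.le
  refine (abs_norm_sub_norm_le _ _).trans (le_of_eq ?_)
  rw [sub_sub_sub_cancel_right, norm_sub_rev]

lemma tent_int {ρ : ℝ} (hρ : 0 < ρ) (c : Ed d) : Integrable (fun x => tent ρ c x ^ 2) volume := by
  have h1 : Integrable ((Metric.ball c ρ).indicator fun _ : Ed d => (1 : ℝ)) volume :=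
    (integrable_indicator_iff measurableSet_ball).2
      (integrableOn_const (by exact measure_ball_lt_top.ne))
  refine Integrable.mono' h1 ((tent_meas ρ c).pow_const 2).aestronglyMeasurable
    (Filter.Eventually.of_forall fun x => ?_)
  rw [Real.norm_of_nonneg (sq_nonneg _)]
  by_cases hx : x ∈ Metric.ball c ρ
  · rw [Set.indicator_of_mem hx]
    exact pow_le_one₀ (tent_nonneg _ _ _) (tent_le hρ _ _)
  · rw [Set.indicator_of_notMem hx, tent_zero hρ]
    · norm_num
    · rw [Metric.mem_ball, not_lt, dist_eq_norm] at hx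
      exact hx

lemma tent_memLp {ρ : ℝ} (hρ : 0 < ρ) (c : Ed d) :
    MemLp (fun x => ((tent ρ c x : ℝ) : ℂ)) 2 volume := by
  have hm : AEStronglyMeasurable (fun x : Ed d => ((tent ρ c x : ℝ) : ℂ)) volume :=
    (Complex.measurable_ofReal.comp (tent_meas ρ c)).aestronglyMeasurable
  rw [memLp_two_iff_integrable_sq_norm hm]
  refine (tent_int hρ c).congr (Filter.Eventually.of_forall fun x => ?_)
  simp only
  rw [Complex.norm_real, Real.norm_of_nonneg (tent_nonneg _ _ _)]

/-- the tent function as an element of `L²` -/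
def bt {ρ : ℝ} (hρ : 0 < ρ) (c : Ed d) : L2d d := (tent_memLp hρ c).toLp _

lemma sum_sq {m : ℕ} (α z : Fin m → ℂ) (hz : ∀ i j, i ≠ j → z i = 0 ∨ z j = 0) :
    ‖∑ j, α j * z j‖ ^ 2 = ∑ j, ‖α j‖ ^ 2 * ‖z j‖ ^ 2 := by
  by_cases h : ∀ j, z j = 0
  · simp [h]
  · push Not at h
    obtain ⟨j0, hj0⟩ := h
    have h1 : ∀ j, j ≠ j0 → z j = 0 := fun j hj => (hz j j0 hj).resolve_right hj0
    rw [Finset.sum_eq_single j0 (fun j _ hj => by rw [h1 j hj, mul_zero]) (by simp),
      Finset.sum_eq_single j0 (fun j _ hj => by rw [h1 j hj]; simp) (by simp), norm_mul, mul_pow]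

lemma vol_ball (c : Ed d) {r : ℝ} (hr : 0 < r) :
    volume.real (Metric.ball c r) = r ^ d * volume.real (Metric.ball (0 : Ed d) 1) := by
  unfold Measure.real
  rw [Measure.addHaar_ball_of_pos _ _ hr, ENNReal.toReal_mul,
    ENNReal.toReal_ofReal (by positivity), finrank_euclideanSpace, Fintype.card_fin]

/-- Combinations of tent functions with separated centres. -/
theorem trial {ρ : ℝ} (hρ : 0 < ρ) {m : ℕ} (c : Fin m → Ed d)
    (hc : ∀ i j, i ≠ j → 3 * ρ ≤ ‖c i - c j‖) (hc2 : ∀ i, ‖c i‖ + ρ ≤ 1 / 2) (α : Fin m → ℂ) :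
    let u : L2d d := ∑ j, α j • bt hρ (c j)
    InH1 u ∧ en u ≤ (d * 4 ^ (d + 1)) / ρ ^ 2 * ‖u‖ ^ 2 ∧
    (∀ᵐ x ∂volume, 1 / 2 ≤ ‖x‖ → u x = 0) ∧
    (1 / 4 * ((ρ / 2) ^ d * volume.real (Metric.ball (0 : Ed d) 1))) * ∑ j, ‖α j‖ ^ 2 ≤
      ‖u‖ ^ 2 := by
  intro u
  set v0 := volume.real (Metric.ball (0 : Ed d) 1) with hv0
  have hv0n : 0 ≤ v0 := by rw [hv0]; exact measureReal_nonneg
  have hu : (u : Ed d → ℂ) =ᵐ[volume] fun x => ∑ j, α j * ((tent ρ (c j) x : ℝ) : ℂ) := by
    have h1 := Pool.Agent.Helper209.CX.K15.lin_coe α fun j => bt hρ (c j)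
    have h2 : ∀ᵐ x ∂(volume : Measure (Ed d)), ∀ j,
        (bt hρ (c j) : Ed d → ℂ) x = ((tent ρ (c j) x : ℝ) : ℂ) := by
      rw [ae_all_iff]
      intro j
      exact (tent_memLp hρ (c j)).coeFn_toLp
    filter_upwards [h1, h2] with x e1 e2
    change (∑ j, α j • bt hρ (c j) : L2d d) x = _
    rw [e1]
    exact Finset.sum_congr rfl fun j _ => by rw [e2 j]
  have hdisj : ∀ x i j, i ≠ j → tent ρ (c i) x = 0 ∨ tent ρ (c j) x = 0 := by
    intro x i j hij
    by_contra hcon
    push Not at hcon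
    have h1 := tent_ne hρ hcon.1
    have h2 := tent_ne hρ hcon.2
    have h3 := hc i j hij
    have h4 : ‖c i - c j‖ ≤ ‖x - c j‖ + ‖x - c i‖ := by
      have : c i - c j = (x - c j) - (x - c i) := by abel
      rw [this]
      exact norm_sub_le _ _
    linarith
  have hnorm : ‖u‖ ^ 2 = ∑ j, ‖α j‖ ^ 2 * ∫ x, tent ρ (c j) x ^ 2 := by
    rw [norm_sq_int]
    have h1 : ∫ x, ‖u x‖ ^ 2 = ∫ x, ∑ j, ‖α j‖ ^ 2 * tent ρ (c j) x ^ 2 := by
      refine integral_congr_ae ?_
      filter_upwards [hu] with x hx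
      rw [hx, sum_sq α (fun j => ((tent ρ (c j) x : ℝ) : ℂ)) (fun i j hij => by
        rcases hdisj x i j hij with h | h
        · left; simp [h]
        · right; simp [h])]
      refine Finset.sum_congr rfl fun j _ => ?_
      rw [Complex.norm_real, Real.norm_of_nonneg (tent_nonneg _ _ _)]
    rw [h1, integral_finsetSum _ fun j _ => (tent_int hρ (c j)).const_mul _]
    refine Finset.sum_congr rfl fun j _ => ?_
    rw [integral_const_mul]
  have htlow : ∀ j, 1 / 4 * ((ρ / 2) ^ d * v0) ≤ ∫ x, tent ρ (c j) x ^ 2 := by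
    intro j
    have h1 : ∫ x, (Metric.ball (c j) (ρ / 2)).indicator (fun _ : Ed d => (1 / 4 : ℝ)) x =
        1 / 4 * ((ρ / 2) ^ d * v0) := by
      rw [integral_indicator measurableSet_ball, setIntegral_const, vol_ball _ (by positivity),
        smul_eq_mul]
      ring
    rw [← h1]
    refine integral_mono ((integrable_indicator_iff measurableSet_ball).2
      (integrableOn_const (by exact measure_ball_lt_top.ne))) (tent_int hρ (c j)) fun x => ?_
    by_cases hx : x ∈ Metric.ball (c j) (ρ / 2)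
    · simp only
      rw [Set.indicator_of_mem hx]
      have h2 := tent_half hρ (c := c j) (x := x) (by
        rw [Metric.mem_ball, dist_eq_norm] at hx
        exact hx.le)
      nlinarith
    · simp only
      rw [Set.indicator_of_notMem hx]
      exact sq_nonneg _
  have hlow : (1 / 4 * ((ρ / 2) ^ d * v0)) * ∑ j, ‖α j‖ ^ 2 ≤ ‖u‖ ^ 2 := by
    rw [hnorm, Finset.mul_sum]
    refine Finset.sum_le_sum fun j _ => ?_
    rw [mul_comm]
    exact mul_le_mul_of_nonneg_left (htlow j) (sq_nonneg _)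
  have hDq : ∀ᶠ n in atTop, (Dq (st n) u u).re ≤ (d * 4 ^ (d + 1)) / ρ ^ 2 * ‖u‖ ^ 2 := by
    have hev : ∀ᶠ n in atTop, st n < ρ := st_tendsto.eventually (gt_mem_nhds hρ)
    filter_upwards [hev] with n hn
    set t := st n with ht
    have ht0 : 0 < t := st_pos n
    have key : ∀ j : Fin d, ‖tr (t • ev j) u - u‖ ^ 2 ≤
        (t / ρ) ^ 2 * ((2 * ρ) ^ d * v0) * ∑ i, ‖α i‖ ^ 2 := by
      intro j
      set a := t • (ev j : Ed d) with ha
      have han : ‖a‖ = t := by
        rw [ha, norm_smul, Real.norm_of_nonneg ht0.le]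
        unfold ev
        simp
      rw [norm_sq_int]
      have h1 : ∀ᵐ x ∂volume, ‖(tr a u - u : L2d d) x‖ ^ 2 =
          ∑ i, ‖α i‖ ^ 2 * (tent ρ (c i) (x + a) - tent ρ (c i) x) ^ 2 := by
        filter_upwards [Lp.coeFn_sub (tr a u) u, tr_spec a u, hu, ae_shift a hu] with x e1 e2 e3 e4
        rw [e1, Pi.sub_apply, e2, e3, e4, ← Finset.sum_sub_distrib]
        have e5 : ∑ i, (α i * ((tent ρ (c i) (x + a) : ℝ) : ℂ) - α i * ((tent ρ (c i) x : ℝ) : ℂ)) =
            ∑ i, α i * ((tent ρ (c i) (x + a) - tent ρ (c i) x : ℝ) : ℂ) :=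
          Finset.sum_congr rfl fun i _ => by push_cast; ring
        rw [e5, sum_sq α _ (fun i k hik => by
          by_contra hcon
          push Not at hcon
          have hz : ∀ i, ((tent ρ (c i) (x + a) - tent ρ (c i) x : ℝ) : ℂ) ≠ 0 →
              ‖x - c i‖ < ρ + t / 2 ∨ ‖x + a - c i‖ < ρ ∨ ‖x - c i‖ < ρ := by
            intro i hi
            by_cases h7 : tent ρ (c i) (x + a) = 0
            · right; right
              apply tent_ne hρ
              intro h8
              exact hi (by rw [h7, h8]; simp)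
            · right; left
              exact tent_ne hρ h7
          have hz2 : ∀ i, ((tent ρ (c i) (x + a) - tent ρ (c i) x : ℝ) : ℂ) ≠ 0 →
              ‖(x + a - c i) - a‖ < ρ ∨ ‖x + a - c i‖ < ρ := by
            intro i hi
            by_cases h7 : tent ρ (c i) (x + a) = 0
            · left
              have : (x + a - c i) - a = x - c i := by abel
              rw [this]
              apply tent_ne hρ
              intro h8
              exact hi (by rw [h7, h8]; simp)
            · right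
              exact tent_ne hρ h7
          have h3 := hc i k hik
          have hA : ∀ y z : Ed d, ‖y - z‖ ≤ ‖y‖ + ‖z‖ := norm_sub_le
          have e6 : c i - c k = (x + a - c k) - (x + a - c i) := by abel
          have e7 : c i - c k = ((x + a - c k) - a) - ((x + a - c i) - a) := by abel
          have e8 : c i - c k = ((x + a - c k) - a) - (x + a - c i) + a := by abel
          have e9 : c i - c k = (x + a - c k) - ((x + a - c i) - a) - a := by abel
          rcases hz2 i hcon.1 with h4 | h4 <;> rcases hz2 k hcon.2 with h5 | h5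
          · rw [e7] at h3
            have := hA ((x + a - c k) - a) ((x + a - c i) - a)
            linarith
          · rw [e9] at h3
            have := hA ((x + a - c k) - ((x + a - c i) - a)) a
            have := hA (x + a - c k) ((x + a - c i) - a)
            linarith
          · rw [e8] at h3
            have := norm_add_le (((x + a - c k) - a) - (x + a - c i)) a
            have := hA ((x + a - c k) - a) (x + a - c i)
            linarith
          · rw [e6] at h3
            have := hA (x + a - c k) (x + a - c i)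
            linarith)]
        refine Finset.sum_congr rfl fun i _ => ?_
        rw [Complex.norm_real, Real.norm_eq_abs, sq_abs]
      rw [integral_congr_ae h1]
      have hbi : ∀ i, Integrable ((Metric.ball (c i) (2 * ρ)).indicator
          fun _ : Ed d => (t / ρ) ^ 2) volume := fun i =>
        (integrable_indicator_iff measurableSet_ball).2
          (integrableOn_const (by exact measure_ball_lt_top.ne))
      have hle : ∀ i x, (tent ρ (c i) (x + a) - tent ρ (c i) x) ^ 2 ≤
          (Metric.ball (c i) (2 * ρ)).indicator (fun _ : Ed d => (t / ρ) ^ 2) x := by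
        intro i x
        by_cases hx : x ∈ Metric.ball (c i) (2 * ρ)
        · rw [Set.indicator_of_mem hx, ← sq_abs]
          refine pow_le_pow_left₀ (abs_nonneg _) ?_ 2
          have := tent_lip hρ (c i) (x + a) x
          rwa [add_sub_cancel_left, han] at this
        · rw [Set.indicator_of_notMem hx]
          rw [Metric.mem_ball, not_lt, dist_eq_norm] at hx
          have h5 : ρ ≤ ‖x + a - c i‖ := by
            have h6 : x - c i = (x + a - c i) - a := by abel
            have h7 := norm_sub_le (x + a - c i) a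
            rw [← h6] at h7
            linarith
          rw [tent_zero hρ h5, tent_zero hρ (by linarith : ρ ≤ ‖x - c i‖)]
          norm_num
      calc ∫ x, ∑ i, ‖α i‖ ^ 2 * (tent ρ (c i) (x + a) - tent ρ (c i) x) ^ 2
          ≤ ∫ x, ∑ i, ‖α i‖ ^ 2 * (Metric.ball (c i) (2 * ρ)).indicator
            (fun _ : Ed d => (t / ρ) ^ 2) x := by
            refine integral_mono_of_nonneg (Filter.Eventually.of_forall fun x =>
              Finset.sum_nonneg fun i _ => by positivity)
              (integrable_finsetSum _ fun i _ => (hbi i).const_mul _)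
              (Filter.Eventually.of_forall fun x => ?_)
            exact Finset.sum_le_sum fun i _ =>
              mul_le_mul_of_nonneg_left (hle i x) (sq_nonneg _)
        _ = ∑ i, ‖α i‖ ^ 2 * ((t / ρ) ^ 2 * ((2 * ρ) ^ d * v0)) := by
            rw [integral_finsetSum _ fun i _ => (hbi i).const_mul _]
            refine Finset.sum_congr rfl fun i _ => ?_
            rw [integral_const_mul, integral_indicator measurableSet_ball, setIntegral_const,
              vol_ball _ (by positivity), smul_eq_mul]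
            ring
        _ = _ := by rw [← Finset.sum_mul]; ring
    have hre : (Dq t u u).re = (t ^ 2)⁻¹ * ∑ j, ‖tr (t • ev j) u - u‖ ^ 2 := by
      unfold Dq
      rw [Complex.re_ofReal_mul, Complex.re_sum]
      congr 1
      refine Finset.sum_congr rfl fun j _ => ?_
      rw [inner_self_eq_norm_sq_to_K]
      norm_cast
    rw [hre]
    have hsum : ∑ j : Fin d, ‖tr (t • ev j) u - u‖ ^ 2 ≤
        d * ((t / ρ) ^ 2 * ((2 * ρ) ^ d * v0) * ∑ i, ‖α i‖ ^ 2) := by
      refine (Finset.sum_le_sum fun j _ => key j).trans (le_of_eq ?_)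
      rw [Finset.sum_const, Finset.card_univ, Fintype.card_fin, nsmul_eq_mul]
    have e2 : (2 * ρ) ^ d = 4 ^ d * (ρ / 2) ^ d := by
      rw [← mul_pow]
      congr 1
      ring
    calc (t ^ 2)⁻¹ * ∑ j : Fin d, ‖tr (t • ev j) u - u‖ ^ 2
        ≤ (t ^ 2)⁻¹ * (d * ((t / ρ) ^ 2 * ((2 * ρ) ^ d * v0) * ∑ i, ‖α i‖ ^ 2)) :=
          mul_le_mul_of_nonneg_left hsum (by positivity)
      _ = (d * 4 ^ (d + 1)) / ρ ^ 2 * ((1 / 4 * ((ρ / 2) ^ d * v0)) * ∑ i, ‖α i‖ ^ 2) := by
          rw [e2, div_pow]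
          field_simp
          ring
      _ ≤ _ := mul_le_mul_of_nonneg_left hlow (by positivity)
  obtain ⟨hH, hen⟩ := H1_of_Dq u _ hDq
  refine ⟨hH, hen, ?_, hlow⟩
  filter_upwards [hu] with x hx hx2
  rw [hx]
  refine Finset.sum_eq_zero fun j _ => ?_
  rw [tent_zero hρ]
  · simp
  · have := norm_sub_norm_le x (c j)
    linarith [hc2 j]

end

end Pool.Agent.V11260.CP
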