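import Pool.Agent.V11260.CP.P5
import Pool.Agent.V11260.CP.Q6
import Pool.Agent.V11260.CP.Q7
import Pool.Agent.V11260.CP.Q8
import Pool.Agent.V11260.CP.Q9

/-!
# Counting eigenvalues near `i + [0, 2μ]`
-/

namespace Pool.Agent.V11260.CP

open MeasureTheory FourierTransform Filter Topology
open scoped InnerProductSpace ENNReal NNReal
open ContinuousLinearMap
open Pool.Agent.Helper209.CX (Ed L2d InH1 dirichlet IsHu)

noncomputable section

variable {d : ℕ}

lemma exists_centres (hd : 1 ≤ d) {ρ : ℝ} (hρ : 0 < ρ) (hρ2 : 24 * d * ρ ≤ 1) :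
    ∃ (m : ℕ) (c : Fin m → Ed d), (∀ i j, i ≠ j → 3 * ρ ≤ ‖c i - c j‖) ∧
      (∀ i, ‖c i‖ + ρ ≤ 1 / 2) ∧ (1 / (24 * d * ρ)) ^ d ≤ (m : ℝ) := by
  have hdr : (1 : ℝ) ≤ d := by exact_mod_cast hd
  have hdp : (0 : ℝ) < 12 * d * ρ := by positivity
  obtain ⟨L, hL⟩ : ∃ L : ℕ, L = ⌊1 / (12 * d * ρ)⌋₊ := ⟨_, rfl⟩
  have hL1 : (L : ℝ) ≤ 1 / (12 * d * ρ) := by rw [hL]; exact Nat.floor_le (by positivity)
  have hL2 : 1 / (12 * d * ρ) < L + 1 := by rw [hL]; exact Nat.lt_floor_add_one _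
  have hL3 : 1 / (24 * d * ρ) ≤ L := by
    have h1 : 1 / (12 * d * ρ) = 2 * (1 / (24 * d * ρ)) := by field_simp; norm_num
    have h2 : 1 ≤ 1 / (24 * d * ρ) := by
      rw [le_div_iff₀ (by positivity)]; linarith
    rw [h1] at hL2
    linarith
  let e : Fin (Fintype.card (Fin d → Fin L)) ≃ (Fin d → Fin L) := (Fintype.equivFin _).symm
  let c : Fin (Fintype.card (Fin d → Fin L)) → Ed d := fun j =>
    WithLp.toLp 2 fun i => 3 * ρ * ((e j i : ℕ) : ℝ)
  refine ⟨Fintype.card (Fin d → Fin L), c, ?_, ?_, ?_⟩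
  · intro i j hij
    have h1 : e i ≠ e j := fun h => hij (e.injective h)
    obtain ⟨k, hk⟩ := Function.ne_iff.1 h1
    have h2 : 3 * ρ ≤ ‖(c i - c j) k‖ := by
      have h3 : (c i - c j) k = 3 * ρ * (((e i k : ℕ) : ℝ) - ((e j k : ℕ) : ℝ)) := by
        change 3 * ρ * ((e i k : ℕ) : ℝ) - 3 * ρ * ((e j k : ℕ) : ℝ) = _
        ring
      rw [h3, Real.norm_eq_abs, abs_mul, abs_of_pos (by positivity : 0 < 3 * ρ)]
      have h4 : (1 : ℝ) ≤ |((e i k : ℕ) : ℝ) - ((e j k : ℕ) : ℝ)| := by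
        have h5 : ((e i k : ℕ) : ℤ) - ((e j k : ℕ) : ℤ) ≠ 0 := by
          intro h6
          apply hk
          apply Fin.ext
          omega
        have h6 := Int.one_le_abs h5
        have h7 : ((|((e i k : ℕ) : ℤ) - ((e j k : ℕ) : ℤ)| : ℤ) : ℝ) =
            |((e i k : ℕ) : ℝ) - ((e j k : ℕ) : ℝ)| := by push_cast; rfl
        rw [← h7]
        exact_mod_cast h6
      nlinarith
    exact h2.trans (PiLp.norm_apply_le (c i - c j) k)
  · intro j
    have h1 : ‖c j‖ ≤ 1 / 4 := by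
      have h2 : ‖c j‖ ^ 2 ≤ (1 / 4) ^ 2 := by
        rw [EuclideanSpace.real_norm_sq_eq]
        have h3 : ∀ i ∈ (Finset.univ : Finset (Fin d)), (c j i) ^ 2 ≤ (1 / (4 * d)) ^ 2 := by
          intro i _
          have h4 : c j i = 3 * ρ * ((e j i : ℕ) : ℝ) := rfl
          rw [h4]
          refine pow_le_pow_left₀ (by positivity) ?_ 2
          have h5 : ((e j i : ℕ) : ℝ) ≤ L := by exact_mod_cast (e j i).2.le
          calc 3 * ρ * ((e j i : ℕ) : ℝ) ≤ 3 * ρ * (1 / (12 * d * ρ)) :=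
                mul_le_mul_of_nonneg_left (h5.trans hL1) (by positivity)
            _ = _ := by field_simp; norm_num
        have h4 := Finset.sum_le_card_nsmul _ _ _ h3
        rw [Finset.card_univ, Fintype.card_fin, nsmul_eq_mul] at h4
        refine h4.trans ?_
        have h5 : (d : ℝ) * (1 / (4 * d)) ^ 2 = (1 / d) * (1 / 4) ^ 2 := by field_simp
        rw [h5]
        have h6 : 1 / (d : ℝ) ≤ 1 := by rw [div_le_one (by linarith)]; exact hdr
        nlinarith
      exact le_of_sq_le_sq h2 (by norm_num)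
    have h2 : ρ ≤ 1 / 24 := by nlinarith
    linarith
  · rw [Fintype.card_fun, Fintype.card_fin, Fintype.card_fin]
    push_cast
    exact pow_le_pow_left₀ (by positivity) hL3 d

lemma WW_half {x : Ed d} (hx : ‖x‖ < 1 / 2) : WW x ≤ 1 := by
  unfold WW
  rw [if_pos (by linarith)]
  have h1 : Real.log (1 / 2) ≤ Real.log (1 - ‖x‖) := Real.log_le_log (by norm_num) (by linarith)
  rw [one_div, Real.log_inv] at h1
  have h2 := Real.log_two_lt_d9
  linarith

lemma pot_ge {κ : ℝ} (w : Weight d) (hw : ∀ x, w.U x = WW x + κ * chi x) (u : L2d d)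
    (hu : InH1 u) : κ * ‖Gam d u‖ ^ 2 ≤ w.pot u := by
  have hGi : ‖Gam d u‖ ^ 2 = ∫ x, chi x * ‖u x‖ ^ 2 := by
    rw [norm_sq_int]
    refine integral_congr_ae ?_
    filter_upwards [Gam_spec u] with x hx
    rw [hx, norm_mul, Complex.norm_real, Real.norm_of_nonneg (chi_nonneg x), mul_pow, sq (chi x),
      chi_sq]
  have hci : Integrable (fun x => chi x * ‖u x‖ ^ 2) volume := by
    refine (sq_integrable u).bdd_mul (c := 1) chi_meas.aestronglyMeasurable
      (Filter.Eventually.of_forall fun x => ?_)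
    rw [Real.norm_of_nonneg (chi_nonneg x)]
    exact chi_le x
  rw [hGi, ← integral_const_mul]
  refine integral_mono (hci.const_mul _) (w.form u hu).1 fun x => ?_
  simp only
  rw [hw]
  have := mul_nonneg (WW_nonneg x) (sq_nonneg ‖u x‖)
  nlinarith

lemma pot_le {κ : ℝ} (w : Weight d) (hw : ∀ x, w.U x = WW x + κ * chi x) (u : L2d d)
    (hu : ∀ᵐ x ∂volume, 1 / 2 ≤ ‖x‖ → u x = 0) : w.pot u ≤ ‖u‖ ^ 2 := by
  rw [norm_sq_int]
  unfold Weight.pot
  refine integral_mono_of_nonneg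
    (Filter.Eventually.of_forall fun x => mul_nonneg (w.nonneg x) (sq_nonneg _))
    (sq_integrable u) ?_
  filter_upwards [hu] with x hx
  by_cases h : 1 / 2 ≤ ‖x‖
  · rw [hx h]; simp
  · push Not at h
    rw [hw]
    have h1 : chi x = 0 := by unfold chi; rw [if_neg (by linarith)]
    rw [h1, mul_zero, add_zero]
    have := mul_le_mul_of_nonneg_right (WW_half h) (sq_nonneg ‖u x‖)
    linarith

/-- the statement for fixed `h`, under smallness conditions -/
theorem count_h (hd : 1 ≤ d) {h μ : ℝ} (hh : 0 < h) (hμ : 2 ≤ μ) (M : ℕ) (hM : 0 < M)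
    (hMq : 72 * d * M ^ 2 * h ^ 2 ≤ Real.exp (-(8 * μ)) ^ 2 * (8 * μ))
    (hρ : 24 * d * (h * √(2 * (d * 4 ^ (d + 1)) / μ)) ≤ 1)
    (hsmall : 8 * ((4 * volume.real (Metric.ball (0 : Ed d) 1) ^ 2 *
      (√(32 * μ) / (2 * Real.pi * h)) ^ d) + 1) ^ 2 * (1 + 8 * μ) ^ 2 * (2 * μ + 1) *
      (1 / 2) ^ M ≤ μ) :
    ∃ (n : ℕ) (e : Fin n → L2d d) (A : Matrix (Fin n) (Fin n) ℂ),
      (1 / (24 * d * (h * √(2 * (d * 4 ^ (d + 1)) / μ)))) ^ d ≤ (n : ℝ) ∧
      LinearIndependent ℂ e ∧ (∀ k, IsHu h VV (e k) (∑ l, A l k • e l)) ∧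
      ∀ (E : ℂ) (w : Fin n → ℂ), w ≠ 0 → (∀ k, ∑ l, A k l * w l = E * w k) →
        1 / 2 ≤ E.im ∧ ‖E‖ ≤ 4 * μ := by
  have hdr : (1 : ℝ) ≤ d := by exact_mod_cast hd
  have hμ0 : 0 < μ := by linarith
  have hκ0 : 0 < 8 * μ := by linarith
  obtain ⟨w, hw⟩ := exists_weight hd (8 * μ) hκ0.le
  obtain ⟨F, hFn, hFa, hFb, hFc⟩ := w.exists_F hh
  set ρ := h * √(2 * (d * 4 ^ (d + 1)) / μ) with hρdef
  have hρ0 : 0 < ρ := by positivity
  obtain ⟨m, c, hc1, hc2, hc3⟩ := exists_centres hd hρ0 hρ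
  have hv0 : 0 < volume.real (Metric.ball (0 : Ed d) 1) := by
    unfold Measure.real
    exact ENNReal.toReal_pos (Metric.measure_ball_pos _ _ one_pos).ne' measure_ball_lt_top.ne
  set K := √(32 * μ) / (2 * Real.pi * h) with hK
  have hK0 : 0 < K := by positivity
  have hKμ : 32 * μ ≤ (2 * Real.pi * K) ^ 2 * h ^ 2 := by
    have h1 : 2 * Real.pi * K = √(32 * μ) / h := by rw [hK]; field_simp
    rw [h1, div_pow, Real.sq_sqrt (by positivity), div_mul_cancel₀ _ (by positivity)]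
  set Nr := 4 * volume.real (Metric.ball (0 : Ed d) 1) ^ 2 * K ^ d with hNr
  have hNr0 : 0 ≤ Nr := by positivity
  have hHu : ∀ z, InH1 (F z) := fun z => (hFa z).1
  obtain ⟨n, e, A, hmn, he, hA, hloc⟩ := count_invariant F (Gam d) (8 * μ) μ ((1 / 2) ^ M)
    ⌊Nr⌋₊ m hFn Gam_sym Gam_pos Gam_norm hκ0.le hμ0 (by positivity)
    (by
      intro n v hv hz
      apply Nat.le_floor
      have hi : ∀ i, InH1 (v i) ∧ h ^ 2 * en (v i) ≤ 2 * μ ∧ ‖Gam d (v i)‖ ^ 2 ≤ 1 / 4 := by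
        intro i
        obtain ⟨z, h1, h2⟩ := hz i
        obtain ⟨h3, h4⟩ := hFa z
        rw [h1] at h3 h4
        rw [hv.1 i] at h4
        have h5 := w.pot_nonneg (v i)
        have h6 := en_nonneg (v i)
        have h7 := pot_ge w hw (v i) h3
        have h8 : 0 ≤ h ^ 2 * en (v i) := by positivity
        refine ⟨h3, by linarith, ?_⟩
        have h9 : 8 * μ * ‖Gam d (v i)‖ ^ 2 ≤ 8 * μ * (1 / 4) := by linarith
        exact le_of_mul_le_mul_left h9 hκ0
      exact dim_bound hh hμ0 hK0 hKμ n v hv (fun i => (hi i).1) (fun i => (hi i).2.1)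
        fun i => (hi i).2.2)
    (by
      intro a u _ ha hu1 hu
      exact decay hκ0 w hw F hHu hFc a (by linarith) M hM hMq u hu1 hu)
    (fun j => bt hρ0 (c j))
    (by
      rw [Fintype.linearIndependent_iff]
      intro α hα i
      obtain ⟨-, -, -, h4⟩ := trial hρ0 c hc1 hc2 α
      rw [hα, norm_zero] at h4
      have h5 : 0 < 1 / 4 * ((ρ / 2) ^ d * volume.real (Metric.ball (0 : Ed d) 1)) := by positivity
      have h6 : ∑ j, ‖α j‖ ^ 2 ≤ 0 := by
        by_contra hcon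
        push Not at hcon
        have := mul_pos h5 hcon
        linarith
      have h7 : ‖α i‖ ^ 2 ≤ 0 :=
        (Finset.single_le_sum (f := fun j => ‖α j‖ ^ 2) (fun j _ => sq_nonneg _)
          (Finset.mem_univ i)).trans h6
      have h8 : ‖α i‖ = 0 := by nlinarith [norm_nonneg (α i)]
      exact norm_eq_zero.1 h8)
    (by
      intro α
      obtain ⟨h1, h2, h3, -⟩ := trial hρ0 c hc1 hc2 α
      set u := ∑ j, α j • bt hρ0 (c j) with hu
      obtain ⟨z, hz⟩ := hFb u h1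
      refine ⟨z, hz, ?_⟩
      obtain ⟨-, h4⟩ := hFa z
      rw [hz] at h4 ⊢
      have h5 := pot_le w hw u h3
      have h6 : h ^ 2 * en u ≤ μ / 2 * ‖u‖ ^ 2 := by
        calc h ^ 2 * en u ≤ h ^ 2 * ((d * 4 ^ (d + 1)) / ρ ^ 2 * ‖u‖ ^ 2) :=
              mul_le_mul_of_nonneg_left h2 (sq_nonneg h)
          _ = μ / 2 * ‖u‖ ^ 2 := by
              have h7 : ρ ^ 2 = h ^ 2 * (2 * (d * 4 ^ (d + 1)) / μ) := by
                rw [hρdef, mul_pow, Real.sq_sqrt (by positivity)]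
              rw [h7]
              field_simp
      rw [← h4]
      nlinarith [sq_nonneg ‖u‖])
    (by
      refine le_trans ?_ hsmall
      have h1 : (⌊Nr⌋₊ : ℝ) ≤ Nr := Nat.floor_le hNr0
      have h2 : ((⌊Nr⌋₊ : ℝ) + 1) ^ 2 ≤ (Nr + 1) ^ 2 := pow_le_pow_left₀ (by positivity)
        (by linarith) 2
      have h3 : 0 ≤ (1 + 8 * μ) ^ 2 * (2 * μ + 1) * (1 / 2) ^ M := by positivity
      nlinarith)
  refine ⟨n, e, A + (Complex.I - 1) • (1 : Matrix (Fin n) (Fin n) ℂ), ?_, he, ?_, ?_⟩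
  · exact hc3.trans (by exact_mod_cast hmn)
  · intro k
    have h1 := isHu_of (κ := 8 * μ) hh w hw F hHu hFc (e k) (∑ l, A l k • e l) (by
      have := hA k
      push_cast at this ⊢
      exact this)
    have h2 : ∑ l, (A + (Complex.I - 1) • (1 : Matrix (Fin n) (Fin n) ℂ)) l k • e l =
        ∑ l, A l k • e l + (Complex.I - 1) • e k := by
      simp_rw [Matrix.add_apply, add_smul, Finset.sum_add_distrib]
      congr 1
      rw [Finset.sum_eq_single k]
      · simp
      · intro l _ hl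
        simp [hl]
      · simp
    rw [h2]
    exact h1
  · intro E v hv hE
    obtain ⟨x, hx1, hx2, hx3⟩ := hloc (E - (Complex.I - 1)) v hv (by
      intro k
      have h1 := hE k
      have h2 : ∑ l, (A + (Complex.I - 1) • (1 : Matrix (Fin n) (Fin n) ℂ)) k l * v l =
          ∑ l, A k l * v l + (Complex.I - 1) * v k := by
        simp_rw [Matrix.add_apply, add_mul, Finset.sum_add_distrib]
        congr 1
        rw [Finset.sum_eq_single k]
        · simp
        · intro l _ hl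
          simp [hl.symm]
        · simp
      rw [h2] at h1
      rw [sub_mul, ← h1]
      ring)
    constructor
    · have h1 := (Complex.abs_im_le_norm _).trans hx3
      have h2 : (E - (Complex.I - 1) - (x : ℂ)).im = E.im - 1 := by simp
      rw [h2, abs_le] at h1
      linarith [h1.1]
    · have h1 : E = (E - (Complex.I - 1) - (x : ℂ)) + (((x - 1 : ℝ) : ℂ) + Complex.I) := by
        push_cast; ring
      rw [h1]
      refine (norm_add_le _ _).trans ?_
      have h2 : ‖(((x - 1 : ℝ) : ℂ) + Complex.I)‖ ≤ 2 * μ + 1 := by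
        refine (norm_add_le _ _).trans ?_
        rw [Complex.norm_I, Complex.norm_real, Real.norm_of_nonneg (by linarith)]
        linarith
      linarith

end

end Pool.Agent.V11260.CP
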