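import Pool.Agent.V11260.CP.Q1

/-!
# The operator `T = -h² Δ + U` through `F`, with `F F† = (T + 1)⁻¹`
-/

namespace Pool.Agent.V11260.CP

open MeasureTheory FourierTransform
open scoped InnerProductSpace ENNReal NNReal
open ContinuousLinearMap
open Pool.Agent.Helper209.CX (Ed L2d InH1 dirichlet)

noncomputable section

variable {d : ℕ}

/-- A nonnegative potential that is form bounded. -/
structure Weight (d : ℕ) where
  U : Ed d → ℝ
  meas : Measurable U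
  nonneg : ∀ x, 0 ≤ U x
  C : ℝ
  hC : 0 ≤ C
  form : ∀ φ : L2d d, InH1 φ → Integrable (fun x => U x * ‖φ x‖ ^ 2) volume ∧
    ∫ x, U x * ‖φ x‖ ^ 2 ≤ C * ∫ ξ : Ed d, (1 + ‖ξ‖ ^ 2) * ‖(𝓕 φ : L2d d) ξ‖ ^ 2

lemma exists_sqrt {H : Type*} [NormedAddCommGroup H] [InnerProductSpace ℂ H] [CompleteSpace H]
    (G : H →L[ℂ] H) (hG : G.IsPositive) : ∃ N : H →L[ℂ] H, N.IsPositive ∧ N * N = G := by
  have hG0 : (0 : H →L[ℂ] H) ≤ G := (nonneg_iff_isPositive G).2 hG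
  exact ⟨CFC.sqrt G, (nonneg_iff_isPositive _).1 (CFC.sqrt_nonneg G),
    CFC.sqrt_mul_sqrt_self G hG0⟩

namespace Weight

variable (w : Weight d)

/-- `∫ U |u|²` -/
def pot (u : L2d d) : ℝ := ∫ x, w.U x * ‖u x‖ ^ 2

lemma pot_nonneg (u : L2d d) : 0 ≤ w.pot u :=
  integral_nonneg fun x => mul_nonneg (w.nonneg x) (sq_nonneg _)

lemma memLp (u : L2d d) (hu : InH1 u) :
    MemLp (fun x => ((√(w.U x) : ℝ) : ℂ) * u x) 2 volume := by
  have hm : AEStronglyMeasurable (fun x => ((√(w.U x) : ℝ) : ℂ) * u x) volume :=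
    (Complex.measurable_ofReal.comp w.meas.sqrt).aestronglyMeasurable.mul
      (Lp.aestronglyMeasurable u)
  rw [memLp_two_iff_integrable_sq_norm hm]
  refine (w.form u hu).1.congr (Filter.Eventually.of_forall fun x => ?_)
  simp only
  rw [norm_mul, Complex.norm_real, Real.norm_of_nonneg (Real.sqrt_nonneg _), mul_pow,
    Real.sq_sqrt (w.nonneg x)]

/-- `√U u` -/
def mul (u : L2d d) (hu : InH1 u) : L2d d := (w.memLp u hu).toLp _

lemma mul_spec (u : L2d d) (hu : InH1 u) :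
    (w.mul u hu : Ed d → ℂ) =ᵐ[volume] fun x => ((√(w.U x) : ℝ) : ℂ) * u x :=
  (w.memLp u hu).coeFn_toLp

lemma inner_mul (u φ : L2d d) (hu : InH1 u) (hφ : InH1 φ) :
    ⟪w.mul φ hφ, w.mul u hu⟫_ℂ = ∫ x, ((w.U x : ℝ) : ℂ) * u x * (starRingEnd ℂ) (φ x) := by
  rw [L2.inner_def]
  refine integral_congr_ae ?_
  filter_upwards [w.mul_spec u hu, w.mul_spec φ hφ] with x h1 h2
  rw [h1, h2]
  simp only [RCLike.inner_apply, map_mul, Complex.conj_ofReal]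
  have h3 : ((√(w.U x) : ℝ) : ℂ) * ((√(w.U x) : ℝ) : ℂ) = ((w.U x : ℝ) : ℂ) := by
    rw [← Complex.ofReal_mul, Real.mul_self_sqrt (w.nonneg x)]
  linear_combination (u x * (starRingEnd ℂ) (φ x)) * h3

lemma norm_mul_sq (u : L2d d) (hu : InH1 u) : ‖w.mul u hu‖ ^ 2 = w.pot u := by
  have h1 := w.inner_mul u u hu hu
  rw [inner_self_eq_norm_sq_to_K] at h1
  have h2 : ∫ x, ((w.U x : ℝ) : ℂ) * u x * (starRingEnd ℂ) (u x) = ((w.pot u : ℝ) : ℂ) := by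
    unfold pot
    rw [← integral_complex_ofReal]
    refine integral_congr_ae (Filter.Eventually.of_forall fun x => ?_)
    simp only
    rw [mul_assoc, Complex.mul_conj']
    push_cast
    rfl
  rw [h2] at h1
  have h3 : ((‖w.mul u hu‖ ^ 2 : ℝ) : ℂ) = ((w.pot u : ℝ) : ℂ) := by
    rw [← h1]; push_cast; rfl
  exact Complex.ofReal_injective h3

lemma int_pair (u φ : L2d d) (hu : InH1 u) (hφ : InH1 φ) :
    Integrable (fun x => ((w.U x : ℝ) : ℂ) * u x * (starRingEnd ℂ) (φ x)) volume := by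
  have := L2.integrable_inner (𝕜 := ℂ) (w.mul φ hφ) (w.mul u hu)
  refine this.congr ?_
  filter_upwards [w.mul_spec u hu, w.mul_spec φ hφ] with x h1 h2
  rw [h1, h2]
  simp only [RCLike.inner_apply, map_mul, Complex.conj_ofReal]
  have h3 : ((√(w.U x) : ℝ) : ℂ) * ((√(w.U x) : ℝ) : ℂ) = ((w.U x : ℝ) : ℂ) := by
    rw [← Complex.ofReal_mul, Real.mul_self_sqrt (w.nonneg x)]
  linear_combination (u x * (starRingEnd ℂ) (φ x)) * h3

variable {h : ℝ} (hh : 0 < h)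

lemma exists_M (hh : 0 < h) : ∃ M : L2d d →L[ℂ] L2d d, ∀ y, M y = w.mul (R0 h y) (R0_H1 hh y) := by
  let M₀ : L2d d →ₗ[ℂ] L2d d :=
    { toFun := fun y => w.mul (R0 h y) (R0_H1 hh y)
      map_add' := by
        intro u v
        apply Lp.ext
        filter_upwards [w.mul_spec _ (R0_H1 hh (u + v)), w.mul_spec _ (R0_H1 hh u),
          w.mul_spec _ (R0_H1 hh v), Lp.coeFn_add (R0 h u) (R0 h v),
          Lp.coeFn_add (w.mul (R0 h u) (R0_H1 hh u)) (w.mul (R0 h v) (R0_H1 hh v))]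
          with x h1 h2 h3 h4 h5
        rw [h1, h5, Pi.add_apply, h2, h3, map_add, h4, Pi.add_apply]
        ring
      map_smul' := by
        intro c u
        apply Lp.ext
        filter_upwards [w.mul_spec _ (R0_H1 hh (c • u)), w.mul_spec _ (R0_H1 hh u),
          Lp.coeFn_smul c (R0 h u), Lp.coeFn_smul c (w.mul (R0 h u) (R0_H1 hh u))]
          with x h1 h2 h3 h4
        rw [h1, RingHom.id_apply, h4, Pi.smul_apply, h2, map_smul, h3, Pi.smul_apply, smul_eq_mul,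
          smul_eq_mul]
        ring }
  have hM₀ : ∀ y, M₀ y = w.mul (R0 h y) (R0_H1 hh y) := fun _ => rfl
  have hb : ∀ y, ‖M₀ y‖ ≤ √(w.C * (1 + (h ^ 2)⁻¹)) * ‖y‖ := by
    intro y
    have h0 : 0 ≤ w.C * (1 + (h ^ 2)⁻¹) := mul_nonneg w.hC (by positivity)
    have h1 : ‖M₀ y‖ ^ 2 ≤ (w.C * (1 + (h ^ 2)⁻¹)) * ‖y‖ ^ 2 := by
      rw [hM₀, norm_mul_sq]
      refine (w.form _ (R0_H1 hh y)).2.trans ?_
      rw [mul_assoc]
      refine mul_le_mul_of_nonneg_left ?_ w.hC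
      have h2 : ‖y‖ ^ 2 = ∫ ξ, ‖(𝓕 y : L2d d) ξ‖ ^ 2 := by
        have h3 : ⟪y, y⟫_ℂ = ((∫ ξ, ‖(𝓕 y : L2d d) ξ‖ ^ 2 : ℝ) : ℂ) := by
          rw [inner_eq_F, ← integral_complex_ofReal]
          refine integral_congr_ae (Filter.Eventually.of_forall fun ξ => ?_)
          simp only
          rw [Complex.conj_mul']
          push_cast
          rfl
        rw [inner_self_eq_norm_sq_to_K] at h3
        have h4 : ((‖y‖ ^ 2 : ℝ) : ℂ) = ((∫ ξ, ‖(𝓕 y : L2d d) ξ‖ ^ 2 : ℝ) : ℂ) := by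
          rw [← h3]; push_cast; rfl
        exact Complex.ofReal_injective h4
      rw [h2, ← integral_const_mul]
      refine integral_mono_of_nonneg (Filter.Eventually.of_forall fun ξ => by positivity) ?_ ?_
      · exact ((Lp.memLp (𝓕 y : L2d d)).integrable_norm_pow (by norm_num)).const_mul _
      · filter_upwards [FR0 h y] with ξ hξ
        rw [hξ, norm_mul, mul_pow, Complex.norm_real, Real.norm_of_nonneg (m0_pos h ξ).le,
          ← mul_assoc]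
        refine mul_le_mul_of_nonneg_right ?_ (sq_nonneg _)
        have h3 : ‖ξ‖ ^ 2 ≤ lam ξ := by
          unfold lam
          apply pow_le_pow_left₀ (norm_nonneg _)
          have := Real.pi_gt_three
          nlinarith [norm_nonneg ξ]
        have h4 := m0_sq h ξ
        have h5 : m0 h ξ ^ 2 ≤ 1 := by
          have := m0_le h ξ
          have := m0_pos h ξ
          nlinarith
        have h6 : lam ξ * m0 h ξ ^ 2 ≤ (h ^ 2)⁻¹ := by
          rw [← one_div, le_div_iff₀ (by positivity)]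
          nlinarith [sq_nonneg (m0 h ξ)]
        have h7 : ‖ξ‖ ^ 2 * m0 h ξ ^ 2 ≤ lam ξ * m0 h ξ ^ 2 :=
          mul_le_mul_of_nonneg_right h3 (sq_nonneg _)
        linarith
    have h3 : ‖M₀ y‖ ^ 2 ≤ (√(w.C * (1 + (h ^ 2)⁻¹)) * ‖y‖) ^ 2 := by
      rw [mul_pow, Real.sq_sqrt h0]
      exact h1
    exact le_of_sq_le_sq h3 (by positivity)
  exact ⟨M₀.mkContinuous _ hb, fun y => rfl⟩

/-- The operator `F`, with `F F† = (T + 1)⁻¹` for `T = -h² Δ + U`. -/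
theorem exists_F (hh : 0 < h) : ∃ F : L2d d →L[ℂ] L2d d, ‖F‖ ≤ 1 ∧
    (∀ z, InH1 (F z) ∧ h ^ 2 * en (F z) + w.pot (F z) + ‖F z‖ ^ 2 = ‖z‖ ^ 2) ∧
    (∀ u, InH1 u → ∃ z, F z = u) ∧
    ∀ v φ, InH1 φ → ((h ^ 2 : ℝ) : ℂ) * dirichlet (F (adjoint F v)) φ +
      (∫ x, ((w.U x : ℝ) : ℂ) * (F (adjoint F v)) x * (starRingEnd ℂ) (φ x)) +
      ⟪φ, F (adjoint F v)⟫_ℂ = ⟪φ, v⟫_ℂ := by
  obtain ⟨M, hM⟩ := w.exists_M hh
  let L : L2d d →L[ℂ] L2d d := 1 + (adjoint M).comp M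
  have hL : ∀ y z, ⟪z, L y⟫_ℂ = ⟪z, y⟫_ℂ + ⟪M z, M y⟫_ℂ := by
    intro y z
    have h1 : L y = y + adjoint M (M y) := rfl
    rw [h1, inner_add_right, adjoint_inner_right]
  have hLs : ∀ y z, ⟪L z, y⟫_ℂ = ⟪z, L y⟫_ℂ := by
    intro y z
    rw [← inner_conj_symm, hL, hL, map_add, inner_conj_symm, inner_conj_symm]
  have hLyy : ∀ y, ⟪L y, y⟫_ℂ = ((‖y‖ ^ 2 + ‖M y‖ ^ 2 : ℝ) : ℂ) := by
    intro y
    rw [hLs, hL, inner_self_eq_norm_sq_to_K, inner_self_eq_norm_sq_to_K]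
    push_cast
    rfl
  have hLn : ∀ y, ‖y‖ ^ 2 ≤ ‖⟪L y, y⟫_ℂ‖ := by
    intro y
    rw [hLyy, Complex.norm_real, Real.norm_of_nonneg (by positivity)]
    linarith [sq_nonneg ‖M y‖]
  have hLu : IsUnit L := isUnit_of_forall_le_norm_inner_map (c := 1) L one_pos fun y => by
    have := hLn y
    simpa using this
  obtain ⟨Lu, hLu'⟩ := hLu
  obtain ⟨G, hG⟩ : ∃ G : L2d d →L[ℂ] L2d d, G = ((Lu⁻¹ : (L2d d →L[ℂ] L2d d)ˣ) : L2d d →L[ℂ] L2d d) :=
    ⟨_, rfl⟩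
  have hLG1 : L * G = 1 := by rw [hG, ← hLu']; exact Lu.mul_inv
  have hGL1 : G * L = 1 := by rw [hG, ← hLu']; exact Lu.inv_mul
  have hLG : ∀ y, L (G y) = y := fun y => congrArg (fun T : L2d d →L[ℂ] L2d d => T y) hLG1
  have hGL : ∀ y, G (L y) = y := fun y => congrArg (fun T : L2d d →L[ℂ] L2d d => T y) hGL1
  have hGs : ∀ y z, ⟪G z, y⟫_ℂ = ⟪z, G y⟫_ℂ := by
    intro y z
    calc ⟪G z, y⟫_ℂ = ⟪G z, L (G y)⟫_ℂ := by rw [hLG]
      _ = ⟪L (G z), G y⟫_ℂ := (hLs _ _).symm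
      _ = _ := by rw [hLG]
  have hGpos : G.IsPositive := by
    rw [isPositive_iff_complex]
    intro y
    have h1 : ⟪G y, y⟫_ℂ = ((‖G y‖ ^ 2 + ‖M (G y)‖ ^ 2 : ℝ) : ℂ) := by
      rw [← hLyy (G y), hLG, ← inner_conj_symm, ← hGs, inner_conj_symm, hGs]
    rw [h1]
    constructor
    · norm_cast
    · rw [RCLike.re_eq_complex_re, Complex.ofReal_re]
      positivity
  obtain ⟨N, hNp, hNN⟩ := exists_sqrt G hGpos
  have hNs : ∀ y z, ⟪N z, y⟫_ℂ = ⟪z, N y⟫_ℂ := fun y z => hNp.isSymmetric z y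
  have hNNu : ∀ y, N (N y) = G y := fun y => congrArg (fun T : L2d d →L[ℂ] L2d d => T y) hNN
  have hNL : N * L = L * N := by
    have e1 : (L * N) * N = 1 := by rw [mul_assoc, hNN, hLG1]
    have e2 : N * (N * L) = 1 := by rw [← mul_assoc, hNN, hGL1]
    calc N * L = ((L * N) * N) * (N * L) := by rw [e1, one_mul]
      _ = (L * N) * (N * (N * L)) := by rw [mul_assoc]
      _ = L * N := by rw [e2, mul_one]
  have hNLN : ∀ z, N (L (N z)) = z := by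
    intro z
    have h1 : N * L * N = 1 := by rw [hNL, mul_assoc, hNN, hLG1]
    exact congrArg (fun T : L2d d →L[ℂ] L2d d => T z) h1
  have hRadj : adjoint (R0 h : L2d d →L[ℂ] L2d d) = R0 h := by
    rw [eq_comm, eq_adjoint_iff]
    intro x y
    exact R0_sym h x y
  have hNadj : adjoint N = N := by
    rw [eq_comm, eq_adjoint_iff]
    intro x y
    exact hNs y x
  let F : L2d d →L[ℂ] L2d d := (R0 h).comp N
  have hFadj : adjoint F = N.comp (R0 h) := by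
    rw [adjoint_comp, hRadj, hNadj]
  have hFF : ∀ v, F (adjoint F v) = R0 h (G (R0 h v)) := by
    intro v
    rw [hFadj]
    change R0 h (N (N (R0 h v))) = _
    rw [hNNu]
  have hGn : ∀ y, ‖G y‖ ≤ ‖y‖ := by
    intro y
    have h1 := hLn (G y)
    rw [hLG] at h1
    have h2 := h1.trans (norm_inner_le_norm _ _)
    by_cases h0 : ‖G y‖ = 0
    · rw [h0]; exact norm_nonneg _
    · have : 0 < ‖G y‖ := lt_of_le_of_ne (norm_nonneg _) (Ne.symm h0)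
      nlinarith
  have hNn : ∀ y, ‖N y‖ ≤ ‖y‖ := by
    intro y
    have h1 : ‖N y‖ ^ 2 ≤ ‖G y‖ * ‖y‖ := by
      calc ‖N y‖ ^ 2 = ‖⟪N y, N y⟫_ℂ‖ := by rw [inner_self_eq_norm_sq_to_K, norm_pow]; simp
        _ = ‖⟪G y, y⟫_ℂ‖ := by rw [← hNs, hNNu]
        _ ≤ _ := norm_inner_le_norm _ _
    have h2 := hGn y
    have h3 : ‖N y‖ ^ 2 ≤ ‖y‖ ^ 2 := by nlinarith [norm_nonneg y]
    exact le_of_sq_le_sq h3 (norm_nonneg _)
  have hform : ∀ y, h ^ 2 * en (R0 h y) + w.pot (R0 h y) + ‖R0 h y‖ ^ 2 = ‖y‖ ^ 2 + ‖M y‖ ^ 2 := by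
    intro y
    have h1 := form_R0 hh y y
    rw [dirichlet_self, inner_self_eq_norm_sq_to_K, inner_self_eq_norm_sq_to_K] at h1
    have h2 : h ^ 2 * en (R0 h y) + ‖R0 h y‖ ^ 2 = ‖y‖ ^ 2 := by
      have h3 : ((h ^ 2 * en (R0 h y) + ‖R0 h y‖ ^ 2 : ℝ) : ℂ) = ((‖y‖ ^ 2 : ℝ) : ℂ) := by
        push_cast
        push_cast at h1
        exact h1
      exact Complex.ofReal_injective h3
    rw [hM y, w.norm_mul_sq]
    linarith
  refine ⟨F, ?_, ?_, ?_, ?_⟩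
  · refine opNorm_le_bound _ zero_le_one fun y => ?_
    rw [one_mul]
    exact (R0_norm h _).trans (hNn y)
  · intro z
    refine ⟨R0_H1 hh _, ?_⟩
    change h ^ 2 * en (R0 h (N z)) + w.pot (R0 h (N z)) + ‖R0 h (N z)‖ ^ 2 = ‖z‖ ^ 2
    rw [hform]
    have h1 := hLyy (N z)
    rw [← hNs, hNLN, inner_self_eq_norm_sq_to_K] at h1
    have h2 : ((‖z‖ ^ 2 : ℝ) : ℂ) = ((‖N z‖ ^ 2 + ‖M (N z)‖ ^ 2 : ℝ) : ℂ) := by
      rw [← h1]; push_cast; rfl
    exact (Complex.ofReal_injective h2).symm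
  · intro u hu
    obtain ⟨y, hy⟩ := R0_surj h u hu
    refine ⟨N (L y), ?_⟩
    change R0 h (N (N (L y))) = u
    rw [hNNu, hGL, hy]
  · intro v φ hφ
    obtain ⟨ψ, rfl⟩ := R0_surj h φ hφ
    rw [hFF]
    obtain ⟨y, hy⟩ : ∃ y, y = G (R0 h v) := ⟨_, rfl⟩
    rw [← hy]
    have h1 := form_R0 hh y ψ
    have h2 : ⟪M ψ, M y⟫_ℂ =
        ∫ x, ((w.U x : ℝ) : ℂ) * (R0 h y) x * (starRingEnd ℂ) ((R0 h ψ : L2d d) x) := by
      rw [hM, hM]
      exact w.inner_mul _ _ (R0_H1 hh y) (R0_H1 hh ψ)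
    have h3 : ⟪ψ, L y⟫_ℂ = ⟪R0 h ψ, v⟫_ℂ := by
      rw [hy, hLG, ← R0_sym]
    rw [hL, h2] at h3
    rw [← h3, ← h1]
    ring

end Weight

end

end Pool.Agent.V11260.CP
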