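import Pool.Agent.V11260.CP.Q2

/-!
# The potential and the link with the operator `-h² Δ + V`
-/

namespace Pool.Agent.V11260.CP

open MeasureTheory FourierTransform
open scoped InnerProductSpace ENNReal NNReal
open ContinuousLinearMap
open Pool.Agent.Helper209.CX (Ed L2d InH1 dirichlet IsHu)
open Pool.Agent.Helper41.CE (mulop BM mulop_spec mulop_norm mulop_inner)

noncomputable section

variable {d : ℕ}

open Classical in
/-- the indicator function of the complement of the unit ball -/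
def chi (x : Ed d) : ℝ := if 1 ≤ ‖x‖ then 1 else 0

open Classical in
/-- the real part of the potential -/
def WW (x : Ed d) : ℝ := if ‖x‖ < 1 then -Real.log (1 - ‖x‖) else 0

open Classical in
/-- the potential -/
def VV (x : Ed d) : ℂ := if ‖x‖ < 1 then ((-Real.log (1 - ‖x‖) : ℝ) : ℂ) + Complex.I else 0

lemma chi_meas : Measurable (chi : Ed d → ℝ) := by
  unfold chi
  exact Measurable.ite (measurableSet_le measurable_const measurable_norm) measurable_const
    measurable_const

lemma WW_meas : Measurable (WW : Ed d → ℝ) := by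
  unfold WW
  refine Measurable.ite (measurableSet_lt measurable_norm measurable_const) ?_ measurable_const
  fun_prop

lemma chi_nonneg (x : Ed d) : 0 ≤ chi x := by
  unfold chi; split_ifs <;> norm_num

lemma chi_le (x : Ed d) : chi x ≤ 1 := by
  unfold chi; split_ifs <;> norm_num

lemma chi_sq (x : Ed d) : chi x * chi x = chi x := by
  unfold chi; split_ifs <;> norm_num

lemma WW_nonneg (x : Ed d) : 0 ≤ WW x := by
  unfold WW
  split_ifs with h
  · have h1 : Real.log (1 - ‖x‖) ≤ 0 := Real.log_nonpos (by linarith) (by linarith [norm_nonneg x])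
    linarith
  · exact le_rfl

lemma VV_eq (x : Ed d) : VV x = ((WW x : ℝ) : ℂ) + Complex.I * (1 - ((chi x : ℝ) : ℂ)) := by
  unfold VV WW chi
  by_cases h : ‖x‖ < 1
  · rw [if_pos h, if_pos h, if_neg (not_le.2 h)]
    push_cast
    ring
  · rw [if_neg h, if_neg h, if_pos (not_lt.1 h)]
    push_cast
    ring

lemma chi_BM : BM (fun x : Ed d => ((chi x : ℝ) : ℂ)) :=
  ⟨Complex.measurable_ofReal.comp chi_meas, 1, fun x => by
    rw [Complex.norm_real, Real.norm_of_nonneg (chi_nonneg x)]; exact chi_le x⟩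

/-- multiplication by `chi` -/
def Gam (d : ℕ) : L2d d →L[ℂ] L2d d := mulop (fun x => ((chi x : ℝ) : ℂ))

lemma Gam_spec (u : L2d d) : (Gam d u : Ed d → ℂ) =ᵐ[volume] fun x => ((chi x : ℝ) : ℂ) * u x :=
  mulop_spec chi_BM u

lemma Gam_sym (u v : L2d d) : ⟪Gam d u, v⟫_ℂ = ⟪u, Gam d v⟫_ℂ := by
  unfold Gam
  rw [mulop_inner chi_BM]
  simp only [Complex.conj_ofReal]

lemma Gam_norm (u : L2d d) : ‖Gam d u‖ ≤ ‖u‖ := by
  have h1 : ‖Gam d‖ ≤ 1 := mulop_norm chi_BM 1 fun x => by
    rw [Complex.norm_real, Real.norm_of_nonneg (chi_nonneg x)]; exact chi_le x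
  have h2 := (Gam d).le_opNorm u
  nlinarith [norm_nonneg u]

lemma Gam_pos (u : L2d d) : 0 ≤ (⟪Gam d u, u⟫_ℂ).re := by
  have h1 : ⟪Gam d u, u⟫_ℂ = ((∫ x, chi x * ‖u x‖ ^ 2 : ℝ) : ℂ) := by
    rw [L2.inner_def, ← integral_complex_ofReal]
    refine integral_congr_ae ?_
    filter_upwards [Gam_spec u] with x hx
    rw [hx]
    simp only [RCLike.inner_apply, map_mul, Complex.conj_ofReal]
    have := Complex.mul_conj' (u x)
    push_cast
    linear_combination ((chi x : ℝ) : ℂ) * this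
  rw [h1, Complex.ofReal_re]
  exact integral_nonneg fun x => mul_nonneg (chi_nonneg x) (sq_nonneg _)

lemma pair_inner (u φ : L2d d) : ∫ x, u x * (starRingEnd ℂ) (φ x) = ⟪φ, u⟫_ℂ := by
  rw [L2.inner_def]
  refine integral_congr_ae (Filter.Eventually.of_forall fun x => ?_)
  simp only [RCLike.inner_apply]

lemma pair_int (u φ : L2d d) : Integrable (fun x => u x * (starRingEnd ℂ) (φ x)) volume := by
  have := L2.integrable_inner (𝕜 := ℂ) φ u
  refine this.congr (Filter.Eventually.of_forall fun x => ?_)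
  simp only [RCLike.inner_apply]

lemma pair_chi (u φ : L2d d) :
    ∫ x, ((chi x : ℝ) : ℂ) * u x * (starRingEnd ℂ) (φ x) = ⟪φ, Gam d u⟫_ℂ := by
  rw [← pair_inner]
  refine integral_congr_ae ?_
  filter_upwards [Gam_spec u] with x hx
  rw [hx]

lemma int_chi (u φ : L2d d) :
    Integrable (fun x => ((chi x : ℝ) : ℂ) * u x * (starRingEnd ℂ) (φ x)) volume := by
  refine (pair_int (Gam d u) φ).congr ?_
  filter_upwards [Gam_spec u] with x hx
  rw [hx]

/-- If `u = (T + 1)⁻¹ (f + (κ + i) Γ u)` then `H u = f + (i - 1) u`. -/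
theorem isHu_of {h κ : ℝ} (hh : 0 < h) (w : Weight d) (hw : ∀ x, w.U x = WW x + κ * chi x)
    (F : L2d d →L[ℂ] L2d d) (hF1 : ∀ z, InH1 (F z))
    (hF : ∀ v φ, InH1 φ → ((h ^ 2 : ℝ) : ℂ) * dirichlet (F (adjoint F v)) φ +
      (∫ x, ((w.U x : ℝ) : ℂ) * (F (adjoint F v)) x * (starRingEnd ℂ) (φ x)) +
      ⟪φ, F (adjoint F v)⟫_ℂ = ⟪φ, v⟫_ℂ)
    (u f : L2d d) (hu : u = F (adjoint F (f + ((κ : ℂ) + Complex.I) • Gam d u))) :
    IsHu h VV u (f + (Complex.I - 1) • u) := by
  have huH : InH1 u := by rw [hu]; exact hF1 _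
  refine ⟨huH, fun φ hφ => ?_⟩
  have h1 := hF (f + ((κ : ℂ) + Complex.I) • Gam d u) φ hφ
  rw [← hu] at h1
  have hU := w.int_pair u φ huH hφ
  have hc := int_chi u φ
  have hp := pair_int u φ
  have e : (fun x => VV x * u x * (starRingEnd ℂ) (φ x)) = fun x =>
      (((w.U x : ℝ) : ℂ) * u x * (starRingEnd ℂ) (φ x) -
        ((κ : ℂ) + Complex.I) * (((chi x : ℝ) : ℂ) * u x * (starRingEnd ℂ) (φ x))) +
        Complex.I * (u x * (starRingEnd ℂ) (φ x)) := by
    funext x
    rw [VV_eq, hw]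
    push_cast
    ring
  constructor
  · rw [e]
    exact (hU.sub (hc.const_mul _)).add (hp.const_mul _)
  · have hsub : Integrable (fun x => ((w.U x : ℝ) : ℂ) * u x * (starRingEnd ℂ) (φ x) -
        ((κ : ℂ) + Complex.I) * (((chi x : ℝ) : ℂ) * u x * (starRingEnd ℂ) (φ x))) volume :=
      hU.sub (hc.const_mul _)
    rw [e, integral_add hsub (hp.const_mul _),
      integral_sub hU (hc.const_mul _), integral_const_mul, integral_const_mul, pair_chi,
      pair_inner]
    have h2 : ∫ x, (f + (Complex.I - 1) • u : L2d d) x * (starRingEnd ℂ) (φ x) =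
        ⟪φ, f⟫_ℂ + (Complex.I - 1) * ⟪φ, u⟫_ℂ := by
      rw [pair_inner, inner_add_right, inner_smul_right]
    rw [h2]
    rw [inner_add_right, inner_smul_right] at h1
    linear_combination h1

end

end Pool.Agent.V11260.CP
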