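import Pool.Agent.V11260.CP.Q1
import Pool.Agent.Helper209.CX.K01

/-!
# Difference quotients and `H¹`
-/

namespace Pool.Agent.V11260.CP

open MeasureTheory FourierTransform Filter Topology
open scoped InnerProductSpace ENNReal NNReal
open Pool.Agent.Helper209.CX (Ed L2d InH1 dirichlet)
open Pool.Agent.Helper41.CE (mulop FT BM mulop_spec)

noncomputable section

variable {d : ℕ}

/-- translation: `(tr a u)(x) = u (x + a)` -/
def tr (a : Ed d) (u : L2d d) : L2d d :=
  Lp.compMeasurePreserving (fun x : Ed d => x + a) (measurePreserving_add_right volume a) u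

lemma tr_spec (a : Ed d) (u : L2d d) : (tr a u : Ed d → ℂ) =ᵐ[volume] fun x => u (x + a) :=
  Lp.coeFn_compMeasurePreserving u _

lemma tr_norm (a : Ed d) (u : L2d d) : ‖tr a u‖ = ‖u‖ := Lp.norm_compMeasurePreserving u _

lemma tr_add (a : Ed d) (u v : L2d d) : tr a (u + v) = tr a u + tr a v := map_add _ _ _

lemma tr_cont (a : Ed d) : Continuous (tr a : L2d d → L2d d) :=
  (Lp.isometry_compMeasurePreserving (measurePreserving_add_right volume a)).continuous

/-- `e^{2πi a·ξ}` -/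
def ex (a ξ : Ed d) : ℂ := Complex.exp (Complex.I * ((2 * Real.pi * inner ℝ a ξ : ℝ) : ℂ))

lemma ex_norm (a ξ : Ed d) : ‖ex a ξ‖ = 1 := by
  unfold ex
  rw [mul_comm, Complex.norm_exp_ofReal_mul_I]

lemma ex_BM (a : Ed d) : BM (ex a) := by
  refine ⟨?_, 1, fun ξ => (ex_norm a ξ).le⟩
  unfold ex
  fun_prop

lemma F_tr_fun (a : Ed d) (f : Ed d → ℂ) (h1 : Integrable f volume) (h2 : MemLp f 2 volume) :
    FT d (tr a (h2.toLp f)) = mulop (ex a) (FT d (h2.toLp f)) := by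
  have h3 : MemLp (f ∘ fun x => x + a) 2 volume :=
    h2.comp_measurePreserving (measurePreserving_add_right volume a)
  have h4 : Integrable (f ∘ fun x => x + a) volume :=
    (measurePreserving_add_right volume a).integrable_comp_of_integrable h1
  have h5 : tr a (h2.toLp f) = h3.toLp _ := rfl
  apply Lp.ext
  rw [h5]
  filter_upwards [Pool.Agent.Helper209.CX.K01.d1_fourier d f h1 h2,
    Pool.Agent.Helper209.CX.K01.d1_fourier d _ h4 h3,
    mulop_spec (ex_BM a) (FT d (h2.toLp f))] with ξ e1 e2 e3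
  rw [e3]
  have e1' : (FT d (h2.toLp f) : Ed d → ℂ) ξ =
      ∫ x : Ed d, Complex.exp (-(2 * Real.pi * Complex.I * ((inner ℝ x ξ : ℝ) : ℂ))) * f x := e1
  have e2' : (FT d (h3.toLp (f ∘ fun x => x + a)) : Ed d → ℂ) ξ =
      ∫ x : Ed d, Complex.exp (-(2 * Real.pi * Complex.I * ((inner ℝ x ξ : ℝ) : ℂ))) *
        (f ∘ fun x => x + a) x := e2
  rw [e1', e2', ← integral_const_mul]
  rw [← integral_sub_right_eq_self (fun x : Ed d =>
    Complex.exp (-(2 * Real.pi * Complex.I * ((inner ℝ x ξ : ℝ) : ℂ))) * (f ∘ fun x => x + a) x) a]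
  refine integral_congr_ae (Filter.Eventually.of_forall fun x => ?_)
  simp only [Function.comp_apply, sub_add_cancel]
  rw [← mul_assoc]
  congr 1
  unfold ex
  rw [← Complex.exp_add]
  congr 1
  rw [inner_sub_left]
  push_cast
  ring

lemma F_tr (a : Ed d) (u : L2d d) : FT d (tr a u) = mulop (ex a) (FT d u) := by
  refine Lp.induction (p := 2) (by norm_num) (motive := fun u : L2d d =>
    FT d (tr a u) = mulop (ex a) (FT d u)) ?_ ?_ ?_ u
  · intro c s hs hμs
    have h2 : MemLp (s.indicator fun _ : Ed d => c) 2 (volume : Measure (Ed d)) :=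
      memLp_indicator_const 2 hs c (Or.inr hμs.ne)
    have h1 : Integrable (s.indicator fun _ : Ed d => c) (volume : Measure (Ed d)) :=
      memLp_one_iff_integrable.1 (memLp_indicator_const 1 hs c (Or.inr hμs.ne))
    have h3 := F_tr_fun a _ h1 h2
    have h4 : ((Lp.simpleFunc.indicatorConst 2 hs hμs.ne c : Lp.simpleFunc ℂ 2 volume) : L2d d) =
        h2.toLp _ := Lp.simpleFunc.coe_indicatorConst hs hμs.ne c
    rw [h4]
    exact h3
  · intro f g hf hg _ e1 e2
    rw [tr_add, map_add, map_add, map_add, e1, e2]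
  · exact isClosed_eq ((FT d).continuous.comp (tr_cont a))
      ((mulop (ex a)).continuous.comp (FT d).continuous)

lemma F_tr_spec (a : Ed d) (u : L2d d) :
    (𝓕 (tr a u) : L2d d) =ᵐ[volume] fun ξ => ex a ξ * (𝓕 u : L2d d) ξ := by
  have h1 : (𝓕 (tr a u) : L2d d) = mulop (ex a) (𝓕 u : L2d d) := F_tr a u
  rw [h1]
  exact mulop_spec (ex_BM a) _

lemma F_tr_sub (a : Ed d) (u : L2d d) :
    (𝓕 (tr a u - u) : L2d d) =ᵐ[volume] fun ξ => (ex a ξ - 1) * (𝓕 u : L2d d) ξ := by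
  have h0 : (𝓕 (tr a u - u) : L2d d) = 𝓕 (tr a u) - 𝓕 u := map_sub (FT d) _ _
  rw [h0]
  filter_upwards [Lp.coeFn_sub (𝓕 (tr a u) : L2d d) (𝓕 u), F_tr_spec a u] with ξ h1 h2
  rw [h1, Pi.sub_apply, h2]
  ring

/-- `⟨tr v - v, tr u - u⟩` through the Fourier transform -/
lemma inner_tr (a : Ed d) (u v : L2d d) :
    ⟪tr a v - v, tr a u - u⟫_ℂ = ∫ ξ, ((‖ex a ξ - 1‖ ^ 2 : ℝ) : ℂ) * ((𝓕 u : L2d d) ξ *
      (starRingEnd ℂ) ((𝓕 v : L2d d) ξ)) := by
  rw [inner_eq_F]
  refine integral_congr_ae ?_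
  filter_upwards [F_tr_sub a u, F_tr_sub a v] with ξ h1 h2
  rw [h1, h2, map_mul]
  have h3 := Complex.conj_mul' (ex a ξ - 1)
  push_cast
  linear_combination ((𝓕 u : L2d d) ξ * (starRingEnd ℂ) ((𝓕 v : L2d d) ξ)) * h3

/-- the unit vectors -/
def ev (j : Fin d) : Ed d := EuclideanSpace.single j 1

lemma inner_ev (t : ℝ) (j : Fin d) (ξ : Ed d) : inner ℝ (t • ev j) ξ = t * ξ j := by
  unfold ev
  rw [real_inner_smul_left, EuclideanSpace.inner_single_left]
  simp

/-- the symbol of the difference quotients -/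
def sy (t : ℝ) (ξ : Ed d) : ℝ := (t ^ 2)⁻¹ * ∑ j, ‖ex (t • ev j) ξ - 1‖ ^ 2

lemma sy_nonneg (t : ℝ) (ξ : Ed d) : 0 ≤ sy t ξ := by
  unfold sy
  positivity

lemma ex_sub_le (t : ℝ) (j : Fin d) (ξ : Ed d) :
    ‖ex (t • ev j) ξ - 1‖ ^ 2 ≤ t ^ 2 * (2 * Real.pi * ξ j) ^ 2 := by
  unfold ex
  have h1 := Real.norm_exp_I_mul_ofReal_sub_one_le (x := 2 * Real.pi * inner ℝ (t • ev j) ξ)
  have h2 := pow_le_pow_left₀ (norm_nonneg _) h1 2
  refine h2.trans (le_of_eq ?_)
  rw [inner_ev, Real.norm_eq_abs, sq_abs]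
  ring

lemma lam_sum (ξ : Ed d) : lam ξ = ∑ j, (2 * Real.pi * ξ j) ^ 2 := by
  unfold lam
  rw [mul_pow, EuclideanSpace.real_norm_sq_eq, Finset.mul_sum]
  exact Finset.sum_congr rfl fun j _ => by ring

lemma sy_le {t : ℝ} (ht : t ≠ 0) (ξ : Ed d) : sy t ξ ≤ lam ξ := by
  unfold sy
  rw [lam_sum, inv_mul_le_iff₀ (by positivity), Finset.mul_sum]
  exact Finset.sum_le_sum fun j _ => ex_sub_le t j ξ

/-- the sequence of steps -/
def st (n : ℕ) : ℝ := 1 / ((n : ℝ) + 1)

lemma st_pos (n : ℕ) : 0 < st n := by unfold st; positivity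

lemma st_tendsto : Tendsto st atTop (𝓝 0) := tendsto_one_div_add_atTop_nhds_zero_nat

lemma ex_lim (c : ℝ) : Tendsto (fun n => (st n ^ 2)⁻¹ *
    ‖Complex.exp (Complex.I * ((st n * c : ℝ) : ℂ)) - 1‖ ^ 2) atTop (𝓝 (c ^ 2)) := by
  have h1 : HasDerivAt (fun t : ℝ => Complex.exp (Complex.I * ((t * c : ℝ) : ℂ)))
      (Complex.exp (Complex.I * ((0 * c : ℝ) : ℂ)) * (Complex.I * (c : ℂ))) 0 := by
    have h2 : HasDerivAt (fun t : ℝ => Complex.I * ((t * c : ℝ) : ℂ)) (Complex.I * (c : ℂ)) 0 := by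
      have h3 : HasDerivAt (fun t : ℝ => ((t * c : ℝ) : ℂ)) (c : ℂ) 0 := by
        have := (hasDerivAt_mul_const (x := (0 : ℝ)) c).ofReal_comp
        exact this
      exact h3.const_mul Complex.I
    exact h2.cexp
  have h2 := h1.tendsto_slope_zero
  have h3 : Tendsto st atTop (𝓝[≠] 0) := tendsto_nhdsWithin_iff.2
    ⟨st_tendsto, Filter.Eventually.of_forall fun n => (st_pos n).ne'⟩
  have h4 := (h2.comp h3).norm.pow 2
  have h5 : ‖Complex.exp (Complex.I * ((0 * c : ℝ) : ℂ)) * (Complex.I * (c : ℂ))‖ ^ 2 = c ^ 2 := by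
    simp
  rw [h5] at h4
  refine h4.congr fun n => ?_
  simp only [Function.comp_apply, zero_add, zero_mul, Complex.ofReal_zero, mul_zero,
    Complex.exp_zero]
  rw [norm_smul, mul_pow, norm_inv, inv_pow, Real.norm_of_nonneg (st_pos n).le]

lemma sy_lim (ξ : Ed d) : Tendsto (fun n => sy (st n) ξ) atTop (𝓝 (lam ξ)) := by
  rw [lam_sum]
  unfold sy
  simp_rw [Finset.mul_sum]
  refine tendsto_finsetSum _ fun j _ => ?_
  refine (ex_lim (2 * Real.pi * ξ j)).congr fun n => ?_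
  unfold ex
  rw [inner_ev]
  congr 5
  push_cast
  ring

/-- the difference quotient form -/
def Dq (t : ℝ) (u v : L2d d) : ℂ :=
  (((t ^ 2)⁻¹ : ℝ) : ℂ) * ∑ j : Fin d, ⟪tr (t • ev j) v - v, tr (t • ev j) u - u⟫_ℂ

lemma ex_meas (a : Ed d) : Measurable (ex a) := (ex_BM a).1

lemma int_uv (u v : L2d d) :
    Integrable (fun ξ => (𝓕 u : L2d d) ξ * (starRingEnd ℂ) ((𝓕 v : L2d d) ξ)) volume := by
  refine (int_F v u).congr (Filter.Eventually.of_forall fun ξ => ?_)
  simp only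
  ring

lemma sy_meas (t : ℝ) : Measurable (sy t : Ed d → ℝ) := by
  unfold sy
  refine Measurable.const_mul ?_ _
  refine Finset.measurable_sum _ fun j _ => ?_
  exact ((ex_meas _).sub_const 1).norm.pow_const 2

lemma Dq_eq {t : ℝ} (ht : t ≠ 0) (u v : L2d d) :
    Dq t u v = ∫ ξ, ((sy t ξ : ℝ) : ℂ) * ((𝓕 u : L2d d) ξ *
      (starRingEnd ℂ) ((𝓕 v : L2d d) ξ)) := by
  unfold Dq
  simp_rw [inner_tr]
  rw [← integral_finsetSum, ← integral_const_mul]
  · refine integral_congr_ae (Filter.Eventually.of_forall fun ξ => ?_)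
    simp only
    rw [← Finset.sum_mul, ← mul_assoc]
    congr 1
    unfold sy
    push_cast
    rfl
  · intro j _
    refine Integrable.bdd_mul (c := 4) (int_uv u v) ?_ ?_
    · exact (Complex.measurable_ofReal.comp
        (((ex_meas _).sub_const 1).norm.pow_const 2)).aestronglyMeasurable
    · refine Filter.Eventually.of_forall fun ξ => ?_
      rw [Complex.norm_real, Real.norm_of_nonneg (sq_nonneg _)]
      have h1 : ‖ex (t • ev j) ξ - 1‖ ≤ 2 := by
        refine (norm_sub_le _ _).trans ?_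
        rw [ex_norm, norm_one]
        norm_num
      nlinarith [norm_nonneg (ex (t • ev j) ξ - 1)]

/-- the difference quotients converge to the Dirichlet form on `H¹` -/
theorem Dq_lim (u v : L2d d) (hu : InH1 u) (hv : InH1 v) :
    Tendsto (fun n => Dq (st n) u v) atTop (𝓝 (dirichlet u v)) := by
  have h0 : dirichlet u v = ∫ ξ, ((lam ξ : ℝ) : ℂ) * ((𝓕 u : L2d d) ξ *
      (starRingEnd ℂ) ((𝓕 v : L2d d) ξ)) := by
    unfold dirichlet lam
    refine integral_congr_ae (Filter.Eventually.of_forall fun ξ => ?_)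
    simp only
    ring
  rw [h0]
  have h1 : (fun n => Dq (st n) u v) = fun n => ∫ ξ, ((sy (st n) ξ : ℝ) : ℂ) * ((𝓕 u : L2d d) ξ *
      (starRingEnd ℂ) ((𝓕 v : L2d d) ξ)) := by
    funext n
    exact Dq_eq (st_pos n).ne' u v
  rw [h1]
  refine tendsto_integral_of_dominated_convergence
    (fun ξ => ‖((lam ξ : ℝ) : ℂ) * ((𝓕 u : L2d d) ξ * (starRingEnd ℂ) ((𝓕 v : L2d d) ξ))‖)
    ?_ ?_ ?_ ?_
  · intro n
    exact (Complex.measurable_ofReal.comp (sy_meas _)).aestronglyMeasurable.mul (int_uv u v).1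
  · refine Integrable.norm ?_
    refine (Pool.Agent.Helper209.CX.K31.isHu_zero_int u v hu hv).congr
      (Filter.Eventually.of_forall fun ξ => ?_)
    simp only
    unfold lam
    ring
  · intro n
    refine Filter.Eventually.of_forall fun ξ => ?_
    rw [norm_mul, norm_mul ((lam ξ : ℝ) : ℂ), Complex.norm_real, Complex.norm_real,
      Real.norm_of_nonneg (sy_nonneg _ ξ), Real.norm_of_nonneg (lam_nonneg ξ)]
    exact mul_le_mul_of_nonneg_right (sy_le (st_pos n).ne' ξ) (norm_nonneg _)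
  · refine Filter.Eventually.of_forall fun ξ => ?_
    refine Tendsto.mul_const _ ?_
    exact (Complex.continuous_ofReal.tendsto _).comp (sy_lim ξ)

lemma Dq_self {t : ℝ} (ht : t ≠ 0) (u : L2d d) :
    Dq t u u = ((∫ ξ, sy t ξ * ‖(𝓕 u : L2d d) ξ‖ ^ 2 : ℝ) : ℂ) := by
  rw [Dq_eq ht, ← integral_complex_ofReal]
  refine integral_congr_ae (Filter.Eventually.of_forall fun ξ => ?_)
  simp only
  rw [Complex.mul_conj']
  push_cast
  rfl

lemma sy_int {t : ℝ} (ht : t ≠ 0) (u : L2d d) :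
    Integrable (fun ξ => sy t ξ * ‖(𝓕 u : L2d d) ξ‖ ^ 2) volume := by
  have h1 : Integrable (fun ξ => ‖(𝓕 u : L2d d) ξ‖ ^ 2) volume :=
    (Lp.memLp (𝓕 u : L2d d)).integrable_norm_pow (by norm_num)
  refine Integrable.bdd_mul (c := (t ^ 2)⁻¹ * (d * 4)) h1 (sy_meas t).aestronglyMeasurable ?_
  refine Filter.Eventually.of_forall fun ξ => ?_
  rw [Real.norm_of_nonneg (sy_nonneg t ξ)]
  unfold sy
  refine mul_le_mul_of_nonneg_left ?_ (by positivity)
  have h2 : ∀ j ∈ (Finset.univ : Finset (Fin d)), ‖ex (t • ev j) ξ - 1‖ ^ 2 ≤ 4 := by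
    intro j _
    have h1 : ‖ex (t • ev j) ξ - 1‖ ≤ 2 := by
      refine (norm_sub_le _ _).trans ?_
      rw [ex_norm, norm_one]
      norm_num
    nlinarith [norm_nonneg (ex (t • ev j) ξ - 1)]
  have h3 := Finset.sum_le_card_nsmul _ _ _ h2
  rw [Finset.card_univ, Fintype.card_fin, nsmul_eq_mul] at h3
  exact h3

/-- bounded difference quotients: `u ∈ H¹` -/
theorem H1_of_Dq (u : L2d d) (C : ℝ) (hC : ∀ᶠ n in atTop, (Dq (st n) u u).re ≤ C) :
    InH1 u ∧ en u ≤ C := by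
  have hC0 : 0 ≤ C := by
    obtain ⟨n, hn⟩ := hC.exists
    rw [Dq_self (st_pos n).ne', Complex.ofReal_re] at hn
    exact le_trans (integral_nonneg fun ξ => mul_nonneg (sy_nonneg _ _) (sq_nonneg _)) hn
  have h1 : ∫⁻ ξ, ENNReal.ofReal (lam ξ * ‖(𝓕 u : L2d d) ξ‖ ^ 2) ≤ ENNReal.ofReal C := by
    have h2 : ∀ ξ, ENNReal.ofReal (lam ξ * ‖(𝓕 u : L2d d) ξ‖ ^ 2) =
        liminf (fun n => ENNReal.ofReal (sy (st n) ξ * ‖(𝓕 u : L2d d) ξ‖ ^ 2)) atTop := by
      intro ξ
      refine (Tendsto.liminf_eq ?_).symm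
      exact (ENNReal.continuous_ofReal.tendsto _).comp ((sy_lim ξ).mul_const _)
    simp_rw [h2]
    refine (lintegral_liminf_le' fun n => ?_).trans ?_
    · exact ENNReal.measurable_ofReal.comp_aemeasurable
        ((sy_int (st_pos n).ne' u).1.aemeasurable)
    · refine liminf_le_of_frequently_le' (Filter.Eventually.frequently ?_)
      filter_upwards [hC] with n hn
      rw [Dq_self (st_pos n).ne', Complex.ofReal_re] at hn
      rw [← ofReal_integral_eq_lintegral_ofReal (sy_int (st_pos n).ne' u)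
        (Filter.Eventually.of_forall fun ξ => mul_nonneg (sy_nonneg _ _) (sq_nonneg _))]
      exact ENNReal.ofReal_le_ofReal hn
  have hm : AEStronglyMeasurable (fun ξ => lam ξ * ‖(𝓕 u : L2d d) ξ‖ ^ 2) volume :=
    lam_meas.aestronglyMeasurable.mul ((Lp.aestronglyMeasurable (𝓕 u : L2d d)).norm.pow 2)
  have hint : Integrable (fun ξ => lam ξ * ‖(𝓕 u : L2d d) ξ‖ ^ 2) volume := by
    refine ⟨hm, ?_⟩
    rw [hasFiniteIntegral_iff_ofReal
      (Filter.Eventually.of_forall fun ξ => mul_nonneg (lam_nonneg _) (sq_nonneg _))]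
    exact lt_of_le_of_lt h1 ENNReal.ofReal_lt_top
  constructor
  · unfold InH1
    have hm2 : AEStronglyMeasurable (fun ξ : Ed d => (‖ξ‖ : ℂ) * (𝓕 u : L2d d) ξ) volume := by
      refine AEStronglyMeasurable.mul ?_ (Lp.aestronglyMeasurable (𝓕 u : L2d d))
      exact Continuous.aestronglyMeasurable (by fun_prop)
    rw [memLp_two_iff_integrable_sq_norm hm2]
    refine (hint.const_mul (((2 * Real.pi) ^ 2)⁻¹)).congr
      (Filter.Eventually.of_forall fun ξ => ?_)
    simp only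
    rw [norm_mul, Complex.norm_real, norm_norm]
    unfold lam
    have : (2 * Real.pi) ≠ 0 := by positivity
    field_simp
  · unfold en
    rw [← ENNReal.ofReal_le_ofReal_iff hC0, ofReal_integral_eq_lintegral_ofReal hint
      (Filter.Eventually.of_forall fun ξ => mul_nonneg (lam_nonneg _) (sq_nonneg _))]
    exact h1

end

end Pool.Agent.V11260.CP
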