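import Pool.Agent.V11260.CP.Q3
import Pool.Agent.V11260.CP.Q4

/-!
# Exponential decay of the low eigenfunctions outside the unit ball
-/

namespace Pool.Agent.V11260.CP

open MeasureTheory FourierTransform Filter Topology
open scoped InnerProductSpace ENNReal NNReal
open ContinuousLinearMap
open Pool.Agent.Helper209.CX (Ed L2d InH1 dirichlet)
open Pool.Agent.Helper41.CE (mulop FT BM mulop_spec mulop_norm mulop_inner mulop_mul mulop_add)

noncomputable section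

variable {d : ℕ}

/-- A real cut-off function. -/
structure Cut (d : ℕ) where
  f : Ed d → ℝ
  meas : Measurable f
  nonneg : ∀ x, 0 ≤ f x
  le : ∀ x, f x ≤ 1
  l : ℝ
  hl : 0 ≤ l
  lip : ∀ x y, |f x - f y| ≤ l * ‖x - y‖

lemma BM_real {f : Ed d → ℝ} (hf : Measurable f) (C : ℝ) (h : ∀ x, |f x| ≤ C) :
    BM (fun x => ((f x : ℝ) : ℂ)) :=
  ⟨Complex.measurable_ofReal.comp hf, C, fun x => by
    rw [Complex.norm_real, Real.norm_eq_abs]; exact h x⟩

/-- multiplication by a real function -/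
def mr (f : Ed d → ℝ) : L2d d →L[ℂ] L2d d := mulop (fun x => ((f x : ℝ) : ℂ))

lemma mr_spec {f : Ed d → ℝ} (hf : Measurable f) (C : ℝ) (h : ∀ x, |f x| ≤ C) (u : L2d d) :
    (mr f u : Ed d → ℂ) =ᵐ[volume] fun x => ((f x : ℝ) : ℂ) * u x :=
  mulop_spec (BM_real hf C h) u

lemma mr_norm {f : Ed d → ℝ} (hf : Measurable f) (C : ℝ) (h : ∀ x, |f x| ≤ C) (u : L2d d) :
    ‖mr f u‖ ≤ C * ‖u‖ := by
  have h1 : ‖mr f‖ ≤ C := mulop_norm (BM_real hf C h) C fun x => by
    rw [Complex.norm_real, Real.norm_eq_abs]; exact h x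
  exact ((mr f).le_opNorm u).trans (mul_le_mul_of_nonneg_right h1 (norm_nonneg _))

lemma norm_sq_int (u : L2d d) : ‖u‖ ^ 2 = ∫ x, ‖u x‖ ^ 2 := by
  have h3 : ⟪u, u⟫_ℂ = ((∫ x, ‖u x‖ ^ 2 : ℝ) : ℂ) := by
    rw [L2.inner_def, ← integral_complex_ofReal]
    refine integral_congr_ae (Filter.Eventually.of_forall fun ξ => ?_)
    simp only [RCLike.inner_apply]
    rw [Complex.mul_conj']
    push_cast
    rfl
  rw [inner_self_eq_norm_sq_to_K] at h3
  have h4 : ((‖u‖ ^ 2 : ℝ) : ℂ) = ((∫ x, ‖u x‖ ^ 2 : ℝ) : ℂ) := by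
    rw [← h3]; push_cast; rfl
  exact Complex.ofReal_injective h4

lemma sq_integrable (u : L2d d) : Integrable (fun x => ‖u x‖ ^ 2) volume :=
  (Lp.memLp u).integrable_norm_pow (by norm_num)

lemma ae_shift (a : Ed d) {p : Ed d → Prop} (h : ∀ᵐ x ∂volume, p x) :
    ∀ᵐ x ∂volume, p (x + a) :=
  (measurePreserving_add_right volume a).quasiMeasurePreserving.ae h

lemma tr_sub (a : Ed d) (u v : L2d d) : tr a (u - v) = tr a u - tr a v := map_sub _ _ _

/-- the square of the cut-off -/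
lemma Cut.lip_sq (c : Cut d) (x y : Ed d) : |c.f x ^ 2 - c.f y ^ 2| ≤ 2 * c.l * ‖x - y‖ := by
  have h1 : c.f x ^ 2 - c.f y ^ 2 = (c.f x + c.f y) * (c.f x - c.f y) := by ring
  rw [h1, abs_mul]
  have h2 : |c.f x + c.f y| ≤ 2 := by
    rw [abs_of_nonneg (add_nonneg (c.nonneg x) (c.nonneg y))]
    linarith [c.le x, c.le y]
  calc |c.f x + c.f y| * |c.f x - c.f y| ≤ 2 * (c.l * ‖x - y‖) :=
        mul_le_mul h2 (c.lip x y) (abs_nonneg _) (by norm_num)
    _ = _ := by ring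

/-- `H¹` is stable under multiplication by bounded Lipschitz functions. -/
theorem H1_mul {f : Ed d → ℝ} (hf : Measurable f) (h1 : ∀ x, |f x| ≤ 1) (l : ℝ) (hl : 0 ≤ l)
    (hlip : ∀ x y, |f x - f y| ≤ l * ‖x - y‖) (u : L2d d) (hu : InH1 u) :
    InH1 (mr f u) ∧ en (mr f u) ≤ 2 * (en u + 1) + 2 * d * l ^ 2 * ‖u‖ ^ 2 := by
  have hlim := Dq_lim u u hu hu
  rw [dirichlet_self] at hlim
  have hlim2 : Tendsto (fun n => (Dq (st n) u u).re) atTop (𝓝 (en u)) := by
    have := (Complex.continuous_re.tendsto _).comp hlim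
    rw [Complex.ofReal_re] at this
    exact this
  have hev : ∀ᶠ n in atTop, (Dq (st n) u u).re < en u + 1 :=
    hlim2.eventually (gt_mem_nhds (by linarith))
  refine H1_of_Dq _ _ ?_
  filter_upwards [hev] with n hn
  set t := st n with ht
  have ht0 : 0 < t := st_pos n
  have key : ∀ j : Fin d, ‖tr (t • ev j) (mr f u) - mr f u‖ ^ 2 ≤
      2 * ‖tr (t • ev j) u - u‖ ^ 2 + 2 * (l ^ 2 * t ^ 2 * ‖u‖ ^ 2) := by
    intro j
    set a := t • (ev j : Ed d) with ha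
    have han : ‖a‖ = t := by
      rw [ha, norm_smul, Real.norm_of_nonneg ht0.le]
      unfold ev
      simp
    rw [norm_sq_int, norm_sq_int (tr a u - u), norm_sq_int u, ← integral_const_mul,
      ← integral_const_mul, ← integral_const_mul, ← integral_add]
    · refine integral_mono_ae (sq_integrable _) ?_ ?_
      · exact ((sq_integrable _).const_mul _).add (((sq_integrable u).const_mul _).const_mul _)
      · filter_upwards [Lp.coeFn_sub (tr a (mr f u)) (mr f u), Lp.coeFn_sub (tr a u) u,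
          tr_spec a u, tr_spec a (mr f u), mr_spec hf 1 h1 u, ae_shift a (mr_spec hf 1 h1 u)]
          with x e1 e2 e3 e4 e5 e6
        rw [e1, e2, Pi.sub_apply, Pi.sub_apply, e3, e4, e5, e6]
        have e7 : ((f (x + a) : ℝ) : ℂ) * u (x + a) - ((f x : ℝ) : ℂ) * u x =
            ((f (x + a) : ℝ) : ℂ) * (u (x + a) - u x) + ((f (x + a) - f x : ℝ) : ℂ) * u x := by
          push_cast; ring
        rw [e7]
        have n1 : ‖((f (x + a) : ℝ) : ℂ) * (u (x + a) - u x)‖ ≤ ‖u (x + a) - u x‖ := by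
          rw [norm_mul, Complex.norm_real, Real.norm_eq_abs]
          have := mul_le_mul_of_nonneg_right (h1 (x + a)) (norm_nonneg (u (x + a) - u x))
          linarith
        have n2 : ‖((f (x + a) - f x : ℝ) : ℂ) * u x‖ ≤ l * t * ‖u x‖ := by
          rw [norm_mul, Complex.norm_real, Real.norm_eq_abs]
          refine mul_le_mul_of_nonneg_right ((hlip _ _).trans (le_of_eq ?_)) (norm_nonneg _)
          rw [add_sub_cancel_left, han]
        have n3 := (norm_add_le (((f (x + a) : ℝ) : ℂ) * (u (x + a) - u x))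
          (((f (x + a) - f x : ℝ) : ℂ) * u x)).trans (add_le_add n1 n2)
        have n4 := pow_le_pow_left₀ (norm_nonneg _) n3 2
        refine n4.trans ?_
        nlinarith [sq_nonneg (‖u (x + a) - u x‖ - l * t * ‖u x‖)]
    · exact (sq_integrable _).const_mul _
    · exact ((sq_integrable u).const_mul _).const_mul _
  have hre : ∀ v : L2d d, (Dq t v v).re = (t ^ 2)⁻¹ * ∑ j, ‖tr (t • ev j) v - v‖ ^ 2 := by
    intro v
    unfold Dq
    rw [Complex.re_ofReal_mul, Complex.re_sum]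
    congr 1
    refine Finset.sum_congr rfl fun j _ => ?_
    rw [inner_self_eq_norm_sq_to_K]
    norm_cast
  rw [hre] at hn ⊢
  have hsum : ∑ j : Fin d, ‖tr (t • ev j) (mr f u) - mr f u‖ ^ 2 ≤
      2 * ∑ j : Fin d, ‖tr (t • ev j) u - u‖ ^ 2 + d * (2 * (l ^ 2 * t ^ 2 * ‖u‖ ^ 2)) := by
    refine (Finset.sum_le_sum fun j _ => key j).trans (le_of_eq ?_)
    rw [Finset.sum_add_distrib, ← Finset.mul_sum, Finset.sum_const, Finset.card_univ,
      Fintype.card_fin, nsmul_eq_mul]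
  have ht2 : 0 < t ^ 2 := by positivity
  calc (t ^ 2)⁻¹ * ∑ j : Fin d, ‖tr (t • ev j) (mr f u) - mr f u‖ ^ 2
      ≤ (t ^ 2)⁻¹ * (2 * ∑ j : Fin d, ‖tr (t • ev j) u - u‖ ^ 2 +
        d * (2 * (l ^ 2 * t ^ 2 * ‖u‖ ^ 2))) :=
        mul_le_mul_of_nonneg_left hsum (inv_pos.2 ht2).le
    _ = 2 * ((t ^ 2)⁻¹ * ∑ j : Fin d, ‖tr (t • ev j) u - u‖ ^ 2) + 2 * d * l ^ 2 * ‖u‖ ^ 2 := by
        field_simp
    _ ≤ _ := by linarith

lemma alg_ims (a b : ℂ) (α β : ℝ) (hα : 0 ≤ α) (hβ : 0 ≤ β) :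
    -((α - β) ^ 2 * (‖a‖ * ‖b‖)) ≤
      ((b - a) * (starRingEnd ℂ) (((β ^ 2 : ℝ) : ℂ) * b - ((α ^ 2 : ℝ) : ℂ) * a)).re := by
  have h1 : ((b - a) * (starRingEnd ℂ) (((β ^ 2 : ℝ) : ℂ) * b - ((α ^ 2 : ℝ) : ℂ) * a)).re =
      β ^ 2 * ‖b‖ ^ 2 + α ^ 2 * ‖a‖ ^ 2 - (α ^ 2 + β ^ 2) * (a * (starRingEnd ℂ) b).re := by
    have e1 : ‖a‖ ^ 2 = a.re * a.re + a.im * a.im := by
      rw [← Complex.normSq_eq_norm_sq, Complex.normSq_apply]
    have e2 : ‖b‖ ^ 2 = b.re * b.re + b.im * b.im := by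
      rw [← Complex.normSq_eq_norm_sq, Complex.normSq_apply]
    rw [e1, e2]
    simp only [map_sub, map_mul, Complex.conj_ofReal, Complex.mul_re, Complex.sub_re,
      Complex.sub_im, Complex.mul_im, Complex.ofReal_re, Complex.ofReal_im, Complex.conj_re,
      Complex.conj_im]
    ring
  rw [h1]
  have h2 : (a * (starRingEnd ℂ) b).re ≤ ‖a‖ * ‖b‖ := by
    refine (Complex.re_le_norm _).trans (le_of_eq ?_)
    rw [norm_mul, RCLike.norm_conj]
  have h3 : 0 ≤ 2 * (α * β) := by positivity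
  nlinarith [sq_nonneg (β * ‖b‖ - α * ‖a‖), mul_le_mul_of_nonneg_left h2 h3,
    mul_le_mul_of_nonneg_left h2 (sq_nonneg (α - β)), norm_nonneg a, norm_nonneg b]

open Classical in
/-- the indicator function of `{‖x‖ ≥ r}` -/
def ind (r : ℝ) (x : Ed d) : ℝ := if r ≤ ‖x‖ then 1 else 0

lemma ind_meas (r : ℝ) : Measurable (ind r : Ed d → ℝ) := by
  unfold ind
  exact Measurable.ite (measurableSet_le measurable_const measurable_norm) measurable_const
    measurable_const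

lemma ind_nonneg (r : ℝ) (x : Ed d) : 0 ≤ ind r x := by
  unfold ind; split_ifs <;> norm_num

lemma ind_le (r : ℝ) (x : Ed d) : ind r x ≤ 1 := by
  unfold ind; split_ifs <;> norm_num

lemma ind_abs (r : ℝ) (x : Ed d) : |ind r x| ≤ 1 := by
  rw [abs_of_nonneg (ind_nonneg r x)]; exact ind_le r x

lemma Cut.abs_le (c : Cut d) (x : Ed d) : |c.f x| ≤ 1 := by
  rw [abs_of_nonneg (c.nonneg x)]; exact c.le x

lemma Cut.sq_abs_le (c : Cut d) (x : Ed d) : |c.f x ^ 2| ≤ 1 := by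
  rw [abs_of_nonneg (sq_nonneg _)]
  exact pow_le_one₀ (c.nonneg x) (c.le x)

lemma Cut.sq_H1 (c : Cut d) (u : L2d d) (hu : InH1 u) : InH1 (mr (fun x => c.f x ^ 2) u) :=
  (H1_mul (c.meas.pow_const 2) c.sq_abs_le (2 * c.l) (by linarith [c.hl]) c.lip_sq u hu).1

/-- the localisation inequality -/
theorem Cut.ims (c : Cut d) (r s : ℝ) (hs : 0 < s)
    (hA : ∀ x y, ‖x - y‖ ≤ s → c.f x ≠ c.f y → r ≤ ‖x‖ ∧ r ≤ ‖y‖) (u : L2d d) (hu : InH1 u) :
    -(d * c.l ^ 2 * ‖mr (ind r) u‖ ^ 2) ≤ (dirichlet u (mr (fun x => c.f x ^ 2) u)).re := by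
  have hlim := (Complex.continuous_re.tendsto _).comp (Dq_lim u _ hu (c.sq_H1 u hu))
  refine ge_of_tendsto hlim ?_
  have hev : ∀ᶠ n in atTop, st n < s := st_tendsto.eventually (gt_mem_nhds hs)
  filter_upwards [hev] with n hn
  set t := st n with ht
  have ht0 : 0 < t := st_pos n
  simp only [Function.comp_apply]
  set v := mr (ind r) u with hv
  set w := mr (fun x => c.f x ^ 2) u with hw
  have key : ∀ j : Fin d, -(c.l ^ 2 * t ^ 2 * ‖v‖ ^ 2) ≤
      (⟪tr (t • ev j) w - w, tr (t • ev j) u - u⟫_ℂ).re := by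
    intro j
    set a := t • (ev j : Ed d) with ha
    have han : ‖a‖ = t := by
      rw [ha, norm_smul, Real.norm_of_nonneg ht0.le]
      unfold ev
      simp
    have hi := L2.integrable_inner (𝕜 := ℂ) (tr a w - w) (tr a u - u)
    have hre : (⟪tr a w - w, tr a u - u⟫_ℂ).re =
        ∫ x, (⟪(tr a w - w : L2d d) x, (tr a u - u : L2d d) x⟫_ℂ).re := by
      rw [L2.inner_def]
      exact (integral_re hi).symm
    have hvn : ‖v‖ ^ 2 = (1 / 2) * (‖v‖ ^ 2 + ‖tr a v‖ ^ 2) := by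
      rw [tr_norm]; ring
    rw [hre, hvn, norm_sq_int v, norm_sq_int (tr a v), ← integral_add (sq_integrable _)
      (sq_integrable _), ← integral_const_mul, ← integral_const_mul, ← integral_neg]
    refine integral_mono_ae ?_ hi.re ?_
    · exact ((((sq_integrable v).add (sq_integrable (tr a v))).const_mul _).const_mul _).neg
    · filter_upwards [Lp.coeFn_sub (tr a w) w, Lp.coeFn_sub (tr a u) u, tr_spec a u,
        tr_spec a w, mr_spec (c.meas.pow_const 2) 1 c.sq_abs_le u,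
        ae_shift a (mr_spec (c.meas.pow_const 2) 1 c.sq_abs_le u), tr_spec a v,
        mr_spec (ind_meas r) 1 (ind_abs r) u, ae_shift a (mr_spec (ind_meas r) 1 (ind_abs r) u)]
        with x e1 e2 e3 e4 e5 e6 e7 e8 e9
      rw [e1, e2, Pi.sub_apply, Pi.sub_apply, e3, e4, e5, e6, e7, e8, e9]
      simp only [RCLike.inner_apply]
      have h1 := alg_ims (u x) (u (x + a)) (c.f x) (c.f (x + a)) (c.nonneg x) (c.nonneg _)
      refine le_trans ?_ h1
      rw [neg_le_neg_iff]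
      by_cases heq : c.f x = c.f (x + a)
      · rw [heq, sub_self]
        have hl := c.hl
        have : 0 ≤ c.l ^ 2 * t ^ 2 * (1 / 2 * (‖((ind r x : ℝ) : ℂ) * u x‖ ^ 2 +
            ‖((ind r (x + a) : ℝ) : ℂ) * u (x + a)‖ ^ 2)) := by positivity
        simpa using this
      · obtain ⟨hx1, hx2⟩ := hA x (x + a) (by
          rw [sub_add_cancel_left, norm_neg, han]; exact hn.le) heq
        have i1 : ind r x = 1 := by unfold ind; rw [if_pos hx1]
        have i2 : ind r (x + a) = 1 := by unfold ind; rw [if_pos hx2]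
        rw [i1, i2, Complex.ofReal_one, one_mul, one_mul]
        have h2 : (c.f x - c.f (x + a)) ^ 2 ≤ c.l ^ 2 * t ^ 2 := by
          have h3 := c.lip x (x + a)
          rw [sub_add_cancel_left, norm_neg, han] at h3
          rw [← sq_abs, ← mul_pow]
          exact pow_le_pow_left₀ (abs_nonneg _) h3 2
        have h4 : ‖u x‖ * ‖u (x + a)‖ ≤ 1 / 2 * (‖u x‖ ^ 2 + ‖u (x + a)‖ ^ 2) := by
          nlinarith [sq_nonneg (‖u x‖ - ‖u (x + a)‖)]
        exact mul_le_mul h2 h4 (by positivity) (by positivity)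
  unfold Dq
  rw [Complex.re_ofReal_mul, Complex.re_sum]
  have hsum : -(d * (c.l ^ 2 * t ^ 2 * ‖v‖ ^ 2)) ≤
      ∑ j : Fin d, (⟪tr (t • ev j) w - w, tr (t • ev j) u - u⟫_ℂ).re := by
    refine le_trans (le_of_eq ?_) (Finset.sum_le_sum fun j _ => key j)
    rw [Finset.sum_const, Finset.card_univ, Fintype.card_fin, nsmul_eq_mul]
    ring
  have ht2 : 0 < t ^ 2 := by positivity
  calc -(d * c.l ^ 2 * ‖v‖ ^ 2) = (t ^ 2)⁻¹ * -(d * (c.l ^ 2 * t ^ 2 * ‖v‖ ^ 2)) := by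
        field_simp
    _ ≤ _ := mul_le_mul_of_nonneg_left hsum (inv_pos.2 ht2).le

/-- One step: the mass where the cut-off is large is bounded by the mass beyond `r`. -/
theorem decay_step {h : ℝ} (w : Weight d) (F : L2d d →L[ℂ] L2d d)
    (hF1 : ∀ z, InH1 (F z))
    (hF : ∀ v φ, InH1 φ → ((h ^ 2 : ℝ) : ℂ) * dirichlet (F (adjoint F v)) φ +
      (∫ x, ((w.U x : ℝ) : ℂ) * (F (adjoint F v)) x * (starRingEnd ℂ) (φ x)) +
      ⟪φ, F (adjoint F v)⟫_ℂ = ⟪φ, v⟫_ℂ)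
    (a κ0 : ℝ) (u : L2d d) (hu : u = (a : ℂ) • F (adjoint F u)) (c : Cut d) (r s : ℝ) (hs : 0 < s)
    (hA : ∀ x y, ‖x - y‖ ≤ s → c.f x ≠ c.f y → r ≤ ‖x‖ ∧ r ≤ ‖y‖)
    (hκ : ∀ x, c.f x ≠ 0 → κ0 ≤ w.U x) :
    (κ0 + 1 - a) * ‖mr c.f u‖ ^ 2 ≤ h ^ 2 * (d * c.l ^ 2) * ‖mr (ind r) u‖ ^ 2 := by
  have hu1 : u = F (adjoint F ((a : ℂ) • u)) := by rw [map_smul, map_smul]; exact hu
  have huH : InH1 u := by rw [hu1]; exact hF1 _
  set φ := mr (fun x => c.f x ^ 2) u with hφ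
  have hφH : InH1 φ := c.sq_H1 u huH
  have h1 := hF ((a : ℂ) • u) φ hφH
  rw [← hu1, inner_smul_right] at h1
  have h2 := c.ims r s hs hA u huH
  have hφs := mr_spec (c.meas.pow_const 2) 1 c.sq_abs_le u
  have h3 : ⟪φ, u⟫_ℂ = ((‖mr c.f u‖ ^ 2 : ℝ) : ℂ) := by
    rw [norm_sq_int, ← integral_complex_ofReal, ← pair_inner]
    refine integral_congr_ae ?_
    filter_upwards [hφs, mr_spec c.meas 1 c.abs_le u] with x e1 e2
    rw [e1, e2, map_mul, Complex.conj_ofReal, norm_mul, Complex.norm_real,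
      Real.norm_of_nonneg (c.nonneg x)]
    have := Complex.mul_conj' (u x)
    push_cast
    linear_combination ((c.f x : ℝ) : ℂ) ^ 2 * this
  have hUi := w.int_pair u φ huH hφH
  have h4 : ∫ x, ((w.U x : ℝ) : ℂ) * u x * (starRingEnd ℂ) (φ x) =
      ((∫ x, w.U x * c.f x ^ 2 * ‖u x‖ ^ 2 : ℝ) : ℂ) := by
    rw [← integral_complex_ofReal]
    refine integral_congr_ae ?_
    filter_upwards [hφs] with x e1
    rw [e1, map_mul, Complex.conj_ofReal]
    have := Complex.mul_conj' (u x)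
    push_cast
    linear_combination (((w.U x : ℝ) : ℂ) * ((c.f x : ℝ) : ℂ) ^ 2) * this
  have hUi2 : Integrable (fun x => w.U x * c.f x ^ 2 * ‖u x‖ ^ 2) volume := by
    refine hUi.re.congr ?_
    filter_upwards [hφs] with x e1
    change (((w.U x : ℝ) : ℂ) * u x * (starRingEnd ℂ) (φ x)).re = _
    rw [e1, map_mul (starRingEnd ℂ), Complex.conj_ofReal]
    have h5 := Complex.mul_conj' (u x)
    have h6 : ((w.U x : ℝ) : ℂ) * u x * (((c.f x ^ 2 : ℝ) : ℂ) * (starRingEnd ℂ) (u x)) =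
        ((w.U x * c.f x ^ 2 * ‖u x‖ ^ 2 : ℝ) : ℂ) := by
      push_cast
      linear_combination (((w.U x : ℝ) : ℂ) * ((c.f x : ℝ) : ℂ) ^ 2) * h5
    rw [h6]
    exact Complex.ofReal_re _
  have h5 : κ0 * ‖mr c.f u‖ ^ 2 ≤ ∫ x, w.U x * c.f x ^ 2 * ‖u x‖ ^ 2 := by
    rw [norm_sq_int, ← integral_const_mul]
    refine integral_mono_ae ((sq_integrable _).const_mul _) hUi2 ?_
    filter_upwards [mr_spec c.meas 1 c.abs_le u] with x e2
    rw [e2, norm_mul, Complex.norm_real, Real.norm_of_nonneg (c.nonneg x), mul_pow]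
    by_cases h0 : c.f x = 0
    · rw [h0]; simp
    · have := hκ x h0
      have h7 : 0 ≤ c.f x ^ 2 * ‖u x‖ ^ 2 := by positivity
      nlinarith
  rw [h3, h4] at h1
  have h6 := congrArg Complex.re h1
  rw [Complex.add_re, Complex.add_re, Complex.re_ofReal_mul, Complex.ofReal_re, Complex.ofReal_re,
    ← Complex.ofReal_mul, Complex.ofReal_re] at h6
  have h7 : 0 ≤ h ^ 2 := sq_nonneg h
  have h8 := mul_le_mul_of_nonneg_left h2 h7
  nlinarith

end

end Pool.Agent.V11260.CP
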